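import Pool.Agent.Lib_MP_008adc_co.NPi

/-!
# Piece B0: disjoint sets of primes in a short interval
-/

set_option autoImplicit false

namespace HadLLL

open Finset

/-- many primes in one interval `[(i * w), (i + 1) * w)`, `i ≥ K - 1` -/
theorem prime_interval (b K d : ℕ) (hb : 1 ≤ b) (hK : 1 ≤ K) (hd : d ≤ b)
    (h : 100 * b ^ 2 * K ^ 2 ≤ 2 ^ d) :
    ∃ (y : ℕ) (F : Finset ℕ), y ≤ 2 ^ b ∧ K * 2 ^ (b - d) ≤ F.card ∧
      ∀ p ∈ F, p.Prime ∧ p < y ∧ (K - 1) * y ≤ K * p := by
  have hpi := HadNT.pi_two_pow b hb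
  obtain ⟨W, hW⟩ : ∃ W : ℕ, W = 2 ^ b := ⟨_, rfl⟩
  obtain ⟨m, hm⟩ : ∃ m : ℕ, m = 2 ^ (b - d) := ⟨_, rfl⟩
  have hWm : W = 2 ^ d * m := by
    rw [hW, hm, ← pow_add]
    congr 1
    omega
  have hm1 : 1 ≤ m := by
    rw [hm]
    exact Nat.one_le_two_pow
  rw [← hW] at hpi
  rw [← hm, ← hW]
  have hbK : 1 ≤ b * K := Nat.mul_pos hb hK
  have hWbig : 100 * b ^ 2 * K ^ 2 * m ≤ W := by
    rw [hWm]
    exact Nat.mul_le_mul_right _ h
  have hW16 : 16 * b * K ≤ W := by
    have h1 : b * K ≤ b ^ 2 * K ^ 2 * m := by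
      calc b * K = b * K * 1 * 1 := by ring
        _ ≤ b * K * (b * K) * m := by gcongr
        _ = b ^ 2 * K ^ 2 * m := by ring
    nlinarith
  obtain ⟨w, hw⟩ : ∃ w : ℕ, w = W / (8 * b * K) := ⟨_, rfl⟩
  have h8 : 0 < 8 * b * K := by positivity
  have hw1 : 1 ≤ w := by
    rw [hw, Nat.le_div_iff_mul_le h8]
    linarith
  have hwle : w * (8 * b * K) ≤ W := by
    rw [hw]
    exact Nat.div_mul_le_self _ _
  have hwlt : W < (w + 1) * (8 * b * K) := by
    rw [hw, mul_comm]
    exact Nat.lt_mul_div_succ W h8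
  have hwW : w ≤ W := by
    rw [hw]
    exact Nat.div_le_self _ _
  have hWw : W / w ≤ 16 * b * K := by
    apply Nat.div_le_of_le_mul
    nlinarith
  -- the primes
  set S : Finset ℕ := (range (W + 1)).filter Nat.Prime with hS
  have hScard : S.card = Nat.primeCounting W := by
    rw [Nat.primeCounting, Nat.primeCounting', Nat.count_eq_card_filter_range]
  set S' : Finset ℕ := S.filter (fun p => K - 1 ≤ p / w ∧ (p / w + 1) * w ≤ W) with hS'
  have hbad : (S.filter (fun p => ¬ (K - 1 ≤ p / w ∧ (p / w + 1) * w ≤ W))).card ≤ K * w := by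
    have h1 : S.filter (fun p => ¬ (K - 1 ≤ p / w ∧ (p / w + 1) * w ≤ W)) ⊆
        range ((K - 1) * w) ∪ Ioc (W - w) W := by
      intro p hp
      rw [mem_filter, hS, mem_filter, mem_range] at hp
      rw [mem_union, mem_range, mem_Ioc]
      by_cases hc : K - 1 ≤ p / w
      · right
        have h2 : ¬ ((p / w + 1) * w ≤ W) := fun h3 => hp.2 ⟨hc, h3⟩
        have h4 : p / w * w ≤ p := Nat.div_mul_le_self _ _
        have h5 : (p / w + 1) * w = p / w * w + w := by ring
        omega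
      · left
        push Not at hc
        exact (Nat.div_lt_iff_lt_mul (by omega)).1 hc
    calc _ ≤ (range ((K - 1) * w) ∪ Ioc (W - w) W).card := card_le_card h1
      _ ≤ (range ((K - 1) * w)).card + (Ioc (W - w) W).card := card_union_le _ _
      _ = (K - 1) * w + (W - (W - w)) := by rw [card_range, Nat.card_Ioc]
      _ ≤ (K - 1) * w + w := by omega
      _ = K * w := by
        obtain ⟨K', rfl⟩ : ∃ K', K = K' + 1 := ⟨K - 1, by omega⟩
        rw [Nat.add_sub_cancel]
        ring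
  have hsum : S'.card + (S.filter (fun p => ¬ (K - 1 ≤ p / w ∧ (p / w + 1) * w ≤ W))).card = S.card :=
    card_filter_add_card_filter_not _
  have hlow : 3 * W ≤ 8 * b * S'.card := by
    have h1 : W ≤ 2 * b * (S'.card + K * w) := by
      calc W ≤ 2 * b * Nat.primeCounting W := hpi
        _ = 2 * b * S.card := by rw [hScard]
        _ ≤ _ := by
          apply Nat.mul_le_mul_left
          omega
    nlinarith
  -- pigeonhole
  have hmaps : ∀ p ∈ S', p / w ∈ range (W / w) := by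
    intro p hp
    rw [hS', mem_filter] at hp
    rw [mem_range]
    have := (Nat.le_div_iff_mul_le (by omega)).2 hp.2.2
    omega
  have hne : (range (W / w)).Nonempty := by
    rw [nonempty_range_iff]
    have : 1 ≤ W / w := by
      rw [Nat.le_div_iff_mul_le (by omega)]
      nlinarith
    omega
  have hcount : (range (W / w)).card * (K * m) ≤ S'.card := by
    rw [card_range]
    have h1 : 8 * b * (W / w * (K * m)) ≤ 8 * b * S'.card := by
      calc 8 * b * (W / w * (K * m)) ≤ 8 * b * (16 * b * K * (K * m)) := by gcongr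
        _ = 128 * b ^ 2 * K ^ 2 * m := by ring
        _ ≤ 3 * (100 * b ^ 2 * K ^ 2 * m) := by
          have : 0 ≤ b ^ 2 * K ^ 2 * m := Nat.zero_le _
          nlinarith
        _ ≤ 3 * W := by omega
        _ ≤ _ := hlow
    exact Nat.le_of_mul_le_mul_left h1 (by positivity)
  obtain ⟨i, hi, hfib⟩ := exists_le_card_fiber_of_mul_le_card_of_maps_to hmaps hne hcount
  refine ⟨(i + 1) * w, S'.filter (fun p => p / w = i), ?_, hfib, ?_⟩
  · rw [mem_range] at hi
    calc (i + 1) * w ≤ W / w * w := Nat.mul_le_mul_right _ hi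
      _ ≤ W := Nat.div_mul_le_self _ _
  · intro p hp
    rw [mem_filter, hS', mem_filter, hS, mem_filter] at hp
    obtain ⟨⟨⟨_, hpp⟩, hpi1, _⟩, rfl⟩ := hp
    have h4 : p / w * w ≤ p := Nat.div_mul_le_self _ _
    refine ⟨hpp, ?_, ?_⟩
    · have := Nat.lt_mul_div_succ p (by omega : 0 < w)
      calc p < _ := this
        _ = _ := by ring
    · obtain ⟨K', rfl⟩ : ∃ K', K = K' + 1 := ⟨K - 1, by omega⟩
      rw [Nat.add_sub_cancel] at hpi1 ⊢
      calc K' * ((p / w + 1) * w) = K' * (p / w * w) + K' * w := by ring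
        _ ≤ K' * p + p / w * w := by gcongr
        _ ≤ K' * p + p := by omega
        _ = (K' + 1) * p := by ring

/-- splitting a large set in `K` disjoint parts of given size -/
theorem split_set (K m : ℕ) (F : Finset ℕ) (hF : K * m ≤ F.card) :
    ∃ P : Fin K → Finset ℕ, (∀ j, P j ⊆ F) ∧ (∀ j, (P j).card = m) ∧
      ∀ i j, i ≠ j → Disjoint (P i) (P j) := by
  obtain ⟨F', hF', hc⟩ := exists_subset_card_eq hF
  refine ⟨fun j => univ.image (fun i : Fin m => F'.orderEmbOfFin hc (finProdFinEquiv (j, i))), ?_, ?_, ?_⟩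
  · intro j p hp
    obtain ⟨i, _, rfl⟩ := mem_image.1 hp
    exact hF' (orderEmbOfFin_mem _ _ _)
  · intro j
    rw [card_image_of_injective, card_univ, Fintype.card_fin]
    intro i i' h
    have h1 := (F'.orderEmbOfFin hc).injective h
    have h2 := finProdFinEquiv.injective h1
    exact (Prod.mk.inj h2).2
  · intro i j hij
    rw [disjoint_left]
    intro p hp hp'
    obtain ⟨a, _, rfl⟩ := mem_image.1 hp
    obtain ⟨a', _, h⟩ := mem_image.1 hp'
    have h1 := (F'.orderEmbOfFin hc).injective h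
    have h2 := finProdFinEquiv.injective h1
    exact hij (Prod.mk.inj h2).1.symm

/-- **B0**: `K` disjoint sets of `2 ^ (b - d)` primes in `[y (1 - 1/K), y)`, `y ≤ 2 ^ b`. -/
theorem prime_sets (b K d : ℕ) (hb : 1 ≤ b) (hK : 1 ≤ K) (hd : d ≤ b)
    (h : 100 * b ^ 2 * K ^ 2 ≤ 2 ^ d) :
    ∃ (y : ℕ) (P : Fin K → Finset ℕ), y ≤ 2 ^ b ∧ 2 ^ (b - d) < y ∧
      (∀ j, (P j).card = 2 ^ (b - d)) ∧
      (∀ j, ∀ p ∈ P j, p.Prime ∧ p < y ∧ (K - 1) * y ≤ K * p) ∧
      ∀ i j, i ≠ j → Disjoint (P i) (P j) := by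
  obtain ⟨y, F, hy, hF, hp⟩ := prime_interval b K d hb hK hd h
  obtain ⟨P, hP1, hP2, hP3⟩ := split_set K (2 ^ (b - d)) F hF
  refine ⟨y, P, hy, ?_, hP2, fun j p hj => hp p (hP1 j hj), hP3⟩
  have h1 : P ⟨0, hK⟩ ⊆ (range y).erase 0 := by
    intro p hp'
    rw [mem_erase, mem_range]
    have := hp p (hP1 _ hp')
    exact ⟨this.1.ne_zero, this.2.1⟩
  have h2 := card_le_card h1
  rw [hP2] at h2
  have h3 : 0 < 2 ^ (b - d) := by positivity
  have h4 : 0 < y := by
    rcases Nat.eq_zero_or_pos y with h5 | h5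
    · subst h5
      simp at h2
    · exact h5
  rw [card_erase_of_mem (mem_range.2 h4), card_range] at h2
  omega

end HadLLL
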