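import Mathlib

/-!
# Piece B1: bilinear sums with real frequencies
-/

set_option autoImplicit false

namespace HadLLL

open Finset

/-- distance to the nearest integer -/
noncomputable def nd (x : ℝ) : ℝ := |x - round x|

/-- `min (X, 1 / (2 ‖x‖))`, with the value `X` at integers -/
noncomputable def G (X x : ℝ) : ℝ := if nd x * (2 * X) ≤ 1 then X else 1 / (2 * nd x)

/-- `e(x) = exp (2 π i x)` -/
noncomputable def eR (x : ℝ) : ℂ := Complex.exp (2 * Real.pi * x * Complex.I)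

theorem nd_nonneg (x : ℝ) : 0 ≤ nd x := abs_nonneg _

theorem nd_le_half (x : ℝ) : nd x ≤ 1 / 2 := abs_sub_round x

theorem nd_neg (x : ℝ) : nd (-x) = nd x := by
  apply le_antisymm
  · have h := round_le (-x) (-round x)
    calc nd (-x) ≤ |(-x) - ((-round x : ℤ) : ℝ)| := h
      _ = nd x := by
        unfold nd
        rw [← abs_neg (x - _)]
        congr 1
        push_cast
        ring
  · have h := round_le x (-round (-x))
    calc nd x ≤ |x - ((-round (-x) : ℤ) : ℝ)| := h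
      _ = nd (-x) := by
        unfold nd
        rw [← abs_neg (-x - _)]
        congr 1
        push_cast
        ring

theorem G_nonneg (X x : ℝ) (hX : 0 ≤ X) : 0 ≤ G X x := by
  unfold G
  have := nd_nonneg x
  split_ifs <;> positivity

theorem G_le (X x : ℝ) : G X x ≤ X := by
  unfold G
  split_ifs with h
  · exact le_refl _
  · push Not at h
    have h1 : 0 < nd x := by
      rcases (nd_nonneg x).lt_or_eq with h2 | h2
      · exact h2
      · rw [← h2] at h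
        norm_num at h
    rw [div_le_iff₀ (by positivity)]
    nlinarith

theorem G_le' (X x : ℝ) (hx : 0 < nd x) : G X x ≤ 1 / (2 * nd x) := by
  unfold G
  split_ifs with h
  · rw [le_div_iff₀ (by positivity)]
    nlinarith
  · exact le_refl _

theorem eR_add (x y : ℝ) : eR (x + y) = eR x * eR y := by
  unfold eR
  rw [← Complex.exp_add]
  congr 1
  push_cast
  ring

theorem eR_zero : eR 0 = 1 := by simp [eR]

theorem norm_eR (x : ℝ) : ‖eR x‖ = 1 := by
  unfold eR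
  rw [show (2 * (Real.pi : ℂ) * (x : ℂ) * Complex.I) = ((2 * Real.pi * x : ℝ) : ℂ) * Complex.I by push_cast; ring]
  exact Complex.norm_exp_ofReal_mul_I _

theorem eR_conj (x : ℝ) : (starRingEnd ℂ) (eR x) = eR (-x) := by
  unfold eR
  rw [← Complex.exp_conj]
  congr 1
  simp
  exact Or.inl (map_ofNat (starRingEnd ℂ) 2)

theorem eR_int (n : ℤ) : eR n = 1 := by
  unfold eR
  rw [Complex.exp_eq_one_iff]
  exact ⟨n, by push_cast; ring⟩

theorem eR_nat_mul (x : ℝ) (n : ℕ) : eR (x * n) = eR x ^ n := by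
  unfold eR
  rw [← Complex.exp_nat_mul]
  congr 1
  push_cast
  ring

theorem norm_eR_sub_one (x : ℝ) : 4 * nd x ≤ ‖eR x - 1‖ := by
  have h1 : eR x = eR (x - round x) := by
    have := eR_add (x - round x) (round x)
    rw [sub_add_cancel, eR_int, mul_one] at this
    exact this
  rw [h1]
  have h2 : eR (x - round x) = Complex.exp (Complex.I * ((2 * Real.pi * (x - round x) : ℝ) : ℂ)) := by
    unfold eR
    congr 1
    push_cast
    ring
  rw [h2, Complex.norm_exp_I_mul_ofReal_sub_one]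
  have h3 : ‖2 * Real.sin (2 * Real.pi * (x - round x) / 2)‖ = 2 * Real.sin (Real.pi * nd x) := by
    have h4 : 2 * Real.pi * (x - round x) / 2 = Real.pi * (x - round x) := by ring
    rw [h4]
    have h5 : 0 ≤ Real.sin (Real.pi * nd x) := by
      apply Real.sin_nonneg_of_nonneg_of_le_pi
      · exact mul_nonneg Real.pi_pos.le (nd_nonneg x)
      · have := nd_le_half x
        nlinarith [Real.pi_pos]
    rw [norm_mul, Real.norm_ofNat, Real.norm_eq_abs]
    congr 1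
    unfold nd at h5 ⊢
    rcases abs_choice (x - round x) with h6 | h6
    · rw [h6] at h5 ⊢
      exact abs_of_nonneg h5
    · rw [h6] at h5 ⊢
      rw [show Real.pi * -(x - round x) = -(Real.pi * (x - round x)) by ring, Real.sin_neg] at h5 ⊢
      rw [← abs_neg]
      exact abs_of_nonneg h5
  rw [h3]
  have h6 := Real.mul_le_sin (x := Real.pi * nd x) (mul_nonneg Real.pi_pos.le (nd_nonneg x))
    (by have := nd_le_half x; nlinarith [Real.pi_pos])
  have h7 : 2 / Real.pi * (Real.pi * nd x) = 2 * nd x := by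
    field_simp
  linarith

/-- the geometric sum bound -/
theorem geom_bound (X : ℕ) (x : ℝ) : ‖∑ u ∈ range X, eR (x * u)‖ ≤ G X x := by
  have htriv : ‖∑ u ∈ range X, eR (x * u)‖ ≤ X := by
    calc ‖∑ u ∈ range X, eR (x * u)‖ ≤ ∑ u ∈ range X, ‖eR (x * u)‖ := norm_sum_le _ _
      _ = X := by simp [norm_eR]
  unfold G
  split_ifs with h
  · exact htriv
  · push Not at h
    have h1 : 0 < nd x := by
      rcases (nd_nonneg x).lt_or_eq with h2 | h2
      · exact h2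
      · rw [← h2] at h
        norm_num at h
    have h2 := norm_eR_sub_one x
    have h3 : eR x ≠ 1 := by
      intro h4
      rw [h4, sub_self, norm_zero] at h2
      linarith
    have h4 : ∑ u ∈ range X, eR (x * u) = (eR x ^ X - 1) / (eR x - 1) := by
      rw [← geom_sum_eq h3]
      exact sum_congr rfl fun u _ => eR_nat_mul x u
    rw [h4, norm_div]
    have h5 : ‖eR x ^ X - 1‖ ≤ 2 := by
      calc ‖eR x ^ X - 1‖ ≤ ‖eR x ^ X‖ + ‖(1 : ℂ)‖ := norm_sub_le _ _
        _ = 2 := by rw [norm_pow, norm_eR]; norm_num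
    rw [div_le_div_iff₀ (by linarith) (by positivity)]
    nlinarith

/-- Bilinear sums: `|∑_{u ∈ U, v ∈ V} e(γ u v)|² ≤ |U| |V| ∑_{|r| < X2} min (X1, 1/(2‖γ r‖))`. -/
theorem bilinear (γ : ℝ) (U V : Finset ℕ) (X1 X2 : ℕ) (hU : ∀ u ∈ U, u < X1) (hV : ∀ v ∈ V, v < X2) :
    ‖∑ u ∈ U, ∑ v ∈ V, eR (γ * u * v)‖ ^ 2 ≤
      U.card * V.card * ∑ r ∈ Ioo (-(X2 : ℤ)) X2, G X1 (γ * r) := by
  have h1 : ‖∑ u ∈ U, ∑ v ∈ V, eR (γ * u * v)‖ ^ 2 ≤ U.card * ∑ u ∈ U, ‖∑ v ∈ V, eR (γ * u * v)‖ ^ 2 := by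
    calc ‖∑ u ∈ U, ∑ v ∈ V, eR (γ * u * v)‖ ^ 2 ≤ (∑ u ∈ U, ‖∑ v ∈ V, eR (γ * u * v)‖) ^ 2 := by
          gcongr
          exact norm_sum_le _ _
      _ ≤ _ := sq_sum_le_card_mul_sum_sq
  have h2 : ∑ u ∈ U, ‖∑ v ∈ V, eR (γ * u * v)‖ ^ 2 ≤ ∑ u ∈ range X1, ‖∑ v ∈ V, eR (γ * u * v)‖ ^ 2 := by
    apply sum_le_sum_of_subset_of_nonneg
    · intro u hu
      exact mem_range.2 (hU u hu)
    · intros
      positivity
  have h3 : (((∑ u ∈ range X1, ‖∑ v ∈ V, eR (γ * u * v)‖ ^ 2 : ℝ)) : ℂ) =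
      ∑ v ∈ V, ∑ w ∈ V, ∑ u ∈ range X1, eR (γ * ((v : ℤ) - (w : ℤ) : ℤ) * u) := by
    push_cast
    have h4 : ∀ u : ℕ, ((‖∑ v ∈ V, eR (γ * u * v)‖ : ℂ)) ^ 2 =
        ∑ v ∈ V, ∑ w ∈ V, eR (γ * ((v : ℤ) - (w : ℤ) : ℤ) * u) := by
      intro u
      rw [← Complex.mul_conj', map_sum, sum_mul_sum]
      refine sum_congr rfl fun v _ => sum_congr rfl fun w _ => ?_
      rw [eR_conj, ← eR_add]
      congr 1
      push_cast
      ring
    rw [sum_congr rfl fun u _ => h4 u, sum_comm]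
    refine sum_congr rfl fun v _ => ?_
    rw [sum_comm]
    simp
  have h5 : ∑ u ∈ range X1, ‖∑ v ∈ V, eR (γ * u * v)‖ ^ 2 ≤
      V.card * ∑ r ∈ Ioo (-(X2 : ℤ)) X2, G X1 (γ * r) := by
    have h6 : 0 ≤ ∑ u ∈ range X1, ‖∑ v ∈ V, eR (γ * u * v)‖ ^ 2 := by positivity
    have h7 : ∑ u ∈ range X1, ‖∑ v ∈ V, eR (γ * u * v)‖ ^ 2 =
        ‖(((∑ u ∈ range X1, ‖∑ v ∈ V, eR (γ * u * v)‖ ^ 2 : ℝ)) : ℂ)‖ := by
      rw [Complex.norm_real, Real.norm_of_nonneg h6]
    rw [h7, h3]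
    calc ‖∑ v ∈ V, ∑ w ∈ V, ∑ u ∈ range X1, eR (γ * ((v : ℤ) - (w : ℤ) : ℤ) * u)‖
        ≤ ∑ v ∈ V, ∑ w ∈ V, ‖∑ u ∈ range X1, eR (γ * ((v : ℤ) - (w : ℤ) : ℤ) * u)‖ := by
          refine (norm_sum_le _ _).trans (sum_le_sum fun v _ => norm_sum_le _ _)
      _ ≤ ∑ v ∈ V, ∑ w ∈ V, G X1 (γ * ((v : ℤ) - (w : ℤ) : ℤ)) :=
          sum_le_sum fun v _ => sum_le_sum fun w _ => geom_bound _ _
      _ ≤ ∑ v ∈ V, ∑ r ∈ Ioo (-(X2 : ℤ)) X2, G X1 (γ * r) := by
          refine sum_le_sum fun v hv => ?_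
          have h8 : ∑ w ∈ V, G X1 (γ * ((v : ℤ) - (w : ℤ) : ℤ)) =
              ∑ r ∈ V.image (fun w : ℕ => (v : ℤ) - (w : ℤ)), G X1 (γ * (r : ℝ)) := by
            rw [sum_image]
            intro w _ w' _ hw
            have : (v : ℤ) - (w : ℤ) = (v : ℤ) - (w' : ℤ) := hw
            omega
          rw [h8]
          apply sum_le_sum_of_subset_of_nonneg
          · intro r hr
            obtain ⟨w, hw, rfl⟩ := mem_image.1 hr
            have := hV v hv
            have := hV w hw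
            rw [mem_Ioo]
            constructor <;> omega
          · intro r _ _
            exact G_nonneg _ _ (Nat.cast_nonneg _)
      _ = _ := by rw [sum_const, nsmul_eq_mul]
  calc ‖∑ u ∈ U, ∑ v ∈ V, eR (γ * u * v)‖ ^ 2 ≤ U.card * ∑ u ∈ U, ‖∑ v ∈ V, eR (γ * u * v)‖ ^ 2 := h1
    _ ≤ U.card * (V.card * ∑ r ∈ Ioo (-(X2 : ℤ)) X2, G X1 (γ * r)) := by
        gcongr
        exact h2.trans h5
    _ = _ := by ring

/-- the relation with the standard additive character modulo `M` -/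
theorem eR_std (M : ℕ) [NeZero M] (h t : ℕ) :
    (ZMod.stdAddChar ((h : ZMod M) * (t : ZMod M)) : ℂ) = eR ((h : ℝ) / M * t) := by
  have h1 : ((h : ZMod M) * (t : ZMod M)) = (((h * t : ℕ) : ℤ) : ZMod M) := by push_cast; ring
  rw [h1, ZMod.stdAddChar_coe]
  unfold eR
  congr 1
  push_cast
  ring

end HadLLL
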