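import Pool.Agent.Lib_MP_008adc_c3.MinSum

/-!
MP_008adc_co: the bilinear estimate (note 2926, B1).
-/

namespace MinSum

open Finset Complex

/-- `exp (2 π i x)` -/
noncomputable def eR (x : ℝ) : ℂ := Complex.exp (2 * (Real.pi : ℂ) * Complex.I * (x : ℂ))

lemma eR_eq (x : ℝ) : eR x = Complex.exp (((2 * Real.pi * x : ℝ) : ℂ) * Complex.I) := by
  unfold eR
  congr 1
  push_cast
  ring

lemma norm_eR (x : ℝ) : ‖eR x‖ = 1 := by
  rw [eR_eq]
  exact Complex.norm_exp_ofReal_mul_I _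

lemma eR_add (x y : ℝ) : eR (x + y) = eR x * eR y := by
  unfold eR
  rw [← Complex.exp_add]
  congr 1
  push_cast
  ring

lemma eR_zero : eR 0 = 1 := by
  unfold eR
  simp

lemma eR_int (n : ℤ) : eR n = 1 := by
  unfold eR
  rw [Complex.exp_eq_one_iff]
  refine ⟨n, ?_⟩
  push_cast
  ring

lemma conj_eR (x : ℝ) : (starRingEnd ℂ) (eR x) = eR (-x) := by
  have h1 : eR x * eR (-x) = 1 := by
    rw [← eR_add]
    simp [eR_zero]
  have h2 : eR x * (starRingEnd ℂ) (eR x) = 1 := by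
    rw [Complex.mul_conj, Complex.normSq_eq_norm_sq, norm_eR]
    simp
  have h3 : eR x ≠ 0 := by
    intro h
    have := norm_eR x
    rw [h] at this
    simp at this
  exact mul_left_cancel₀ h3 (h2.trans h1.symm)

lemma eR_mul_nat (x : ℝ) (n : ℕ) : eR (x * n) = eR x ^ n := by
  induction n with
  | zero => simp [eR_zero]
  | succ n ih =>
    rw [pow_succ, ← ih, ← eR_add]
    congr 1
    push_cast
    ring

lemma norm_eR_sub_one (x : ℝ) : 4 * nd x ≤ ‖eR x - 1‖ := by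
  have h0 : eR x = eR (x - round x) := by
    have : eR x = eR ((x - round x) + ((round x : ℤ) : ℝ)) := by
      congr 1
      ring
    rw [this, eR_add, eR_int, mul_one]
  rw [h0]
  set y : ℝ := x - round x with hy
  have hnd : nd x = |y| := rfl
  have hy2 : |y| ≤ 1 / 2 := abs_sub_round x
  rw [hnd]
  have h1 : ‖eR y - 1‖ = |2 * Real.sin (Real.pi * y)| := by
    rw [eR_eq, mul_comm, Complex.norm_exp_I_mul_ofReal_sub_one]
    rw [Real.norm_eq_abs]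
    congr 3
    ring
  rw [h1, abs_mul, abs_of_pos (by norm_num : (0 : ℝ) < 2)]
  have h2 : |Real.sin (Real.pi * y)| = Real.sin (Real.pi * |y|) := by
    rcases le_or_gt 0 y with h | h
    · rw [abs_of_nonneg h]
      apply abs_of_nonneg
      apply Real.sin_nonneg_of_nonneg_of_le_pi
      · positivity
      · rw [abs_of_nonneg h] at hy2
        have := Real.pi_pos
        nlinarith
    · rw [abs_of_neg h]
      have h3 : Real.sin (Real.pi * y) = -Real.sin (Real.pi * (-y)) := by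
        rw [← Real.sin_neg]
        congr 1
        ring
      rw [h3, abs_neg]
      apply abs_of_nonneg
      apply Real.sin_nonneg_of_nonneg_of_le_pi
      · have := Real.pi_pos
        nlinarith
      · rw [abs_of_neg h] at hy2
        have := Real.pi_pos
        nlinarith
  rw [h2]
  have hpi := Real.pi_pos
  have h3 := Real.mul_le_sin (x := Real.pi * |y|) (by positivity) (by nlinarith)
  have h4 : 2 / Real.pi * (Real.pi * |y|) = 2 * |y| := by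
    field_simp
  rw [h4] at h3
  linarith

lemma geom_le (α : ℝ) (N : ℕ) : ‖∑ n ∈ range N, eR (α * n)‖ ≤ N := by
  refine (norm_sum_le _ _).trans ?_
  simp [norm_eR]

lemma geom_nd (α : ℝ) (N : ℕ) : ‖∑ n ∈ range N, eR (α * n)‖ * (2 * nd α) ≤ 1 := by
  have h1 : (∑ n ∈ range N, eR (α * n)) * (eR α - 1) = eR α ^ N - 1 := by
    rw [← geom_sum_mul]
    congr 1
    apply sum_congr rfl
    intro n _
    exact eR_mul_nat α n
  have h2 : ‖∑ n ∈ range N, eR (α * n)‖ * ‖eR α - 1‖ ≤ 2 := by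
    rw [← norm_mul, h1]
    refine (norm_sub_le _ _).trans ?_
    rw [norm_pow, norm_eR]
    simp
    norm_num
  have h3 := norm_eR_sub_one α
  have h4 : 0 ≤ ‖∑ n ∈ range N, eR (α * n)‖ := norm_nonneg _
  nlinarith

/-- THE BILINEAR ESTIMATE. -/
theorem bilin {ι κ : Type*} (γ : ℝ) (U : Finset ι) (V : Finset κ) (u : ι → ℕ) (v : κ → ℕ)
    (X1 X2 : ℕ) (hu : Set.InjOn u U) (hu1 : ∀ i ∈ U, u i < X1) (hv : Set.InjOn v V)
    (hv1 : ∀ k ∈ V, v k < X2) :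
    ‖∑ i ∈ U, ∑ k ∈ V, eR (γ * ((u i : ℝ) * (v k : ℝ)))‖ ^ 2
      ≤ (U.card : ℝ) * V.card * ∑ r ∈ Ioo (-(X2 : ℤ)) (X2 : ℤ),
        ‖∑ n ∈ range X1, eR (γ * (r : ℝ) * (n : ℝ))‖ := by
  set A : ℕ → ℂ := fun n => ∑ k ∈ V, eR (γ * ((n : ℝ) * (v k : ℝ))) with hA
  -- Cauchy-Schwarz
  have h1 : ‖∑ i ∈ U, A (u i)‖ ^ 2 ≤ (U.card : ℝ) * ∑ i ∈ U, ‖A (u i)‖ ^ 2 := by
    have e1 : ‖∑ i ∈ U, A (u i)‖ ^ 2 ≤ (∑ i ∈ U, ‖A (u i)‖) ^ 2 :=
      pow_le_pow_left₀ (norm_nonneg _) (norm_sum_le _ _) 2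
    refine e1.trans ?_
    exact sq_sum_le_card_mul_sum_sq
  have h2 : ∑ i ∈ U, ‖A (u i)‖ ^ 2 ≤ ∑ n ∈ range X1, ‖A n‖ ^ 2 := by
    classical
    rw [← sum_image (f := fun n => ‖A n‖ ^ 2) (s := U) (g := u)
      (fun i hi j hj h => hu hi hj h)]
    apply sum_le_sum_of_subset_of_nonneg
    · intro n hn
      rw [mem_image] at hn
      obtain ⟨i, hi, rfl⟩ := hn
      exact mem_range.2 (hu1 i hi)
    · intro n _ _
      positivity
  -- expand
  have h3 : ((∑ n ∈ range X1, ‖A n‖ ^ 2 : ℝ) : ℂ)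
      = ∑ k ∈ V, ∑ l ∈ V, ∑ n ∈ range X1, eR (γ * (((v k : ℤ) - (v l : ℤ) : ℤ) : ℝ) * (n : ℝ)) := by
    push_cast
    have e1 : ∀ n ∈ range X1, ((‖A n‖ : ℂ)) ^ 2
        = ∑ k ∈ V, ∑ l ∈ V, eR (γ * (((v k : ℤ) - (v l : ℤ) : ℤ) : ℝ) * (n : ℝ)) := by
      intro n _
      have e2 : ((‖A n‖ : ℂ)) ^ 2 = A n * (starRingEnd ℂ) (A n) := by
        rw [Complex.mul_conj, Complex.normSq_eq_norm_sq]
        push_cast
        rfl
      rw [e2, hA]
      simp only [map_sum, conj_eR]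
      rw [sum_mul_sum]
      apply sum_congr rfl
      intro k _
      apply sum_congr rfl
      intro l _
      rw [← eR_add]
      congr 1
      push_cast
      ring
    rw [sum_congr rfl e1, sum_comm]
    apply sum_congr rfl
    intro k _
    rw [sum_comm]
    push_cast
    rfl
  have h4 : ∑ n ∈ range X1, ‖A n‖ ^ 2
      ≤ ∑ k ∈ V, ∑ l ∈ V, ‖∑ n ∈ range X1, eR (γ * (((v k : ℤ) - (v l : ℤ) : ℤ) : ℝ) * (n : ℝ))‖ := by
    have e0 : 0 ≤ ∑ n ∈ range X1, ‖A n‖ ^ 2 := sum_nonneg (fun _ _ => by positivity)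
    have e1 : ∑ n ∈ range X1, ‖A n‖ ^ 2 = ‖((∑ n ∈ range X1, ‖A n‖ ^ 2 : ℝ) : ℂ)‖ := by
      rw [Complex.norm_real, Real.norm_eq_abs, abs_of_nonneg e0]
    rw [e1, h3]
    refine (norm_sum_le _ _).trans ?_
    apply sum_le_sum
    intro k _
    exact norm_sum_le _ _
  have h5 : ∀ k ∈ V, ∑ l ∈ V, ‖∑ n ∈ range X1, eR (γ * (((v k : ℤ) - (v l : ℤ) : ℤ) : ℝ) * (n : ℝ))‖
      ≤ ∑ r ∈ Ioo (-(X2 : ℤ)) (X2 : ℤ), ‖∑ n ∈ range X1, eR (γ * (r : ℝ) * (n : ℝ))‖ := by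
    intro k hk
    classical
    rw [← sum_image (f := fun r : ℤ => ‖∑ n ∈ range X1, eR (γ * (r : ℝ) * (n : ℝ))‖) (s := V)
      (g := fun l => (v k : ℤ) - (v l : ℤ))
      (fun i hi j hj h => by
        simp only at h
        apply hv hi hj
        omega)]
    apply sum_le_sum_of_subset_of_nonneg
    · intro r hr
      rw [mem_image] at hr
      obtain ⟨l, hl, rfl⟩ := hr
      have := hv1 k hk
      have := hv1 l hl
      rw [mem_Ioo]
      omega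
    · intro r _ _
      exact norm_nonneg _
  have h6 : ∑ n ∈ range X1, ‖A n‖ ^ 2 ≤ (V.card : ℝ) * ∑ r ∈ Ioo (-(X2 : ℤ)) (X2 : ℤ),
        ‖∑ n ∈ range X1, eR (γ * (r : ℝ) * (n : ℝ))‖ := by
    refine h4.trans ((sum_le_sum h5).trans ?_)
    rw [sum_const, nsmul_eq_mul]
  calc ‖∑ i ∈ U, ∑ k ∈ V, eR (γ * ((u i : ℝ) * (v k : ℝ)))‖ ^ 2
      = ‖∑ i ∈ U, A (u i)‖ ^ 2 := rfl
    _ ≤ (U.card : ℝ) * ∑ i ∈ U, ‖A (u i)‖ ^ 2 := h1
    _ ≤ (U.card : ℝ) * ((V.card : ℝ) * ∑ r ∈ Ioo (-(X2 : ℤ)) (X2 : ℤ),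
        ‖∑ n ∈ range X1, eR (γ * (r : ℝ) * (n : ℝ))‖) :=
      mul_le_mul_of_nonneg_left (h2.trans h6) (Nat.cast_nonneg _)
    _ = _ := by ring

/-- The bilinear estimate with the min-sum lemma. -/
theorem bilin_min {ι κ : Type*} (γ θ : ℝ) (a : ℤ) (q : ℕ) (hq : 1 ≤ q)
    (hco : IsCoprime a (q : ℤ)) (hγ : γ = a / q + θ) (U : Finset ι) (V : Finset κ)
    (u : ι → ℕ) (v : κ → ℕ)
    (X1 X2 : ℕ) (hu : Set.InjOn u U) (hu1 : ∀ i ∈ U, u i < X1) (hv : Set.InjOn v V)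
    (hv1 : ∀ k ∈ V, v k < X2) (hθ : |θ| * q * X2 ≤ 1 / 4) :
    ‖∑ i ∈ U, ∑ k ∈ V, eR (γ * ((u i : ℝ) * (v k : ℝ)))‖ ^ 2
      ≤ (U.card : ℝ) * V.card *
        (X1 + 4 * (1 + Real.log X2) * (X1 * X2 / (q * (1 + |θ| * X1 * X2)))
          + 8 / 3 * (X2 + q) * (1 + Real.log q)) := by
  refine (bilin γ U V u v X1 X2 hu hu1 hv hv1).trans ?_
  apply mul_le_mul_of_nonneg_left _ (by positivity)
  exact min_sum γ θ X1 a q X2 hq hco hγ hθ (Nat.cast_nonneg _) _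
    (fun r => geom_le _ _) (fun r => geom_nd _ _)

end MinSum
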