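import Mathlib

/-!
MP_008adc_co: choice of the block lengths `k1`, `k2` (note 2926, B5 = (iv), B6 = (v)): pure real
arithmetic.
-/

namespace HadNT

open Real

/-- the bracket of the master inequality (all constants moved to the front) -/
noncomputable def brk (d k : ℕ) (X1 X2 q G Z : ℝ) : ℝ :=
  64 * 2 ^ (d * k) *
    (1 / X2 + (1 + Real.log X2) * G / Z + (1 + Real.log q) * (1 / X1 + q / (X1 * X2)))

/-- `a < 2 ^ a` type bounds: an exponential beats a linear function. -/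
lemma ch_exp (L : ℝ) (hL : 250 ≤ L) : 64 * (11 * L + 13) ≤ (2 : ℝ) ^ (0.42 * L) := by
  have h1 : 0.048 * L ≤ (2 : ℝ) ^ (0.07 * L) := by
    rw [Real.rpow_def_of_pos (by norm_num)]
    have h2 := Real.add_one_le_exp (Real.log 2 * (0.07 * L))
    have h3 := Real.log_two_gt_d9
    nlinarith
  have h4 : (2 : ℝ) ^ (0.42 * L) = ((2 : ℝ) ^ (0.07 * L)) ^ 6 := by
    rw [← Real.rpow_natCast, ← Real.rpow_mul (by norm_num)]
    congr 1
    push_cast
    ring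
  rw [h4]
  set s := (2 : ℝ) ^ (0.07 * L) with hs
  have h5 : 12 ≤ s := by linarith
  have h6 : (12 : ℝ) ^ 5 ≤ s ^ 5 := pow_le_pow_left₀ (by norm_num) h5 5
  have h7 : s ^ 6 = s ^ 5 * s := by ring
  rw [h7]
  have h8 : (12 : ℝ) ^ 5 * (0.048 * L) ≤ s ^ 5 * s :=
    mul_le_mul h6 h1 (by linarith) (by positivity)
  norm_num at h8
  linarith

lemma ch_exp2 (M : ℝ) (hM : 100000 ≤ M) : 64 * (3 * M + 4) ≤ (2 : ℝ) ^ (0.024 * M) := by
  have h1 : 0.0027 * M ≤ (2 : ℝ) ^ (0.004 * M) := by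
    rw [Real.rpow_def_of_pos (by norm_num)]
    have h2 := Real.add_one_le_exp (Real.log 2 * (0.004 * M))
    have h3 := Real.log_two_gt_d9
    nlinarith
  have h4 : (2 : ℝ) ^ (0.024 * M) = ((2 : ℝ) ^ (0.004 * M)) ^ 6 := by
    rw [← Real.rpow_natCast, ← Real.rpow_mul (by norm_num)]
    congr 1
    push_cast
    ring
  rw [h4]
  set s := (2 : ℝ) ^ (0.004 * M) with hs
  have h5 : 12 ≤ s := by linarith
  have h6 : (12 : ℝ) ^ 5 ≤ s ^ 5 := pow_le_pow_left₀ (by norm_num) h5 5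
  have h7 : s ^ 6 = s ^ 5 * s := by ring
  rw [h7]
  have h8 : (12 : ℝ) ^ 5 * (0.0027 * M) ≤ s ^ 5 * s :=
    mul_le_mul h6 h1 (by linarith) (by positivity)
  norm_num at h8
  linarith

/-- The least `k` with `A ≤ c * y ^ k`; then `c * y ^ k ≤ max c (A * y)`. -/
lemma ch_least (y : ℕ) (hy : 2 ≤ y) (c A : ℝ) (hc : 1 ≤ c) :
    ∃ k : ℕ, A ≤ c * (y : ℝ) ^ k ∧ (k = 0 ∨ c * (y : ℝ) ^ k ≤ A * y) := by
  have hyR : (1 : ℝ) < y := by exact_mod_cast (by omega : 1 < y)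
  have hex : ∃ k : ℕ, A ≤ c * (y : ℝ) ^ k := by
    obtain ⟨k, hk⟩ := pow_unbounded_of_one_lt A hyR
    refine ⟨k, hk.le.trans ?_⟩
    have : 0 ≤ (y : ℝ) ^ k := by positivity
    nlinarith
  classical
  refine ⟨Nat.find hex, Nat.find_spec hex, ?_⟩
  rcases Nat.eq_zero_or_pos (Nat.find hex) with h | h
  · left
    exact h
  · right
    have h1 := Nat.find_min hex (m := Nat.find hex - 1) (by omega)
    push Not at h1
    obtain ⟨m, hm⟩ : ∃ m, Nat.find hex = m + 1 := ⟨Nat.find hex - 1, by omega⟩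
    rw [hm] at h1 ⊢
    simp only [Nat.add_sub_cancel] at h1
    rw [pow_succ, ← mul_assoc]
    exact mul_le_mul_of_nonneg_right h1.le (by linarith)

/-- `d (k1 + k2)` against `log2` of the size. -/
lemma ch_dk (b d y k : ℕ) (hd : 1000 * (d + 1) ≤ b) (hy1 : 2 ^ (b - d) ≤ y) (E : ℝ)
    (hE : ((y : ℝ)) ^ k ≤ (2 : ℝ) ^ E) : (999 : ℝ) * ((d * k : ℕ) : ℝ) ≤ E := by
  have h1 : ((2 : ℝ) ^ (b - d)) ^ k ≤ (2 : ℝ) ^ E := by
    refine le_trans ?_ hE
    apply pow_le_pow_left₀ (by positivity)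
    exact_mod_cast hy1
  have h2 : ((2 : ℝ) ^ (b - d)) ^ k = (2 : ℝ) ^ (((((b - d) * k : ℕ)) : ℝ)) := by
    rw [Real.rpow_natCast, pow_mul]
  rw [h2, Real.rpow_le_rpow_left_iff (by norm_num)] at h1
  refine le_trans ?_ h1
  have h3 : 999 * (d * k) ≤ (b - d) * k := by
    have : 999 * d ≤ b - d := by omega
    calc 999 * (d * k) = (999 * d) * k := by ring
      _ ≤ (b - d) * k := Nat.mul_le_mul_right k this
  exact_mod_cast h3

/-- CASE (iv). -/
theorem choice_iv (b b0 d y K : ℕ) (q G Z : ℝ) (hb0 : b = 2 * b0) (hd : 1000 * (d + 1) ≤ b)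
    (hb : 2000 ≤ b) (hy1 : 2 ^ (b - d) ≤ y) (hy2 : y ≤ 2 ^ b) (hK : 100 ≤ K) (hq : 1 ≤ q)
    (hqZ : q ≤ Z) (hZ1 : (2 : ℝ) ^ (b / 8) ≤ Z) (hZ2 : Z ^ 5 ≤ 2 ^ b0 * (y : ℝ) ^ K)
    (hG0 : 0 ≤ G) (hG : G ^ 100 ≤ Z) :
    ∃ k1 k2 : ℕ, k1 + k2 ≤ K ∧ 4 * Z ≤ 2 ^ b0 * (y : ℝ) ^ k1 ∧ 4 * Z ≤ (y : ℝ) ^ k2 ∧
      0 ≤ brk d (k1 + k2) (2 ^ b0 * (y : ℝ) ^ k1) ((y : ℝ) ^ k2) q G Z ∧
      brk d (k1 + k2) (2 ^ b0 * (y : ℝ) ^ k1) ((y : ℝ) ^ k2) q G Z ≤ Z ^ (-(1 / 2) : ℝ) ∧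
      brk d (k1 + k2) (2 ^ b0 * (y : ℝ) ^ k1) ((y : ℝ) ^ k2) q G Z ^ 2 * Z ≤ 1 := by
  have hy16 : 16 ≤ y := by
    refine le_trans ?_ hy1
    calc 16 = 2 ^ 4 := by norm_num
      _ ≤ 2 ^ (b - d) := Nat.pow_le_pow_right (by norm_num) (by omega)
  have hyR : (16 : ℝ) ≤ y := by exact_mod_cast hy16
  have hy0 : (0 : ℝ) < y := by linarith
  have hZ0 : 1 ≤ Z := hq.trans hqZ
  have hZpos : 0 < Z := by linarith
  have h2b0 : (1 : ℝ) ≤ 2 ^ b0 := one_le_pow₀ (by norm_num)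
  have h2b0y : (2 : ℝ) ^ b0 ≤ y := by
    have : 2 ^ b0 ≤ y := (Nat.pow_le_pow_right (by norm_num) (by omega)).trans hy1
    exact_mod_cast this
  -- the logarithm
  set L : ℝ := Real.logb 2 Z with hL
  have hZL : Z = (2 : ℝ) ^ L := by
    rw [hL, Real.rpow_logb (by norm_num) (by norm_num) hZpos]
  have hLb : ((b / 8 : ℕ) : ℝ) ≤ L := by
    rw [hL, Real.le_logb_iff_rpow_le (by norm_num) hZpos, Real.rpow_natCast]
    exact hZ1
  have hL250 : 250 ≤ L := by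
    have : 250 ≤ b / 8 := by omega
    have : (250 : ℝ) ≤ ((b / 8 : ℕ) : ℝ) := by exact_mod_cast this
    linarith
  have hbL : (b : ℝ) ≤ 8 * L + 7 := by
    have : b ≤ 8 * (b / 8) + 7 := by omega
    have : (b : ℝ) ≤ 8 * ((b / 8 : ℕ) : ℝ) + 7 := by exact_mod_cast this
    linarith
  have hyb : (y : ℝ) ≤ (2 : ℝ) ^ (b : ℝ) := by
    rw [Real.rpow_natCast]
    exact_mod_cast hy2
  -- the choice
  obtain ⟨k1, hk1, hk1'⟩ := ch_least y (by omega) (2 ^ b0) (4 * Z) h2b0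
  obtain ⟨k2, hk2, hk2'⟩ := ch_least y (by omega) 1 (4 * Z) le_rfl
  rw [one_mul] at hk2 hk2'
  have hX2u : (y : ℝ) ^ k2 ≤ 4 * Z * y := by
    rcases hk2' with h | h
    · rw [h, pow_zero]
      nlinarith
    · exact h
  have hk1u : (y : ℝ) ^ k1 ≤ 4 * Z * y := by
    rcases hk1' with h | h
    · rw [h, pow_zero]
      nlinarith
    · refine le_trans ?_ h
      have : 0 ≤ (y : ℝ) ^ k1 := by positivity
      nlinarith
  have hk12 : (y : ℝ) ^ (k1 + k2) ≤ 16 * Z ^ 2 * y ^ 2 := by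
    rw [pow_add]
    calc (y : ℝ) ^ k1 * (y : ℝ) ^ k2 ≤ (4 * Z * y) * (4 * Z * y) :=
          mul_le_mul hk1u hX2u (by positivity) (by positivity)
      _ = _ := by ring
  have hkK : k1 + k2 ≤ K := by
    have h1 : (16 * Z ^ 2 * (y : ℝ) ^ 2) ^ 5 ≤ ((y : ℝ) ^ K) ^ 5 := by
      have e1 : (16 * Z ^ 2 * (y : ℝ) ^ 2) ^ 5 = 16 ^ 5 * (Z ^ 5) ^ 2 * (y : ℝ) ^ 10 := by ring
      rw [e1]
      have e2 : (16 : ℝ) ^ 5 ≤ (y : ℝ) ^ 5 := pow_le_pow_left₀ (by norm_num) hyR 5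
      have e3 : (Z ^ 5) ^ 2 ≤ ((y : ℝ) * (y : ℝ) ^ K) ^ 2 := by
        apply pow_le_pow_left₀ (by positivity)
        refine hZ2.trans ?_
        exact mul_le_mul_of_nonneg_right h2b0y (by positivity)
      calc 16 ^ 5 * (Z ^ 5) ^ 2 * (y : ℝ) ^ 10
          ≤ (y : ℝ) ^ 5 * ((y : ℝ) * (y : ℝ) ^ K) ^ 2 * (y : ℝ) ^ 10 := by
            apply mul_le_mul_of_nonneg_right _ (by positivity)
            exact mul_le_mul e2 e3 (by positivity) (by positivity)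
        _ = (y : ℝ) ^ (2 * K + 17) := by ring
        _ ≤ (y : ℝ) ^ (K * 5) := by
            apply pow_le_pow_right₀ (by linarith)
            omega
        _ = _ := by rw [pow_mul]
    have h2 : 16 * Z ^ 2 * (y : ℝ) ^ 2 ≤ (y : ℝ) ^ K :=
      le_of_pow_le_pow_left₀ (by norm_num) (by positivity) h1
    have h3 : (y : ℝ) ^ (k1 + k2) ≤ (y : ℝ) ^ K := hk12.trans h2
    exact (pow_le_pow_iff_right₀ (by linarith : (1 : ℝ) < y)).1 h3
  -- 2 ^ (d k)
  have hdk : ((d * (k1 + k2) : ℕ) : ℝ) ≤ 0.02 * L := by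
    have h1 := ch_dk b d y (k1 + k2) hd hy1 (4 + 2 * L + 2 * b) (by
      refine hk12.trans ?_
      rw [Real.rpow_add (by norm_num), Real.rpow_add (by norm_num)]
      have e1 : (2 : ℝ) ^ (4 : ℝ) = 16 := by
        rw [show (4 : ℝ) = ((4 : ℕ) : ℝ) by norm_num, Real.rpow_natCast]
        norm_num
      have e2 : (2 : ℝ) ^ (2 * L) = Z ^ 2 := by
        rw [hZL, ← Real.rpow_natCast, ← Real.rpow_mul (by norm_num)]
        congr 1
        push_cast
        ring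
      have e3 : (2 : ℝ) ^ (2 * (b : ℝ)) = ((2 : ℝ) ^ (b : ℝ)) ^ 2 := by
        rw [← Real.rpow_natCast, ← Real.rpow_mul (by norm_num)]
        congr 1
        push_cast
        ring
      rw [e1, e2, e3]
      apply mul_le_mul_of_nonneg_left _ (by positivity)
      exact pow_le_pow_left₀ hy0.le hyb 2)
    linarith
  have h2dk : (2 : ℝ) ^ (d * (k1 + k2)) ≤ (2 : ℝ) ^ (0.02 * L) := by
    rw [← Real.rpow_natCast]
    exact Real.rpow_le_rpow_of_exponent_le (by norm_num) hdk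
  -- G
  have hGL : G ≤ (2 : ℝ) ^ (0.01 * L) := by
    have e1 : ((2 : ℝ) ^ (0.01 * L)) ^ 100 = Z := by
      rw [hZL, ← Real.rpow_natCast, ← Real.rpow_mul (by norm_num)]
      congr 1
      push_cast
      ring
    apply le_of_pow_le_pow_left₀ (n := 100) (by norm_num) (by positivity)
    rw [e1]
    exact hG
  -- logs
  have hlog2 : Real.log 2 ≤ 1 := by
    have := Real.log_two_lt_d9
    linarith
  have hlog2' : 0 < Real.log 2 := Real.log_pos (by norm_num)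
  have hlogZ : Real.log Z ≤ L := by
    rw [hZL, Real.log_rpow (by norm_num)]
    nlinarith
  have hlogq : Real.log q ≤ L := (Real.log_le_log (by linarith) hqZ).trans hlogZ
  have hlogq0 : 0 ≤ Real.log q := Real.log_nonneg hq
  have hX1pos : 0 < 2 ^ b0 * (y : ℝ) ^ k1 := by positivity
  have hX2pos : 0 < (y : ℝ) ^ k2 := by positivity
  have hlogX2 : Real.log ((y : ℝ) ^ k2) ≤ 9 * L + 9 := by
    have e1 : (y : ℝ) ^ k2 ≤ (2 : ℝ) ^ (2 + L + b) := by
      refine hX2u.trans ?_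
      rw [Real.rpow_add (by norm_num), Real.rpow_add (by norm_num), ← hZL]
      have e2 : (2 : ℝ) ^ (2 : ℝ) = 4 := by
        rw [show (2 : ℝ) ^ (2 : ℝ) = (2 : ℝ) ^ ((2 : ℕ) : ℝ) by norm_num, Real.rpow_natCast]
        norm_num
      rw [e2]
      exact mul_le_mul_of_nonneg_left hyb (by positivity)
    have e3 := Real.log_le_log hX2pos e1
    rw [Real.log_rpow (by norm_num)] at e3
    have e4 : (2 + L + b) * Real.log 2 ≤ (2 + L + b) * 1 := by
      apply mul_le_mul_of_nonneg_left hlog2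
      positivity
    linarith
  have hlogX20 : 0 ≤ Real.log ((y : ℝ) ^ k2) := by
    apply Real.log_nonneg
    linarith
  -- the terms
  set X1 : ℝ := 2 ^ b0 * (y : ℝ) ^ k1 with hX1
  set X2 : ℝ := (y : ℝ) ^ k2 with hX2
  set g : ℝ := (2 : ℝ) ^ (0.01 * L) with hg
  have hg1 : 1 ≤ g := by
    rw [hg]
    apply Real.one_le_rpow (by norm_num)
    positivity
  have t1 : 1 / X2 ≤ 1 / Z * g := by
    have : 1 / X2 ≤ 1 / Z := one_div_le_one_div_of_le hZpos (by linarith)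
    have h0 : 0 ≤ 1 / Z := by positivity
    nlinarith
  have t2 : (1 + Real.log X2) * G / Z ≤ (9 * L + 10) * (1 / Z * g) := by
    have e1 : (1 + Real.log X2) * G ≤ (9 * L + 10) * g :=
      mul_le_mul (by linarith) hGL hG0 (by linarith)
    calc (1 + Real.log X2) * G / Z ≤ (9 * L + 10) * g / Z :=
          div_le_div_of_nonneg_right e1 hZpos.le
      _ = _ := by ring
  have t3 : 1 / X1 ≤ 1 / Z * g := by
    have : 1 / X1 ≤ 1 / Z := one_div_le_one_div_of_le hZpos (by linarith)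
    have h0 : 0 ≤ 1 / Z := by positivity
    nlinarith
  have t4 : q / (X1 * X2) ≤ 1 / Z * g := by
    have e1 : Z * Z ≤ X1 * X2 := mul_le_mul (by linarith) (by linarith) hZpos.le hX1pos.le
    have e2 : q / (X1 * X2) ≤ Z / (Z * Z) := div_le_div₀ hZpos.le hqZ (by positivity) e1
    have e3 : Z / (Z * Z) = 1 / Z := by field_simp
    have h0 : 0 ≤ 1 / Z := by positivity
    nlinarith
  have t5 : (1 + Real.log q) * (1 / X1 + q / (X1 * X2)) ≤ (1 + L) * (2 * (1 / Z * g)) := by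
    apply mul_le_mul (by linarith) (by linarith) _ (by linarith)
    positivity
  have tsum : 1 / X2 + (1 + Real.log X2) * G / Z + (1 + Real.log q) * (1 / X1 + q / (X1 * X2))
      ≤ (11 * L + 13) * (1 / Z * g) := by
    have h0 : 0 ≤ 1 / Z * g := by positivity
    nlinarith
  have tpos : 0 ≤ 1 / X2 + (1 + Real.log X2) * G / Z
      + (1 + Real.log q) * (1 / X1 + q / (X1 * X2)) := by
    have e1 : 0 ≤ (1 + Real.log X2) * G / Z := by
      apply div_nonneg _ hZpos.le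
      exact mul_nonneg (by linarith) hG0
    have e2 : 0 ≤ (1 + Real.log q) * (1 / X1 + q / (X1 * X2)) := by
      apply mul_nonneg (by linarith)
      positivity
    positivity
  have hnn : 0 ≤ brk d (k1 + k2) X1 X2 q G Z := by
    unfold brk
    positivity
  have hfin : brk d (k1 + k2) X1 X2 q G Z ≤ Z ^ (-(1 / 2) : ℝ) := by
    unfold brk
    have e1 : 64 * (2 : ℝ) ^ (d * (k1 + k2)) * (1 / X2 + (1 + Real.log X2) * G / Z
        + (1 + Real.log q) * (1 / X1 + q / (X1 * X2)))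
        ≤ 64 * (2 : ℝ) ^ (0.02 * L) * ((11 * L + 13) * (1 / Z * g)) := by
      apply mul_le_mul _ tsum tpos (by positivity)
      exact mul_le_mul_of_nonneg_left h2dk (by norm_num)
    refine e1.trans ?_
    have e2 := ch_exp L hL250
    have e3 : Z ^ (-(1 / 2) : ℝ) = (2 : ℝ) ^ (-(L / 2)) := by
      rw [hZL, ← Real.rpow_mul (by norm_num)]
      congr 1
      ring
    have e4 : 1 / Z = (2 : ℝ) ^ (-L) := by
      rw [Real.rpow_neg (by norm_num), ← hZL, one_div]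
    rw [e3, e4, hg]
    calc 64 * (2 : ℝ) ^ (0.02 * L) * ((11 * L + 13) * ((2 : ℝ) ^ (-L) * (2 : ℝ) ^ (0.01 * L)))
        = (64 * (11 * L + 13)) * ((2 : ℝ) ^ (0.02 * L) * (2 : ℝ) ^ (-L) * (2 : ℝ) ^ (0.01 * L)) := by
          ring
      _ = (64 * (11 * L + 13)) * (2 : ℝ) ^ (0.02 * L + -L + 0.01 * L) := by
          rw [← Real.rpow_add (by norm_num), ← Real.rpow_add (by norm_num)]
      _ ≤ (2 : ℝ) ^ (0.42 * L) * (2 : ℝ) ^ (0.02 * L + -L + 0.01 * L) := by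
          apply mul_le_mul_of_nonneg_right e2 (by positivity)
      _ = (2 : ℝ) ^ (0.42 * L + (0.02 * L + -L + 0.01 * L)) := by
          rw [← Real.rpow_add (by norm_num)]
      _ ≤ (2 : ℝ) ^ (-(L / 2)) := by
          apply Real.rpow_le_rpow_of_exponent_le (by norm_num)
          linarith
  refine ⟨k1, k2, hkK, hk1, hk2, hnn, hfin, ?_⟩
  have e1 : brk d (k1 + k2) X1 X2 q G Z ^ 2 ≤ (Z ^ (-(1 / 2) : ℝ)) ^ 2 :=
    pow_le_pow_left₀ hnn hfin 2
  have e2 : (Z ^ (-(1 / 2) : ℝ)) ^ 2 = Z⁻¹ := by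
    rw [← Real.rpow_natCast, ← Real.rpow_mul hZpos.le]
    rw [show (-(1 / 2) : ℝ) * ((2 : ℕ) : ℝ) = -1 by norm_num]
    rw [Real.rpow_neg_one]
  rw [e2] at e1
  calc brk d (k1 + k2) X1 X2 q G Z ^ 2 * Z ≤ Z⁻¹ * Z := mul_le_mul_of_nonneg_right e1 hZpos.le
    _ = 1 := inv_mul_cancel₀ hZpos.ne'

/-- CASE (v): `N = 2 ^ b0 * y ^ K`, `B` is an upper bound for `q |β| N`. -/
theorem choice_v (b b0 d y K : ℕ) (q G Z N B : ℝ) (hb0 : b = 2 * b0) (hd : 1000 * (d + 1) ≤ b)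
    (hb : 2000 ≤ b) (hy1 : 2 ^ (b - d) ≤ y) (hy2 : y ≤ 2 ^ b) (hK : 100 ≤ K) (hq : 1 ≤ q)
    (hN : N = 2 ^ b0 * (y : ℝ) ^ K) (hqN : q ^ 5 ≤ N ^ 3) (hB0 : 0 ≤ B) (hB : B ^ 5 ≤ N ^ 2)
    (hZ0 : 0 < Z) (hZ : N ≤ Z ^ 5)
    (hG0 : 0 ≤ G) (hG : G ^ 100 ≤ q) :
    ∃ k1 k2 : ℕ, k1 + k2 ≤ K ∧ 4 * B ≤ 2 ^ b0 * (y : ℝ) ^ k1 ∧
      0 ≤ brk d (k1 + k2) (2 ^ b0 * (y : ℝ) ^ k1) ((y : ℝ) ^ k2) q G Z ∧
      brk d (k1 + k2) (2 ^ b0 * (y : ℝ) ^ k1) ((y : ℝ) ^ k2) q G Z ≤ N ^ (-(1 / 6) : ℝ) ∧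
      brk d (k1 + k2) (2 ^ b0 * (y : ℝ) ^ k1) ((y : ℝ) ^ k2) q G Z ^ 6 * N ≤ 1 := by
  have hy16 : 16 ≤ y := by
    refine le_trans ?_ hy1
    calc 16 = 2 ^ 4 := by norm_num
      _ ≤ 2 ^ (b - d) := Nat.pow_le_pow_right (by norm_num) (by omega)
  have hyR : (16 : ℝ) ≤ y := by exact_mod_cast hy16
  have hy0 : (0 : ℝ) < y := by linarith
  have h2b0 : (1 : ℝ) ≤ 2 ^ b0 := one_le_pow₀ (by norm_num)
  have h2b0y : (2 : ℝ) ^ b0 ≤ y := by
    have : 2 ^ b0 ≤ y := (Nat.pow_le_pow_right (by norm_num) (by omega)).trans hy1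
    exact_mod_cast this
  have hyK1 : (1 : ℝ) ≤ (y : ℝ) ^ K := one_le_pow₀ (by linarith)
  have hN1 : 1 ≤ N := by
    rw [hN]
    nlinarith
  have hNpos : 0 < N := by linarith
  -- the logarithm
  set M : ℝ := Real.logb 2 N with hM
  have hNM : N = (2 : ℝ) ^ M := by
    rw [hM, Real.rpow_logb (by norm_num) (by norm_num) hNpos]
  have hyb : (y : ℝ) ≤ (2 : ℝ) ^ (b : ℝ) := by
    rw [Real.rpow_natCast]
    exact_mod_cast hy2
  have hMb : 99 * (b : ℝ) ≤ M := by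
    have e1 : ((2 : ℝ) ^ (b - d)) ^ 100 ≤ N := by
      have e2 : ((2 : ℝ) ^ (b - d)) ^ 100 ≤ (y : ℝ) ^ 100 := by
        apply pow_le_pow_left₀ (by positivity)
        exact_mod_cast hy1
      have e3 : (y : ℝ) ^ 100 ≤ (y : ℝ) ^ K := pow_le_pow_right₀ (by linarith) hK
      rw [hN]
      nlinarith
    have e4 : (((b - d) * 100 : ℕ) : ℝ) ≤ M := by
      rw [hM, Real.le_logb_iff_rpow_le (by norm_num) hNpos, Real.rpow_natCast, pow_mul]
      exact e1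
    have e5 : 99 * b ≤ (b - d) * 100 := by omega
    have e6 : ((99 * b : ℕ) : ℝ) ≤ (((b - d) * 100 : ℕ) : ℝ) := by exact_mod_cast e5
    push_cast at e6 e4
    linarith
  have hbR : (2000 : ℝ) ≤ b := by exact_mod_cast hb
  have hM1 : 100000 ≤ M := by linarith
  -- powers
  have hpow : ∀ (c : ℝ) (n : ℕ), ((2 : ℝ) ^ (c * M)) ^ n = (2 : ℝ) ^ (c * n * M) := by
    intro c n
    rw [← Real.rpow_natCast, ← Real.rpow_mul (by norm_num)]
    congr 1
    ring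
  have hqM : q ≤ (2 : ℝ) ^ (0.6 * M) := by
    apply le_of_pow_le_pow_left₀ (n := 5) (by norm_num) (by positivity)
    rw [hpow]
    refine hqN.trans (le_of_eq ?_)
    rw [hNM, ← Real.rpow_natCast, ← Real.rpow_mul (by norm_num)]
    congr 1
    push_cast
    ring
  have hBM : B ≤ (2 : ℝ) ^ (0.4 * M) := by
    apply le_of_pow_le_pow_left₀ (n := 5) (by norm_num) (by positivity)
    rw [hpow]
    refine hB.trans (le_of_eq ?_)
    rw [hNM, ← Real.rpow_natCast, ← Real.rpow_mul (by norm_num)]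
    congr 1
    push_cast
    ring
  have hZM : (2 : ℝ) ^ (0.2 * M) ≤ Z := by
    apply le_of_pow_le_pow_left₀ (n := 5) (by norm_num) hZ0.le
    rw [hpow]
    refine le_trans (le_of_eq ?_) hZ
    rw [hNM]
    congr 1
    push_cast
    ring
  have hGM : G ≤ (2 : ℝ) ^ (0.006 * M) := by
    apply le_of_pow_le_pow_left₀ (n := 100) (by norm_num) (by positivity)
    rw [hpow]
    refine (hG.trans hqM).trans (le_of_eq ?_)
    congr 1
    push_cast
    ring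
  -- the choice
  obtain ⟨k1, hk1, hk1'⟩ := ch_least y (by omega) (2 ^ b0) ((2 : ℝ) ^ (0.42 * M)) h2b0
  obtain ⟨k2, hk2, hk2'⟩ := ch_least y (by omega) 1 ((2 : ℝ) ^ (0.4 * M)) le_rfl
  rw [one_mul] at hk2 hk2'
  have h42 : (1 : ℝ) ≤ (2 : ℝ) ^ (0.42 * M) := Real.one_le_rpow (by norm_num) (by linarith)
  have h40 : (1 : ℝ) ≤ (2 : ℝ) ^ (0.4 * M) := Real.one_le_rpow (by norm_num) (by linarith)
  have hX2u : (y : ℝ) ^ k2 ≤ (2 : ℝ) ^ (0.4 * M) * y := by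
    rcases hk2' with h | h
    · rw [h, pow_zero]
      nlinarith
    · exact h
  have hk1u : 2 ^ b0 * (y : ℝ) ^ k1 ≤ (2 : ℝ) ^ (0.42 * M) * y := by
    rcases hk1' with h | h
    · rw [h, pow_zero]
      nlinarith
    · exact h
  have hybM : (y : ℝ) * y ≤ (2 : ℝ) ^ (2 * (b : ℝ)) := by
    have e3 : (2 : ℝ) ^ (2 * (b : ℝ)) = ((2 : ℝ) ^ (b : ℝ)) ^ 2 := by
      rw [← Real.rpow_natCast, ← Real.rpow_mul (by norm_num)]
      congr 1
      push_cast
      ring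
    rw [e3, sq]
    exact mul_le_mul hyb hyb hy0.le (by positivity)
  have hprod : (2 ^ b0 * (y : ℝ) ^ k1) * (y : ℝ) ^ k2 ≤ (2 : ℝ) ^ (0.82 * M + 2 * b) := by
    calc (2 ^ b0 * (y : ℝ) ^ k1) * (y : ℝ) ^ k2
        ≤ ((2 : ℝ) ^ (0.42 * M) * y) * ((2 : ℝ) ^ (0.4 * M) * y) :=
          mul_le_mul hk1u hX2u (by positivity) (by positivity)
      _ = ((2 : ℝ) ^ (0.42 * M) * (2 : ℝ) ^ (0.4 * M)) * (y * y) := by ring
      _ ≤ ((2 : ℝ) ^ (0.42 * M) * (2 : ℝ) ^ (0.4 * M)) * (2 : ℝ) ^ (2 * (b : ℝ)) :=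
          mul_le_mul_of_nonneg_left hybM (by positivity)
      _ = _ := by
          rw [← Real.rpow_add (by norm_num), ← Real.rpow_add (by norm_num)]
          congr 1
          ring
  have hk12 : (y : ℝ) ^ (k1 + k2) ≤ (2 : ℝ) ^ (0.82 * M + 2 * b) := by
    refine le_trans ?_ hprod
    rw [pow_add]
    have : 0 ≤ (y : ℝ) ^ k1 * (y : ℝ) ^ k2 := by positivity
    nlinarith
  have hkK : k1 + k2 ≤ K := by
    have h1 : 2 ^ b0 * (y : ℝ) ^ (k1 + k2) ≤ 2 ^ b0 * (y : ℝ) ^ K := by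
      have e1 : 2 ^ b0 * (y : ℝ) ^ (k1 + k2) = (2 ^ b0 * (y : ℝ) ^ k1) * (y : ℝ) ^ k2 := by
        rw [pow_add]
        ring
      rw [e1, ← hN, hNM]
      refine hprod.trans ?_
      apply Real.rpow_le_rpow_of_exponent_le (by norm_num)
      linarith
    have h3 : (y : ℝ) ^ (k1 + k2) ≤ (y : ℝ) ^ K := le_of_mul_le_mul_left h1 (by positivity)
    exact (pow_le_pow_iff_right₀ (by linarith : (1 : ℝ) < y)).1 h3
  -- 2 ^ (d k)
  have hdk : ((d * (k1 + k2) : ℕ) : ℝ) ≤ 0.001 * M := by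
    have h1 := ch_dk b d y (k1 + k2) hd hy1 _ hk12
    linarith
  have h2dk : (2 : ℝ) ^ (d * (k1 + k2)) ≤ (2 : ℝ) ^ (0.001 * M) := by
    rw [← Real.rpow_natCast]
    exact Real.rpow_le_rpow_of_exponent_le (by norm_num) hdk
  -- logs
  have hlog2 : Real.log 2 ≤ 1 := by
    have := Real.log_two_lt_d9
    linarith
  have hlog2' : 0 < Real.log 2 := Real.log_pos (by norm_num)
  have hlogq : Real.log q ≤ M := by
    have e1 := Real.log_le_log (by linarith) hqM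
    rw [Real.log_rpow (by norm_num)] at e1
    nlinarith
  have hlogq0 : 0 ≤ Real.log q := Real.log_nonneg hq
  have hX1pos : 0 < 2 ^ b0 * (y : ℝ) ^ k1 := by positivity
  have hX2pos : 0 < (y : ℝ) ^ k2 := by positivity
  have hlogX2 : Real.log ((y : ℝ) ^ k2) ≤ M := by
    have e1 : (y : ℝ) ^ k2 ≤ (2 : ℝ) ^ (0.4 * M + b) := by
      refine hX2u.trans ?_
      rw [Real.rpow_add (by norm_num)]
      exact mul_le_mul_of_nonneg_left hyb (by positivity)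
    have e3 := Real.log_le_log hX2pos e1
    rw [Real.log_rpow (by norm_num)] at e3
    have e4 : (0.4 * M + b) * Real.log 2 ≤ (0.4 * M + b) * 1 := by
      apply mul_le_mul_of_nonneg_left hlog2
      positivity
    linarith
  have hlogX20 : 0 ≤ Real.log ((y : ℝ) ^ k2) := by
    apply Real.log_nonneg
    linarith
  -- the terms
  set X1 : ℝ := 2 ^ b0 * (y : ℝ) ^ k1 with hX1
  set X2 : ℝ := (y : ℝ) ^ k2 with hX2
  set g : ℝ := (2 : ℝ) ^ (-0.194 * M) with hg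
  have hg0 : 0 < g := by positivity
  have hle : ∀ c : ℝ, c ≤ -0.194 → (2 : ℝ) ^ (c * M) ≤ g := by
    intro c hc
    rw [hg]
    apply Real.rpow_le_rpow_of_exponent_le (by norm_num)
    nlinarith
  have t1 : 1 / X2 ≤ g := by
    have e1 : 1 / X2 ≤ 1 / (2 : ℝ) ^ (0.4 * M) := one_div_le_one_div_of_le (by positivity) hk2
    have e2 : 1 / (2 : ℝ) ^ (0.4 * M) = (2 : ℝ) ^ (-0.4 * M) := by
      rw [one_div, ← Real.rpow_neg (by norm_num)]
      congr 1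
      ring
    rw [e2] at e1
    exact e1.trans (hle _ (by norm_num))
  have t2 : (1 + Real.log X2) * G / Z ≤ (1 + M) * g := by
    have e1 : (1 + Real.log X2) * G ≤ (1 + M) * (2 : ℝ) ^ (0.006 * M) :=
      mul_le_mul (by linarith) hGM hG0 (by linarith)
    calc (1 + Real.log X2) * G / Z ≤ ((1 + M) * (2 : ℝ) ^ (0.006 * M)) / (2 : ℝ) ^ (0.2 * M) :=
          div_le_div₀ (by positivity) e1 (by positivity) hZM
      _ = (1 + M) * ((2 : ℝ) ^ (0.006 * M) / (2 : ℝ) ^ (0.2 * M)) := by ring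
      _ = (1 + M) * g := by
          rw [← Real.rpow_sub (by norm_num), hg]
          congr 2
          ring
  have t3 : 1 / X1 ≤ g := by
    have e1 : 1 / X1 ≤ 1 / (2 : ℝ) ^ (0.42 * M) := one_div_le_one_div_of_le (by positivity) hk1
    have e2 : 1 / (2 : ℝ) ^ (0.42 * M) = (2 : ℝ) ^ (-0.42 * M) := by
      rw [one_div, ← Real.rpow_neg (by norm_num)]
      congr 1
      ring
    rw [e2] at e1
    exact e1.trans (hle _ (by norm_num))
  have t4 : q / (X1 * X2) ≤ g := by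
    have e1 : (2 : ℝ) ^ (0.42 * M) * (2 : ℝ) ^ (0.4 * M) ≤ X1 * X2 :=
      mul_le_mul hk1 hk2 (by positivity) hX1pos.le
    have e2 : q / (X1 * X2) ≤ (2 : ℝ) ^ (0.6 * M) / ((2 : ℝ) ^ (0.42 * M) * (2 : ℝ) ^ (0.4 * M)) :=
      div_le_div₀ (by positivity) hqM (by positivity) e1
    have e3 : (2 : ℝ) ^ (0.6 * M) / ((2 : ℝ) ^ (0.42 * M) * (2 : ℝ) ^ (0.4 * M))
        = (2 : ℝ) ^ (-0.22 * M) := by
      rw [← Real.rpow_add (by norm_num), ← Real.rpow_sub (by norm_num)]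
      congr 1
      ring
    rw [e3] at e2
    exact e2.trans (hle _ (by norm_num))
  have t5 : (1 + Real.log q) * (1 / X1 + q / (X1 * X2)) ≤ (1 + M) * (2 * g) := by
    apply mul_le_mul (by linarith) (by linarith) _ (by linarith)
    positivity
  have tsum : 1 / X2 + (1 + Real.log X2) * G / Z + (1 + Real.log q) * (1 / X1 + q / (X1 * X2))
      ≤ (3 * M + 4) * g := by
    nlinarith
  have tpos : 0 ≤ 1 / X2 + (1 + Real.log X2) * G / Z
      + (1 + Real.log q) * (1 / X1 + q / (X1 * X2)) := by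
    have e1 : 0 ≤ (1 + Real.log X2) * G / Z := by
      apply div_nonneg _ hZ0.le
      exact mul_nonneg (by linarith) hG0
    have e2 : 0 ≤ (1 + Real.log q) * (1 / X1 + q / (X1 * X2)) := by
      apply mul_nonneg (by linarith)
      positivity
    positivity
  have hnn : 0 ≤ brk d (k1 + k2) X1 X2 q G Z := by
    unfold brk
    positivity
  have hfin : brk d (k1 + k2) X1 X2 q G Z ≤ N ^ (-(1 / 6) : ℝ) := by
    unfold brk
    have e1 : 64 * (2 : ℝ) ^ (d * (k1 + k2)) * (1 / X2 + (1 + Real.log X2) * G / Z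
        + (1 + Real.log q) * (1 / X1 + q / (X1 * X2)))
        ≤ 64 * (2 : ℝ) ^ (0.001 * M) * ((3 * M + 4) * g) := by
      apply mul_le_mul _ tsum tpos (by positivity)
      exact mul_le_mul_of_nonneg_left h2dk (by norm_num)
    refine e1.trans ?_
    have e2 := ch_exp2 M hM1
    have e3 : N ^ (-(1 / 6) : ℝ) = (2 : ℝ) ^ (-(M / 6)) := by
      rw [hNM, ← Real.rpow_mul (by norm_num)]
      congr 1
      ring
    rw [e3, hg]
    calc 64 * (2 : ℝ) ^ (0.001 * M) * ((3 * M + 4) * (2 : ℝ) ^ (-0.194 * M))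
        = (64 * (3 * M + 4)) * ((2 : ℝ) ^ (0.001 * M) * (2 : ℝ) ^ (-0.194 * M)) := by
          ring
      _ = (64 * (3 * M + 4)) * (2 : ℝ) ^ (0.001 * M + -0.194 * M) := by
          rw [← Real.rpow_add (by norm_num)]
      _ ≤ (2 : ℝ) ^ (0.024 * M) * (2 : ℝ) ^ (0.001 * M + -0.194 * M) := by
          apply mul_le_mul_of_nonneg_right e2 (by positivity)
      _ = (2 : ℝ) ^ (0.024 * M + (0.001 * M + -0.194 * M)) := by
          rw [← Real.rpow_add (by norm_num)]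
      _ ≤ (2 : ℝ) ^ (-(M / 6)) := by
          apply Real.rpow_le_rpow_of_exponent_le (by norm_num)
          linarith
  refine ⟨k1, k2, hkK, ?_, hnn, hfin, ?_⟩
  · refine le_trans ?_ hk1
    have e1 : (2 : ℝ) ^ (0.42 * M) = (2 : ℝ) ^ (0.02 * M) * (2 : ℝ) ^ (0.4 * M) := by
      rw [← Real.rpow_add (by norm_num)]
      congr 1
      ring
    have e2 : (4 : ℝ) ≤ (2 : ℝ) ^ (0.02 * M) := by
      calc (4 : ℝ) = (2 : ℝ) ^ ((2 : ℕ) : ℝ) := by
            rw [Real.rpow_natCast]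
            norm_num
        _ ≤ (2 : ℝ) ^ (0.02 * M) := by
            apply Real.rpow_le_rpow_of_exponent_le (by norm_num)
            push_cast
            linarith
    rw [e1]
    exact mul_le_mul e2 hBM hB0 (by positivity)
  · have e1 : brk d (k1 + k2) X1 X2 q G Z ^ 6 ≤ (N ^ (-(1 / 6) : ℝ)) ^ 6 :=
      pow_le_pow_left₀ hnn hfin 6
    have e2 : (N ^ (-(1 / 6) : ℝ)) ^ 6 = N⁻¹ := by
      rw [← Real.rpow_natCast, ← Real.rpow_mul hNpos.le]
      rw [show (-(1 / 6) : ℝ) * ((6 : ℕ) : ℝ) = -1 by norm_num]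
      rw [Real.rpow_neg_one]
    rw [e2] at e1
    calc brk d (k1 + k2) X1 X2 q G Z ^ 6 * N ≤ N⁻¹ * N := mul_le_mul_of_nonneg_right e1 hNpos.le
      _ = 1 := inv_mul_cancel₀ hNpos.ne'

/-- the size of the gcd factor `G = 2 ^ ((d + 1) ν)` -/
lemma gcd_factor (c d ν : ℕ) (q : ℝ) (hc : 100 * (d + 1) ≤ c) (h : ((2 : ℝ) ^ c) ^ ν ≤ q) :
    ((2 : ℝ) ^ ((d + 1) * ν)) ^ 100 ≤ q := by
  refine le_trans ?_ h
  rw [← pow_mul, ← pow_mul]
  apply pow_le_pow_right₀ (by norm_num)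
  calc (d + 1) * ν * 100 = (100 * (d + 1)) * ν := by ring
    _ ≤ c * ν := Nat.mul_le_mul_right ν hc

end HadNT
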