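import Pool.Agent.Lib_MP_008adc_c2.Octo

/-!
# Piece B8: representations as a sum of `k` odd members of a family modulo a power of two
-/

set_option autoImplicit false

namespace HadB

open HadNT

/-- the element of order two in `ZMod (2 ^ R)` -/
def half (R : ℕ) : ZMod (2 ^ R) := ((2 ^ (R - 1) : ℕ) : ZMod (2 ^ R))

theorem half_mul_two (R : ℕ) (hR : 1 ≤ R) : half R * 2 = 0 := by
  have e2 : 2 ^ (R - 1) * 2 = 2 ^ R := by
    rw [← pow_succ]
    congr 1
    omega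
  have : ((2 ^ (R - 1) * 2 : ℕ) : ZMod (2 ^ R)) = 0 := by
    rw [e2]
    exact ZMod.natCast_self _
  rw [half]
  exact_mod_cast this

theorem half_ne_zero (R : ℕ) (hR : 1 ≤ R) : half R ≠ 0 := by
  intro h2
  have e2 : 2 ^ (R - 1) * 2 = 2 ^ R := by
    rw [← pow_succ]
    congr 1
    omega
  rw [half, ZMod.natCast_eq_zero_iff] at h2
  have h3 := Nat.le_of_dvd (by positivity) h2
  have h4 : 0 < 2 ^ (R - 1) := by positivity
  omega

theorem half_mul_even (R : ℕ) (hR : 1 ≤ R) (m : ℕ) (hm : m % 2 = 0) :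
    half R * (m : ZMod (2 ^ R)) = 0 := by
  obtain ⟨m', rfl⟩ : ∃ m', m = 2 * m' := ⟨m / 2, by omega⟩
  push_cast
  rw [← mul_assoc, half_mul_two R hR, zero_mul]

theorem half_mul_odd (R : ℕ) (hR : 1 ≤ R) (m : ℕ) (hm : m % 2 = 1) :
    half R * (m : ZMod (2 ^ R)) = half R := by
  have h3 : m = (m - 1) + 1 := by omega
  rw [h3, Nat.cast_add, mul_add, half_mul_even R hR (m - 1) (by omega)]
  simp

/-- PIECE B8. -/
theorem countK (R k : ℕ) (hR : 1 ≤ R) (hk : k % 2 = 0) {τ : Type} (T : Finset τ)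
    (hT : T.Nonempty) (g : τ → ℕ) (hodd : ∀ t ∈ T, g t % 2 = 1)
    (hlt : ∑ h ∈ (Finset.univ.erase (0 : ZMod (2 ^ R))).erase (half R),
      ‖Sg (2 ^ R) T (fun t => (g t : ZMod (2 ^ R))) h‖ ^ k < (T.card : ℝ) ^ k)
    (y : ℕ) (hy : y % 2 = 0) :
    ∃ t : Fin k → τ, (∀ j, t j ∈ T) ∧ (∑ j, g (t j)) ≡ y [MOD 2 ^ R] := by
  classical
  set G : τ → ZMod (2 ^ R) := fun t => (g t : ZMod (2 ^ R)) with hG
  set S : ZMod (2 ^ R) → ℂ := fun h => Sg (2 ^ R) T G h with hS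
  have hTc : (0 : ℝ) < (T.card : ℝ) ^ k := by
    have := Finset.card_pos.2 hT
    positivity
  by_contra hcon
  push Not at hcon
  -- the counting sum vanishes
  have hsum : ∑ h : ZMod (2 ^ R), S h ^ k * (ZMod.stdAddChar (-(h * (y : ZMod (2 ^ R)))) : ℂ) = 0 := by
    rw [rep_sum (2 ^ R) T G k (y : ZMod (2 ^ R))]
    refine Finset.sum_eq_zero fun p hp => ?_
    rw [if_neg]
    intro h2
    refine hcon p (fun j => Fintype.mem_piFinset.1 hp j) ?_
    rw [← ZMod.natCast_eq_natCast_iff]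
    push_cast
    exact sub_eq_zero.1 h2
  have hS0 : S 0 ^ k * (ZMod.stdAddChar (-((0 : ZMod (2 ^ R)) * (y : ZMod (2 ^ R)))) : ℂ) =
      (T.card : ℂ) ^ k := by
    simp [hS, Sg]
  have hS1 : S (half R) ^ k * (ZMod.stdAddChar (-(half R * (y : ZMod (2 ^ R)))) : ℂ) =
      (T.card : ℂ) ^ k := by
    have h2 : S (half R) = (T.card : ℂ) * (ZMod.stdAddChar (half R) : ℂ) := by
      show ∑ t ∈ T, (ZMod.stdAddChar (half R * G t) : ℂ) = _
      rw [Finset.sum_congr rfl (g := fun _ => (ZMod.stdAddChar (half R) : ℂ)), Finset.sum_const,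
        nsmul_eq_mul]
      intro t ht
      congr 1
      rw [hG]
      exact half_mul_odd R hR (g t) (hodd t ht)
    have h4 : (ZMod.stdAddChar (half R) : ℂ) ^ 2 = 1 := by
      rw [← AddChar.map_nsmul_eq_pow, nsmul_eq_mul, mul_comm]
      push_cast
      rw [half_mul_two R hR, AddChar.map_zero_eq_one]
    rw [h2, half_mul_even R hR y hy, neg_zero, AddChar.map_zero_eq_one, mul_one, mul_pow]
    have h5 : (ZMod.stdAddChar (half R) : ℂ) ^ k = 1 := by
      obtain ⟨k', rfl⟩ : ∃ k', k = 2 * k' := ⟨k / 2, by omega⟩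
      rw [pow_mul, h4, one_pow]
    rw [h5, mul_one]
  -- the other terms
  have hmem : half R ∈ Finset.univ.erase (0 : ZMod (2 ^ R)) :=
    Finset.mem_erase.2 ⟨half_ne_zero R hR, Finset.mem_univ _⟩
  rw [← Finset.add_sum_erase _ _ (Finset.mem_univ (0 : ZMod (2 ^ R))),
    ← Finset.add_sum_erase _ _ hmem, hS0, hS1] at hsum
  set A : Finset (ZMod (2 ^ R)) := (Finset.univ.erase (0 : ZMod (2 ^ R))).erase (half R) with hA
  have h6 : ‖∑ h ∈ A, S h ^ k * (ZMod.stdAddChar (-(h * (y : ZMod (2 ^ R)))) : ℂ)‖ ≤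
      ∑ h ∈ A, ‖S h‖ ^ k := by
    refine (norm_sum_le _ _).trans (Finset.sum_le_sum fun h _ => ?_)
    rw [norm_mul, norm_pow, ZMod.stdAddChar_apply, Circle.norm_coe, mul_one]
  have h7 : ∑ h ∈ A, S h ^ k * (ZMod.stdAddChar (-(h * (y : ZMod (2 ^ R)))) : ℂ) =
      -((T.card : ℂ) ^ k + (T.card : ℂ) ^ k) := by
    linear_combination hsum
  rw [h7, norm_neg] at h6
  have h8 : ‖(T.card : ℂ) ^ k + (T.card : ℂ) ^ k‖ = 2 * (T.card : ℝ) ^ k := by
    rw [← two_mul, norm_mul, norm_pow, Complex.norm_natCast]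
    norm_num
  rw [h8] at h6
  linarith

/-- the sum over the family is the usual real exponential sum at `h.val / M` -/
theorem Sg_eq_exp (M : ℕ) [NeZero M] {τ : Type} (T : Finset τ) (g : τ → ℕ) (h : ZMod M) :
    Sg M T (fun t => (g t : ZMod M)) h =
      ∑ t ∈ T, Complex.exp (2 * Real.pi * Complex.I *
        ((((h.val : ℝ) / (M : ℝ)) * (g t : ℝ) : ℝ) : ℂ)) := by
  unfold Sg
  refine Finset.sum_congr rfl fun t _ => ?_
  have h1 : h * (g t : ZMod M) = (((h.val * g t : ℕ) : ℤ) : ZMod M) := by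
    push_cast
    rw [ZMod.natCast_zmod_val]
  rw [h1, ZMod.stdAddChar_coe]
  congr 1
  push_cast
  ring

end HadB
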