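import Mathlib

/-! Dirichlet approximation with a reduced fraction in `[0,1]` (piece for note 2926). -/

namespace HadNT

theorem dir_approx (al : ℝ) (h0 : 0 ≤ al) (h1 : al < 1) (Q : ℕ) (hQ : 1 ≤ Q) :
    ∃ a q : ℕ, 1 ≤ q ∧ q ≤ Q ∧ Nat.Coprime a q ∧ a ≤ q ∧
      |al - (a : ℝ) / (q : ℝ)| * (q : ℝ) * (Q : ℝ) ≤ 1 := by
  obtain ⟨r, hr, hd⟩ := Real.exists_rat_abs_sub_le_and_den_le al (show 0 < Q from hQ)
  have hq1 : 1 ≤ r.den := r.den_pos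
  have hqR : (0 : ℝ) < (r.den : ℝ) := by exact_mod_cast r.den_pos
  have hQR : (1 : ℝ) ≤ (Q : ℝ) := by exact_mod_cast hQ
  have hrv : (r : ℝ) = (r.num : ℝ) / (r.den : ℝ) := Rat.cast_def r
  have hlt : |al - (r : ℝ)| * (r.den : ℝ) < 1 := by
    have h2 : (1 : ℝ) / (((Q : ℝ) + 1) * (r.den : ℝ)) * (r.den : ℝ) = 1 / ((Q : ℝ) + 1) := by
      field_simp
    have h3 : |al - (r : ℝ)| * (r.den : ℝ) ≤ 1 / ((Q : ℝ) + 1) := by
      rw [← h2]
      exact mul_le_mul_of_nonneg_right hr hqR.le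
    have h4 : (1 : ℝ) / ((Q : ℝ) + 1) < 1 := by
      rw [div_lt_one (by linarith)]
      linarith
    linarith
  have hnum : al * (r.den : ℝ) - (r.num : ℝ) = (al - (r : ℝ)) * (r.den : ℝ) := by
    rw [hrv]; field_simp
  have habs : |al * (r.den : ℝ) - (r.num : ℝ)| < 1 := by
    rw [hnum, abs_mul, abs_of_pos hqR]
    exact hlt
  have hab := abs_lt.mp habs
  have hn0 : 0 ≤ r.num := by
    by_contra hneg
    have h5 : r.num ≤ -1 := by omega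
    have h6 : (r.num : ℝ) ≤ -1 := by exact_mod_cast h5
    have h7 : 0 ≤ al * (r.den : ℝ) := mul_nonneg h0 hqR.le
    linarith [hab.2]
  have hn1 : r.num ≤ (r.den : ℤ) := by
    by_contra hneg
    have h5 : (r.den : ℤ) + 1 ≤ r.num := by omega
    have h6 : (r.den : ℝ) + 1 ≤ (r.num : ℝ) := by exact_mod_cast h5
    have h7 : al * (r.den : ℝ) ≤ 1 * (r.den : ℝ) := mul_le_mul_of_nonneg_right h1.le hqR.le
    linarith [hab.1]
  have hcast : ((r.num.natAbs : ℕ) : ℤ) = r.num := Int.natAbs_of_nonneg hn0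
  refine ⟨r.num.natAbs, r.den, hq1, hd, r.reduced, ?_, ?_⟩
  · have h8 : ((r.num.natAbs : ℕ) : ℤ) ≤ (r.den : ℤ) := by rw [hcast]; exact hn1
    exact_mod_cast h8
  · have h9 : ((r.num.natAbs : ℕ) : ℝ) = (r.num : ℝ) := by
      have h90 : (((r.num.natAbs : ℕ) : ℤ) : ℝ) = ((r.num : ℤ) : ℝ) := by rw [hcast]
      rw [← h90, Int.cast_natCast]
    rw [h9, ← hrv]
    have h10 : |al - (r : ℝ)| * (r.den : ℝ) ≤ 1 / ((Q : ℝ) + 1) := by
      have h2 : (1 : ℝ) / (((Q : ℝ) + 1) * (r.den : ℝ)) * (r.den : ℝ) = 1 / ((Q : ℝ) + 1) := by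
        field_simp
      rw [← h2]
      exact mul_le_mul_of_nonneg_right hr hqR.le
    calc |al - (r : ℝ)| * (r.den : ℝ) * (Q : ℝ) ≤ 1 / ((Q : ℝ) + 1) * (Q : ℝ) :=
          mul_le_mul_of_nonneg_right h10 (by linarith)
      _ ≤ 1 := by
          rw [div_mul_eq_mul_div, one_mul, div_le_one (by linarith)]
          linarith

/-- The form used for characters modulo `2 ^ R`: frequency `h / 2 ^ R`. -/
theorem dir_two_pow (R h Q : ℕ) (hh : h < 2 ^ R) (hQ : 1 ≤ Q) :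
    ∃ a q : ℕ, 1 ≤ q ∧ q ≤ Q ∧ Nat.Coprime a q ∧ a ≤ q ∧
      |(h : ℝ) / 2 ^ R - (a : ℝ) / (q : ℝ)| * (q : ℝ) * (Q : ℝ) ≤ 1 := by
  have hp : (0 : ℝ) < (2 : ℝ) ^ R := by positivity
  refine dir_approx _ (by positivity) ?_ Q hQ
  rw [div_lt_one hp]
  exact_mod_cast hh

/-- If the approximation is not exact, then the error is at least `1 / (q 2 ^ R)`. -/
theorem dir_gap (R h a q : ℕ) (hq : 1 ≤ q)
    (hne : (h : ℝ) / 2 ^ R ≠ (a : ℝ) / (q : ℝ)) :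
    1 ≤ |(h : ℝ) / 2 ^ R - (a : ℝ) / (q : ℝ)| * (q : ℝ) * 2 ^ R := by
  have hp : (0 : ℝ) < (2 : ℝ) ^ R := by positivity
  have hqR : (0 : ℝ) < (q : ℝ) := by exact_mod_cast hq
  have h1 : ((h : ℝ) / 2 ^ R - (a : ℝ) / (q : ℝ)) * (q : ℝ) * 2 ^ R
      = (((h * q : ℤ) - (a * 2 ^ R : ℤ) : ℤ) : ℝ) := by
    push_cast
    field_simp
  have h2 : ((h * q : ℤ) - (a * 2 ^ R : ℤ) : ℤ) ≠ 0 := by
    intro h0
    rw [h0, Int.cast_zero] at h1
    have h3 : (h : ℝ) / 2 ^ R - (a : ℝ) / (q : ℝ) = 0 := by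
      rcases mul_eq_zero.mp h1 with h4 | h4
      · rcases mul_eq_zero.mp h4 with h5 | h5
        · exact h5
        · exact absurd h5 hqR.ne'
      · exact absurd h4 hp.ne'
    exact hne (by linarith)
  have h4 : (1 : ℝ) ≤ |(((h * q : ℤ) - (a * 2 ^ R : ℤ) : ℤ) : ℝ)| := by
    rw [← Int.cast_abs]
    exact_mod_cast Int.one_le_abs h2
  rw [← h1, abs_mul, abs_mul, abs_of_pos hqR, abs_of_pos hp] at h4
  exact h4

/-- If the approximation is exact (and reduced), then `q` is a power of two at most `2 ^ R`. -/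
theorem dir_exact (R h a q : ℕ) (hq : 1 ≤ q) (hc : Nat.Coprime a q)
    (he : (h : ℝ) / 2 ^ R = (a : ℝ) / (q : ℝ)) :
    ∃ i, i ≤ R ∧ q = 2 ^ i ∧ h = a * 2 ^ (R - i) := by
  have hp : (0 : ℝ) < (2 : ℝ) ^ R := by positivity
  have hqR : (0 : ℝ) < (q : ℝ) := by exact_mod_cast hq
  rw [div_eq_div_iff hp.ne' hqR.ne'] at he
  have he' : h * q = a * 2 ^ R := by exact_mod_cast he
  have hd : q ∣ 2 ^ R := by
    have h1 : q ∣ a * 2 ^ R := ⟨h, by rw [← he']; ring⟩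
    exact (Nat.Coprime.dvd_of_dvd_mul_left hc.symm h1)
  obtain ⟨i, hi, hqi⟩ := (Nat.dvd_prime_pow Nat.prime_two).mp hd
  refine ⟨i, hi, hqi, ?_⟩
  have h2 : 2 ^ R = 2 ^ (R - i) * 2 ^ i := by rw [← pow_add]; congr 1; omega
  rw [hqi, h2, ← mul_assoc] at he'
  exact Nat.eq_of_mul_eq_mul_right (by positivity) he'

end HadNT
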