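import Mathlib

/-!
# Ordered factorisations (A4)
-/

set_option autoImplicit false

open Finset

namespace Pool.Agent.HadNT

/-- one prime more: at most `l` times as many ordered factorisations -/
theorem card_finMulAntidiag_mul_prime (l : ℕ) {p n : ℕ} (hp : p.Prime) (hn : n ≠ 0) :
    (Nat.finMulAntidiag l (p * n)).card ≤ l * (Nat.finMulAntidiag l n).card := by
  classical
  have hsub : Nat.finMulAntidiag l (p * n) ⊆
      ((univ : Finset (Fin l)) ×ˢ Nat.finMulAntidiag l n).image
        (fun x => Function.update x.2 x.1 (p * x.2 x.1)) := by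
    intro f hf
    have h := (Nat.mem_finMulAntidiag.1 hf).1
    have h1 : p ∣ ∏ i, f i := by rw [h]; exact dvd_mul_right p n
    obtain ⟨i, _, hi⟩ := (Prime.dvd_finsetProd_iff hp.prime _).1 h1
    have h2 : p * (f i / p) = f i := Nat.mul_div_cancel' hi
    rw [mem_image]
    refine ⟨(i, Function.update f i (f i / p)), ?_, ?_⟩
    · rw [mem_product]
      refine ⟨mem_univ _, Nat.mem_finMulAntidiag.2 ⟨?_, hn⟩⟩
      have h3 : p * ∏ j, Function.update f i (f i / p) j = p * n := by
        rw [← h, Finset.prod_update_of_mem (mem_univ i), ← mul_assoc, h2,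
          ← Finset.prod_update_of_mem (mem_univ i) f (f i), Function.update_eq_self]
      exact Nat.eq_of_mul_eq_mul_left hp.pos h3
    · simp [h2]
  refine (card_le_card hsub).trans (card_image_le.trans ?_)
  rw [card_product, card_univ, Fintype.card_fin]

/-- the number of ordered factorisations into `l` factors -/
theorem card_finMulAntidiag_le (l : ℕ) {n : ℕ} (hn : n ≠ 0) :
    (Nat.finMulAntidiag l n).card ≤ l ^ n.primeFactorsList.length := by
  induction n using Nat.strong_induction_on with
  | _ n ih =>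
    rcases eq_or_ne n 1 with rfl | h1
    · simp [Nat.finMulAntidiag_one]
    · have hp : n.minFac.Prime := Nat.minFac_prime h1
      obtain ⟨m, hm⟩ := Nat.minFac_dvd n
      have hm0 : m ≠ 0 := by
        rintro rfl
        rw [mul_zero] at hm
        exact hn hm
      have hlt : m < n := by
        have h2 := hp.two_le
        have h3 : 0 < m := Nat.pos_of_ne_zero hm0
        calc m < 2 * m := by omega
          _ ≤ n.minFac * m := Nat.mul_le_mul_right m h2
          _ = n := hm.symm
      have hlen : n.primeFactorsList.length = m.primeFactorsList.length + 1 := by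
        rw [hm, (Nat.perm_primeFactorsList_mul hp.ne_zero hm0).length_eq, List.length_append,
          Nat.primeFactorsList_prime hp, List.length_singleton, Nat.add_comm]
      rw [hlen, pow_succ, mul_comm]
      calc (Nat.finMulAntidiag l n).card = (Nat.finMulAntidiag l (n.minFac * m)).card := by rw [← hm]
        _ ≤ l * (Nat.finMulAntidiag l m).card := card_finMulAntidiag_mul_prime l hp hm0
        _ ≤ l * l ^ m.primeFactorsList.length := Nat.mul_le_mul_left l (ih m hlt hm0)

/-- all the prime factors at least `2 ^ (256 L)`: at most `2 ^ (m / 256)` ordered factorisations -/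
theorem card_finMulAntidiag_pow_le {L l n m : ℕ} (hl : l ≤ 2 ^ L) (hn : n ≠ 0) (hm : n < 2 ^ m)
    (hp : ∀ p, p.Prime → p ∣ n → 2 ^ (256 * L) ≤ p) :
    (Nat.finMulAntidiag l n).card ^ 256 ≤ 2 ^ m := by
  have h1 : (2 ^ (256 * L)) ^ n.primeFactorsList.length ≤ n := by
    have h2 := List.pow_card_le_prod (M := ℕ) n.primeFactorsList (2 ^ (256 * L))
      (fun q hq => hp q (Nat.prime_of_mem_primeFactorsList hq) (Nat.dvd_of_mem_primeFactorsList hq))
    rwa [Nat.prod_primeFactorsList hn] at h2
  calc (Nat.finMulAntidiag l n).card ^ 256 ≤ (l ^ n.primeFactorsList.length) ^ 256 :=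
        Nat.pow_le_pow_left (card_finMulAntidiag_le l hn) 256
    _ ≤ ((2 ^ L) ^ n.primeFactorsList.length) ^ 256 :=
        Nat.pow_le_pow_left (Nat.pow_le_pow_left hl _) 256
    _ = (2 ^ (256 * L)) ^ n.primeFactorsList.length := by
        rw [← pow_mul, ← pow_mul, ← pow_mul]
        congr 1
        ring
    _ ≤ 2 ^ m := h1.trans hm.le

/-- the form for sets of tuples with values in `ι → ℕ` -/
theorem card_tuples_pow_le {L l n m : ℕ} (hl : l ≤ 2 ^ L) (hn : n ≠ 0) (hm : n < 2 ^ m)
    (hp : ∀ p, p.Prime → p ∣ n → 2 ^ (256 * L) ≤ p) (s : Finset (Fin l → ℕ))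
    (hs : ∀ u ∈ s, ∏ i, u i = n) : s.card ^ 256 ≤ 2 ^ m := by
  refine (Nat.pow_le_pow_left (card_le_card ?_) 256).trans (card_finMulAntidiag_pow_le hl hn hm hp)
  intro u hu
  exact Nat.mem_finMulAntidiag.2 ⟨hs u hu, hn⟩

end Pool.Agent.HadNT
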