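import Mathlib

/-!
# The average of `gcd (q, w)` (B3)
-/

set_option autoImplicit false
set_option linter.unusedSectionVars false

open Finset

namespace Pool.Agent.HadNT

variable {ι : Type*} [Fintype ι] [DecidableEq ι]

/-- pairwise coprime factors -/
theorem gcd_prod_of_coprime (q : ℕ) (s : Finset ι) (w : ι → ℕ)
    (h : ∀ i ∈ s, ∀ j ∈ s, i ≠ j → Nat.Coprime (w i) (w j)) :
    Nat.gcd q (∏ j ∈ s, w j) = ∏ j ∈ s, Nat.gcd q (w j) := by
  induction s using Finset.induction_on with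
  | empty => simp
  | insert a s ha ih =>
    rw [prod_insert ha, prod_insert ha, Nat.Coprime.gcd_mul, ih]
    · intro i hi j hj hij
      exact h i (mem_insert_of_mem hi) j (mem_insert_of_mem hj) hij
    · refine Nat.Coprime.prod_right fun j hj => ?_
      exact h a (mem_insert_self a s) j (mem_insert_of_mem hj) (fun e => ha (e ▸ hj))

/-- the sum of the gcds over the products of primes from disjoint sets is a product -/
theorem sum_gcd_eq (q : ℕ) (P : ι → Finset ℕ) (hP : ∀ i, ∀ p ∈ P i, p.Prime)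
    (hd : ∀ i j, i ≠ j → Disjoint (P i) (P j)) :
    ∑ w ∈ Fintype.piFinset P, Nat.gcd q (∏ j, w j) = ∏ j, ∑ p ∈ P j, Nat.gcd q p := by
  rw [Finset.prod_univ_sum]
  refine sum_congr rfl fun w hw => ?_
  rw [Fintype.mem_piFinset] at hw
  refine gcd_prod_of_coprime q univ w fun i _ j _ hij => ?_
  refine (Nat.coprime_primes (hP i _ (hw i)) (hP j _ (hw j))).2 fun e => ?_
  exact Finset.disjoint_left.1 (hd i j hij) (hw i) (e ▸ hw j)

/-- one set of primes -/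
theorem sum_gcd_le {q b : ℕ} (P : Finset ℕ) (hP : ∀ p ∈ P, p.Prime) (hb : ∀ p ∈ P, p ≤ 2 ^ b) :
    ∑ p ∈ P, Nat.gcd q p ≤ P.card + 2 ^ b * (P.filter (fun p => p ∣ q)).card := by
  rw [card_eq_sum_ones, card_eq_sum_ones (P.filter _), sum_filter, mul_sum, ← sum_add_distrib]
  refine sum_le_sum fun p hp => ?_
  by_cases h : p ∣ q
  · rw [if_pos h, Nat.gcd_eq_right h]
    have := hb p hp
    omega
  · have h1 : Nat.gcd q p = 1 := by
      rw [Nat.gcd_comm]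
      exact (Nat.Prime.coprime_iff_not_dvd (hP p hp)).2 h
    rw [if_neg h, h1]
    omega

theorem one_add_mul_le_pow (d n : ℕ) : 1 + 2 ^ d * n ≤ 2 ^ ((d + 1) * n) := by
  rw [pow_mul]
  have h : 1 + n * 2 ^ d ≤ (1 + 2 ^ d) ^ n := by
    induction n with
    | zero => simp
    | succ n ih =>
      rw [pow_succ]
      have h1 : 1 ≤ (1 + 2 ^ d) ^ n := Nat.one_le_pow _ _ (Nat.lt_of_lt_of_le Nat.one_pos (Nat.le_add_right 1 _))
      nlinarith [Nat.zero_le (2 ^ d), Nat.mul_le_mul_right (2 ^ d) h1]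
  have h2 : 1 + 2 ^ d ≤ 2 ^ (d + 1) := by
    rw [pow_succ]
    have := Nat.one_le_two_pow (n := d)
    omega
  calc 1 + 2 ^ d * n = 1 + n * 2 ^ d := by ring
    _ ≤ (1 + 2 ^ d) ^ n := h
    _ ≤ (2 ^ (d + 1)) ^ n := Nat.pow_le_pow_left h2 n

/-- GCD AVERAGE -/
theorem sum_gcd_prod_le {q b d : ℕ} (P : ι → Finset ℕ) (hP : ∀ i, ∀ p ∈ P i, p.Prime)
    (hd : ∀ i j, i ≠ j → Disjoint (P i) (P j)) (hb : ∀ i, ∀ p ∈ P i, p ≤ 2 ^ b)
    (hc : ∀ i, 2 ^ b ≤ (P i).card * 2 ^ d) :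
    ∑ w ∈ Fintype.piFinset P, Nat.gcd q (∏ j, w j) ≤
      (∏ j, (P j).card) * 2 ^ ((d + 1) * ∑ j, ((P j).filter (fun p => p ∣ q)).card) := by
  rw [sum_gcd_eq q P hP hd, mul_sum, ← prod_pow_eq_pow_sum, ← prod_mul_distrib]
  refine prod_le_prod' fun j _ => ?_
  refine (sum_gcd_le (P j) (hP j) (hb j)).trans ?_
  set n := ((P j).filter (fun p => p ∣ q)).card
  calc (P j).card + 2 ^ b * n ≤ (P j).card + (P j).card * 2 ^ d * n :=
        Nat.add_le_add_left (Nat.mul_le_mul_right n (hc j)) _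
    _ = (P j).card * (1 + 2 ^ d * n) := by ring
    _ ≤ (P j).card * 2 ^ ((d + 1) * n) := Nat.mul_le_mul_left _ (one_add_mul_le_pow d n)

/-- the primes dividing `q` -/
theorem pow_card_primes_le {q c : ℕ} (hq : q ≠ 0) (P : ι → Finset ℕ)
    (hP : ∀ i, ∀ p ∈ P i, p.Prime) (hd : ∀ i j, i ≠ j → Disjoint (P i) (P j))
    (hc : ∀ i, ∀ p ∈ P i, 2 ^ c ≤ p) :
    (2 ^ c) ^ (∑ j, ((P j).filter (fun p => p ∣ q)).card) ≤ q := by
  classical
  have hdis : ∀ i ∈ (univ : Finset ι), ∀ j ∈ (univ : Finset ι), i ≠ j →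
      Disjoint ((P i).filter (fun p => p ∣ q)) ((P j).filter (fun p => p ∣ q)) := by
    intro i _ j _ hij
    exact Finset.disjoint_filter_filter (hd i j hij)
  rw [← Finset.card_biUnion hdis]
  set T := (univ : Finset ι).biUnion fun j => (P j).filter (fun p => p ∣ q) with hT
  have hTp : ∀ p ∈ T, p.Prime ∧ p ∣ q ∧ 2 ^ c ≤ p := by
    intro p hp
    rw [hT, mem_biUnion] at hp
    obtain ⟨j, _, hj⟩ := hp
    rw [mem_filter] at hj
    exact ⟨hP j p hj.1, hj.2, hc j p hj.1⟩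
  have h1 : ∏ p ∈ T, p ∣ q :=
    Finset.prod_primes_dvd q (fun p hp => (hTp p hp).1.prime) (fun p hp => (hTp p hp).2.1)
  calc (2 ^ c) ^ T.card = ∏ _p ∈ T, 2 ^ c := (prod_const _).symm
    _ ≤ ∏ p ∈ T, p := prod_le_prod' fun p hp => (hTp p hp).2.2
    _ ≤ q := Nat.le_of_dvd (Nat.pos_of_ne_zero hq) h1

/-- GCD AVERAGE, with a real power of `q` -/
theorem sum_gcd_prod_le_rpow {q b d c : ℕ} (hq : q ≠ 0) (h0 : 0 < c) (P : ι → Finset ℕ)
    (hP : ∀ i, ∀ p ∈ P i, p.Prime) (hd : ∀ i j, i ≠ j → Disjoint (P i) (P j))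
    (hb : ∀ i, ∀ p ∈ P i, p ≤ 2 ^ b) (hc : ∀ i, 2 ^ b ≤ (P i).card * 2 ^ d)
    (hc' : ∀ i, ∀ p ∈ P i, 2 ^ c ≤ p) :
    (∑ w ∈ Fintype.piFinset P, (Nat.gcd q (∏ j, w j) : ℝ)) ≤
      (∏ j, ((P j).card : ℝ)) * (q : ℝ) ^ (((d : ℝ) + 1) / c) := by
  have h1 := sum_gcd_prod_le (q := q) P hP hd hb hc
  have h2 := pow_card_primes_le hq P hP hd hc'
  set n := ∑ j, ((P j).filter (fun p => p ∣ q)).card
  have h3 : (∑ w ∈ Fintype.piFinset P, (Nat.gcd q (∏ j, w j) : ℝ)) ≤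
      (∏ j, ((P j).card : ℝ)) * 2 ^ ((d + 1) * n) := by
    exact_mod_cast h1
  refine h3.trans (mul_le_mul_of_nonneg_left ?_ (prod_nonneg fun _ _ => Nat.cast_nonneg _))
  have hq1 : (0 : ℝ) ≤ q := Nat.cast_nonneg _
  have h4 : ((2 : ℝ) ^ c) ^ n ≤ q := by exact_mod_cast h2
  have hc0 : (0 : ℝ) < c := by exact_mod_cast h0
  have h5 : (2 : ℝ) ^ ((d + 1) * n) = (((2 : ℝ) ^ c) ^ n) ^ (((d : ℝ) + 1) / c) := by
    rw [← pow_mul, ← Real.rpow_natCast, ← Real.rpow_natCast, ← Real.rpow_mul (by norm_num)]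
    congr 1
    push_cast
    field_simp
  rw [h5]
  exact Real.rpow_le_rpow (by positivity) h4 (by positivity)

end Pool.Agent.HadNT
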