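import Mathlib

/-!
# Note 2926, piece B7: the sum of `Z_h ^ (-3)`
-/

set_option autoImplicit false

open Finset

namespace HadNT

theorem sz_range (n : ℕ) : ∑ j ∈ Finset.range n, 1 / ((1 : ℝ) + (j : ℝ)) ^ 2 ≤ (2 : ℝ) := by
  have h : ∀ n : ℕ, ∑ j ∈ Finset.range (n + 1), 1 / ((1 : ℝ) + (j : ℝ)) ^ 2 ≤
      (2 : ℝ) - 1 / ((n : ℝ) + 1) := by
    intro n
    induction n with
    | zero => norm_num
    | succ n ih =>
      rw [Finset.sum_range_succ]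
      have e : 1 / ((1 : ℝ) + ((n + 1 : ℕ) : ℝ)) ^ 2 ≤
          1 / ((n : ℝ) + 1) - 1 / (((n + 1 : ℕ) : ℝ) + 1) := by
        push_cast
        have h1 : (0 : ℝ) < (n : ℝ) + 1 := by positivity
        have h2 : (0 : ℝ) < (n : ℝ) + 1 + 1 := by positivity
        rw [div_sub_div _ _ h1.ne' h2.ne', div_le_div_iff₀ (by positivity) (by positivity)]
        nlinarith
      linarith
  rcases Nat.eq_zero_or_pos n with h0 | h0
  · rw [h0, Finset.sum_range_zero]; norm_num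
  · obtain ⟨m, rfl⟩ : ∃ m, n = m + 1 := ⟨n - 1, by omega⟩
    have h1 : (0 : ℝ) ≤ 1 / ((m : ℝ) + 1) := by positivity
    linarith [h m]

/-- a sum over integers with an injective map to the naturals -/
theorem sz_inj {ι : Type} (A : Finset ι) (g : ι → ℕ) (hg : Set.InjOn g A) :
    ∑ h ∈ A, 1 / ((1 : ℝ) + g h) ^ 2 ≤ 2 := by
  classical
  have e : ∑ h ∈ A, 1 / ((1 : ℝ) + g h) ^ 2 = ∑ j ∈ A.image g, 1 / ((1 : ℝ) + j) ^ 2 := by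
    rw [Finset.sum_image hg]
  rw [e]
  obtain ⟨n, hn⟩ : ∃ n, A.image g ⊆ Finset.range n := by
    refine ⟨(A.image g).sup id + 1, fun x hx => ?_⟩
    rw [Finset.mem_range]
    exact Nat.lt_succ_of_le (Finset.le_sup (f := id) hx)
  exact (Finset.sum_le_sum_of_subset_of_nonneg hn fun _ _ _ => by positivity).trans (sz_range n)

/-- the sum over the distances to a real number -/
theorem sz_dist (M : ℕ) (x : ℝ) : ∑ h ∈ Finset.range M, 1 / (1 + |(h : ℝ) - x|) ^ 2 ≤ 4 := by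
  classical
  rw [← Finset.sum_filter_add_sum_filter_not (Finset.range M) (fun h : ℕ => (h : ℤ) ≤ ⌊x⌋)]
  have h1 : ∑ h ∈ (Finset.range M).filter (fun h : ℕ => (h : ℤ) ≤ ⌊x⌋),
      1 / (1 + |(h : ℝ) - x|) ^ 2 ≤ 2 := by
    refine le_trans (Finset.sum_le_sum (g := fun h : ℕ => 1 / ((1 : ℝ) +
      ((⌊x⌋ - (h : ℤ)).toNat : ℕ)) ^ 2) fun h hh => ?_) (sz_inj _ _ ?_)
    · have h2 : (h : ℤ) ≤ ⌊x⌋ := (Finset.mem_filter.1 hh).2
      have h3 : (((⌊x⌋ - (h : ℤ)).toNat : ℕ) : ℝ) = (⌊x⌋ : ℝ) - h := by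
        have : (((⌊x⌋ - (h : ℤ)).toNat : ℕ) : ℤ) = ⌊x⌋ - h := Int.toNat_of_nonneg (by omega)
        exact_mod_cast this
      have h4 : (⌊x⌋ : ℝ) ≤ x := Int.floor_le x
      have h5 : x - h ≤ |(h : ℝ) - x| := by rw [abs_sub_comm]; exact le_abs_self _
      have h6 : (0 : ℝ) ≤ (⌊x⌋ : ℝ) - h := by
        have : (h : ℝ) ≤ ⌊x⌋ := by exact_mod_cast h2
        linarith
      refine one_div_le_one_div_of_le (by positivity) ?_
      rw [h3]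
      exact pow_le_pow_left₀ (by linarith) (by linarith) 2
    · intro a ha b hb hab
      have h2 : (a : ℤ) ≤ ⌊x⌋ := (Finset.mem_filter.1 (Finset.mem_coe.1 ha)).2
      have h3 : (b : ℤ) ≤ ⌊x⌋ := (Finset.mem_filter.1 (Finset.mem_coe.1 hb)).2
      simp only at hab
      omega
  have h2 : ∑ h ∈ (Finset.range M).filter (fun h : ℕ => ¬ (h : ℤ) ≤ ⌊x⌋),
      1 / (1 + |(h : ℝ) - x|) ^ 2 ≤ 2 := by
    refine le_trans (Finset.sum_le_sum (g := fun h : ℕ => 1 / ((1 : ℝ) +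
      (((h : ℤ) - ⌊x⌋ - 1).toNat : ℕ)) ^ 2) fun h hh => ?_) (sz_inj _ _ ?_)
    · have h2 : ¬ (h : ℤ) ≤ ⌊x⌋ := (Finset.mem_filter.1 hh).2
      have h3 : ((((h : ℤ) - ⌊x⌋ - 1).toNat : ℕ) : ℝ) = (h : ℝ) - ⌊x⌋ - 1 := by
        have : ((((h : ℤ) - ⌊x⌋ - 1).toNat : ℕ) : ℤ) = h - ⌊x⌋ - 1 :=
          Int.toNat_of_nonneg (by omega)
        exact_mod_cast this
      have h4 : x < (⌊x⌋ : ℝ) + 1 := Int.lt_floor_add_one x
      have h5 : (h : ℝ) - x ≤ |(h : ℝ) - x| := le_abs_self _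
      have h6 : (0 : ℝ) ≤ (h : ℝ) - ⌊x⌋ - 1 := by
        have : (⌊x⌋ : ℤ) + 1 ≤ h := by omega
        have : ((⌊x⌋ : ℝ)) + 1 ≤ h := by exact_mod_cast this
        linarith
      refine one_div_le_one_div_of_le (by positivity) ?_
      rw [h3]
      exact pow_le_pow_left₀ (by linarith) (by linarith) 2
    · intro a ha b hb hab
      have h2 : ¬ (a : ℤ) ≤ ⌊x⌋ := (Finset.mem_filter.1 (Finset.mem_coe.1 ha)).2
      have h3 : ¬ (b : ℤ) ≤ ⌊x⌋ := (Finset.mem_filter.1 (Finset.mem_coe.1 hb)).2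
      simp only at hab
      omega
  linarith

/-- the sum over all `h` for one fraction -/
theorem sz_one (R : ℕ) {N : ℝ} (hN : (2 : ℝ) ^ R ≤ N) (x : ℝ) :
    ∑ h ∈ Finset.range (2 ^ R), 1 / (1 + |(h : ℝ) / 2 ^ R - x| * N) ^ 3 ≤ 4 := by
  refine le_trans (Finset.sum_le_sum fun h _ => ?_) (sz_dist (2 ^ R) (2 ^ R * x))
  have h2 : (0 : ℝ) < 2 ^ R := by positivity
  have e : |(h : ℝ) - 2 ^ R * x| = |(h : ℝ) / 2 ^ R - x| * 2 ^ R := by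
    have e1 : (h : ℝ) - 2 ^ R * x = ((h : ℝ) / 2 ^ R - x) * 2 ^ R := by
      rw [sub_mul, div_mul_cancel₀ _ h2.ne']; ring
    rw [e1, abs_mul, abs_of_pos h2]
  have h3 : |(h : ℝ) - 2 ^ R * x| ≤ |(h : ℝ) / 2 ^ R - x| * N := by
    rw [e]
    exact mul_le_mul_of_nonneg_left hN (abs_nonneg _)
  have h4 : (1 : ℝ) ≤ 1 + |(h : ℝ) / 2 ^ R - x| * N := by
    have : 0 ≤ |(h : ℝ) / 2 ^ R - x| * N := (abs_nonneg _).trans h3
    linarith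
  refine one_div_le_one_div_of_le (by positivity) ?_
  calc (1 + |(h : ℝ) - 2 ^ R * x|) ^ 2 ≤ (1 + |(h : ℝ) / 2 ^ R - x| * N) ^ 2 :=
        pow_le_pow_left₀ (by positivity) (by linarith) 2
    _ ≤ (1 + |(h : ℝ) / 2 ^ R - x| * N) ^ 3 := pow_le_pow_right₀ h4 (by norm_num)

/-- B7: the sum of `Z_h ^ (-3)` -/
theorem sz_sum (R : ℕ) {N : ℝ} (hN : (2 : ℝ) ^ R ≤ N) (q : ℕ → ℕ) (a : ℕ → ℤ)
    (hq : ∀ h < 2 ^ R, 1 ≤ q h) (ha : ∀ h < 2 ^ R, -(q h : ℤ) ≤ a h ∧ a h ≤ 2 * q h) :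
    ∑ h ∈ Finset.range (2 ^ R),
      1 / ((q h : ℝ) * (1 + |(h : ℝ) / 2 ^ R - (a h : ℝ) / q h| * N)) ^ 3 ≤ 40 := by
  classical
  obtain ⟨Q, hQ⟩ : ∃ Q : ℕ, ∀ h < 2 ^ R, q h ≤ Q :=
    ⟨(Finset.range (2 ^ R)).sup q, fun h hh => Finset.le_sup (f := q) (Finset.mem_range.2 hh)⟩
  have hN0 : 0 ≤ N := le_trans (by positivity) hN
  -- the double sum
  have h1 : ∀ h ∈ Finset.range (2 ^ R),
      1 / ((q h : ℝ) * (1 + |(h : ℝ) / 2 ^ R - (a h : ℝ) / q h| * N)) ^ 3 ≤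
        ∑ p ∈ Finset.range Q, ∑ c ∈ Finset.Icc (-((p + 1 : ℕ) : ℤ)) (2 * ((p + 1 : ℕ) : ℤ)),
          1 / ((p + 1 : ℕ) : ℝ) ^ 3 *
            (1 / (1 + |(h : ℝ) / 2 ^ R - (c : ℝ) / ((p + 1 : ℕ) : ℝ)| * N) ^ 3) := by
    intro h hh
    have hh' := Finset.mem_range.1 hh
    have hp : q h - 1 ∈ Finset.range Q := by
      rw [Finset.mem_range]
      have := hQ h hh'; have := hq h hh'; omega
    have e : q h - 1 + 1 = q h := Nat.succ_pred_eq_of_pos (hq h hh')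
    have hnn : ∀ p ∈ Finset.range Q, 0 ≤ ∑ c ∈ Finset.Icc (-((p + 1 : ℕ) : ℤ))
        (2 * ((p + 1 : ℕ) : ℤ)), 1 / ((p + 1 : ℕ) : ℝ) ^ 3 *
          (1 / (1 + |(h : ℝ) / 2 ^ R - (c : ℝ) / ((p + 1 : ℕ) : ℝ)| * N) ^ 3) :=
      fun p _ => Finset.sum_nonneg fun c _ => by positivity
    refine le_trans ?_ (Finset.single_le_sum hnn hp)
    have hc : a h ∈ Finset.Icc (-((q h - 1 + 1 : ℕ) : ℤ)) (2 * ((q h - 1 + 1 : ℕ) : ℤ)) := by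
      rw [e, Finset.mem_Icc]
      exact ha h hh'
    refine le_trans ?_ (Finset.single_le_sum (fun c _ => by positivity) hc)
    rw [e, mul_pow, one_div_mul_one_div]
  refine le_trans (Finset.sum_le_sum h1) ?_
  rw [Finset.sum_comm]
  have h2 : ∀ p ∈ Finset.range Q, ∑ h ∈ Finset.range (2 ^ R),
      ∑ c ∈ Finset.Icc (-((p + 1 : ℕ) : ℤ)) (2 * ((p + 1 : ℕ) : ℤ)),
        1 / ((p + 1 : ℕ) : ℝ) ^ 3 *
          (1 / (1 + |(h : ℝ) / 2 ^ R - (c : ℝ) / ((p + 1 : ℕ) : ℝ)| * N) ^ 3) ≤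
      16 * (1 / ((1 : ℝ) + p) ^ 2) := by
    intro p _
    rw [Finset.sum_comm]
    have h3 : ∀ c ∈ Finset.Icc (-((p + 1 : ℕ) : ℤ)) (2 * ((p + 1 : ℕ) : ℤ)),
        ∑ h ∈ Finset.range (2 ^ R), 1 / ((p + 1 : ℕ) : ℝ) ^ 3 *
          (1 / (1 + |(h : ℝ) / 2 ^ R - (c : ℝ) / ((p + 1 : ℕ) : ℝ)| * N) ^ 3) ≤
        1 / ((p + 1 : ℕ) : ℝ) ^ 3 * 4 := by
      intro c _
      rw [← Finset.mul_sum]
      exact mul_le_mul_of_nonneg_left (sz_one R hN _) (by positivity)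
    refine le_trans (Finset.sum_le_card_nsmul _ _ _ h3) ?_
    rw [nsmul_eq_mul, Int.card_Icc]
    have e : (((2 * ((p + 1 : ℕ) : ℤ) + 1 - -((p + 1 : ℕ) : ℤ)).toNat : ℕ) : ℝ) =
        3 * ((p : ℝ) + 1) + 1 := by
      have : (((2 * ((p + 1 : ℕ) : ℤ) + 1 - -((p + 1 : ℕ) : ℤ)).toNat : ℕ) : ℤ) =
          3 * ((p : ℤ) + 1) + 1 := by
        rw [Int.toNat_of_nonneg (by push_cast; omega)]
        push_cast; ring
      exact_mod_cast this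
    rw [e]
    push_cast
    have h4 : (0 : ℝ) < (p : ℝ) + 1 := by positivity
    rw [show 16 * (1 / (1 + (p : ℝ)) ^ 2) = 16 / ((p : ℝ) + 1) ^ 2 by rw [add_comm]; ring,
      show (3 * ((p : ℝ) + 1) + 1) * (1 / ((p : ℝ) + 1) ^ 3 * 4) =
        (4 * (3 * ((p : ℝ) + 1) + 1)) / ((p : ℝ) + 1) ^ 3 by ring,
      div_le_div_iff₀ (by positivity) (by positivity)]
    have h5 : (1 : ℝ) ≤ (p : ℝ) + 1 := by linarith [(Nat.cast_nonneg p : (0 : ℝ) ≤ p)]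
    nlinarith [pow_pos h4 2, pow_pos h4 3]
  refine le_trans (Finset.sum_le_sum h2) ?_
  rw [← Finset.mul_sum]
  have := sz_range Q
  linarith

/-- B7 for any `Z h` which is not smaller -/
theorem sz_sum_Z (R : ℕ) {N : ℝ} (hN : (2 : ℝ) ^ R ≤ N) (q : ℕ → ℕ) (a : ℕ → ℤ) (β Z : ℕ → ℝ)
    (hq : ∀ h < 2 ^ R, 1 ≤ q h) (ha : ∀ h < 2 ^ R, -(q h : ℤ) ≤ a h ∧ a h ≤ 2 * q h)
    (hβ : ∀ h : ℕ, h < 2 ^ R → (h : ℝ) / 2 ^ R = (a h : ℝ) / q h + β h)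
    (hZ : ∀ h : ℕ, h < 2 ^ R → (q h : ℝ) * (1 + |β h| * N) ≤ Z h) :
    ∑ h ∈ Finset.range (2 ^ R), 1 / Z h ^ 3 ≤ 40 := by
  refine le_trans (Finset.sum_le_sum fun h hh => ?_) (sz_sum R hN q a hq ha)
  have hh' := Finset.mem_range.1 hh
  have e : (h : ℝ) / 2 ^ R - (a h : ℝ) / q h = β h := by rw [hβ h hh']; ring
  rw [e]
  have h1 : (1 : ℝ) ≤ q h := by exact_mod_cast hq h hh'
  have h2 : 0 ≤ |β h| * N := mul_nonneg (abs_nonneg _) (le_trans (by positivity) hN)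
  refine one_div_le_one_div_of_le (by positivity) ?_
  exact pow_le_pow_left₀ (by positivity) (hZ h hh') 3

end HadNT
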