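import Pool.Agent.Lib_MP_008adc_c3.B1
import Pool.Agent.Lib_MP_008adc_c3.SumZ
import Pool.Agent.Lib_MP_008adc_c3.CountK

/-!
# Link (vi): from the bounds of the exponential sums to the sum of sixteen elements
-/

set_option autoImplicit false

namespace HadB

open HadNT HadLLL

/-- LINK. -/
theorem link (R : ℕ) (hR : 1 ≤ R) {τ : Type} (T : Finset τ) (hT : T.Nonempty) (g : τ → ℕ)
    (hodd : ∀ t ∈ T, g t % 2 = 1) {N : ℝ} (hN : (2 : ℝ) ^ R ≤ N) (q : ℕ → ℕ) (a : ℕ → ℤ)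
    (β Z : ℕ → ℝ) (hq : ∀ h < 2 ^ R, 1 ≤ q h)
    (ha : ∀ h < 2 ^ R, -(q h : ℤ) ≤ a h ∧ a h ≤ 2 * q h)
    (hβ : ∀ h : ℕ, h < 2 ^ R → (h : ℝ) / 2 ^ R = (a h : ℝ) / q h + β h)
    (hZ : ∀ h : ℕ, h < 2 ^ R → (q h : ℝ) * (1 + |β h| * N) ≤ Z h)
    (hcases : ∀ h : ℕ, h < 2 ^ R → h ≠ 0 → h ≠ 2 ^ (R - 1) →
      ‖∑ t ∈ T, eR ((h : ℝ) / 2 ^ R * (g t : ℝ))‖ = 0 ∨
      (128 ≤ Z h ∧ ‖∑ t ∈ T, eR ((h : ℝ) / 2 ^ R * (g t : ℝ))‖ ^ 4 * Z h ≤ (T.card : ℝ) ^ 4) ∨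
      ‖∑ t ∈ T, eR ((h : ℝ) / 2 ^ R * (g t : ℝ))‖ ^ 16 * 2 ^ (R + 2) ≤ (T.card : ℝ) ^ 16)
    (y : ℕ) (hy : y % 2 = 0) :
    ∃ t : Fin 16 → τ, (∀ j, t j ∈ T) ∧ (∑ j, g (t j)) ≡ y [MOD 2 ^ R] := by
  classical
  have hTc : (0 : ℝ) < (T.card : ℝ) ^ 16 := by
    have := Finset.card_pos.2 hT
    positivity
  refine countK R 16 hR (by norm_num) T hT g hodd ?_ y hy
  set s : ℕ → ℝ := fun h => ‖∑ t ∈ T, eR ((h : ℝ) / 2 ^ R * (g t : ℝ))‖ with hs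
  have hs0 : ∀ h, 0 ≤ s h := fun h => norm_nonneg _
  -- translation to real exponential sums
  have h1 : ∀ h : ZMod (2 ^ R), ‖Sg (2 ^ R) T (fun t => (g t : ZMod (2 ^ R))) h‖ = s h.val := by
    intro h
    rw [hs]
    dsimp only
    congr 1
    rw [Sg_eq_exp]
    refine Finset.sum_congr rfl fun t _ => ?_
    unfold eR
    congr 1
    push_cast
    ring
  -- the bound for each term
  have h2 : ∀ h : ℕ, h < 2 ^ R → h ≠ 0 → h ≠ 2 ^ (R - 1) →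
      s h ^ 16 ≤ (T.card : ℝ) ^ 16 * (1 / 128 * (1 / Z h ^ 3) + 1 / 2 ^ (R + 2)) := by
    intro h hh h0 h3
    have hZ0 : 0 < Z h := by
      refine lt_of_lt_of_le ?_ (hZ h hh)
      have e1 : (1 : ℝ) ≤ q h := by exact_mod_cast hq h hh
      have e2 : 0 ≤ N := le_trans (by positivity) hN
      positivity
    rcases hcases h hh h0 h3 with h4 | ⟨h4, h5⟩ | h4
    · have : s h = 0 := h4
      rw [this, zero_pow (by norm_num)]
      positivity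
    · have e1 : s h ^ 16 * Z h ^ 4 ≤ (T.card : ℝ) ^ 16 := by
        calc s h ^ 16 * Z h ^ 4 = (s h ^ 4 * Z h) ^ 4 := by ring
          _ ≤ ((T.card : ℝ) ^ 4) ^ 4 := pow_le_pow_left₀ (by positivity) h5 4
          _ = (T.card : ℝ) ^ 16 := by ring
      have e2 : s h ^ 16 ≤ (T.card : ℝ) ^ 16 * (1 / 128 * (1 / Z h ^ 3)) := by
        have e3 : (T.card : ℝ) ^ 16 * (1 / 128 * (1 / Z h ^ 3)) =
            (T.card : ℝ) ^ 16 / (128 * Z h ^ 3) := by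
          field_simp
        rw [e3, le_div_iff₀ (by positivity)]
        calc s h ^ 16 * (128 * Z h ^ 3) ≤ s h ^ 16 * (Z h * Z h ^ 3) := by
              apply mul_le_mul_of_nonneg_left _ (by positivity)
              exact mul_le_mul_of_nonneg_right h4 (by positivity)
          _ = s h ^ 16 * Z h ^ 4 := by ring
          _ ≤ _ := e1
      refine e2.trans (mul_le_mul_of_nonneg_left ?_ hTc.le)
      have : (0 : ℝ) ≤ 1 / 2 ^ (R + 2) := by positivity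
      linarith
    · have e2 : s h ^ 16 ≤ (T.card : ℝ) ^ 16 * (1 / 2 ^ (R + 2)) := by
        rw [mul_one_div, le_div_iff₀ (by positivity)]
        exact h4
      refine e2.trans (mul_le_mul_of_nonneg_left ?_ hTc.le)
      have : (0 : ℝ) ≤ 1 / 128 * (1 / Z h ^ 3) := by positivity
      linarith
  -- sum over the residues
  set A : Finset (ZMod (2 ^ R)) := (Finset.univ.erase (0 : ZMod (2 ^ R))).erase (half R) with hA
  have h3 : ∑ h ∈ A, ‖Sg (2 ^ R) T (fun t => (g t : ZMod (2 ^ R))) h‖ ^ 16 ≤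
      ∑ h ∈ A, (T.card : ℝ) ^ 16 * (1 / 128 * (1 / Z h.val ^ 3) + 1 / 2 ^ (R + 2)) := by
    refine Finset.sum_le_sum fun h hh => ?_
    rw [h1 h]
    rw [hA, Finset.mem_erase, Finset.mem_erase] at hh
    refine h2 h.val (ZMod.val_lt h) ?_ ?_
    · intro h0
      exact hh.2.1 ((ZMod.val_eq_zero h).1 h0)
    · intro h0
      apply hh.1
      rw [half, ← h0, ZMod.natCast_zmod_val]
  have hZ1 : ∀ h < 2 ^ R, 0 ≤ 1 / Z h ^ 3 := by
    intro h hh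
    have hZ0 : 0 < Z h := by
      refine lt_of_lt_of_le ?_ (hZ h hh)
      have e1 : (1 : ℝ) ≤ q h := by exact_mod_cast hq h hh
      have e2 : 0 ≤ N := le_trans (by positivity) hN
      positivity
    positivity
  have h4 : ∑ h ∈ A, (T.card : ℝ) ^ 16 * (1 / 128 * (1 / Z h.val ^ 3) + 1 / 2 ^ (R + 2)) ≤
      ∑ h ∈ Finset.range (2 ^ R), (T.card : ℝ) ^ 16 * (1 / 128 * (1 / Z h ^ 3) + 1 / 2 ^ (R + 2)) := by
    rw [← Finset.sum_image (s := A) (g := fun h : ZMod (2 ^ R) => h.val)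
      (f := fun h : ℕ => (T.card : ℝ) ^ 16 * (1 / 128 * (1 / Z h ^ 3) + 1 / 2 ^ (R + 2)))
      (fun x _ y _ hxy => ZMod.val_injective _ hxy)]
    refine Finset.sum_le_sum_of_subset_of_nonneg ?_ ?_
    · intro h hh
      rw [Finset.mem_image] at hh
      obtain ⟨x, _, rfl⟩ := hh
      exact Finset.mem_range.2 (ZMod.val_lt x)
    · intro h hh _
      have := hZ1 h (Finset.mem_range.1 hh)
      positivity
  refine lt_of_le_of_lt (h3.trans h4) ?_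
  rw [← Finset.mul_sum, Finset.sum_add_distrib, ← Finset.mul_sum, Finset.sum_const,
    Finset.card_range, nsmul_eq_mul]
  have h5 := sz_sum_Z R hN q a β Z hq ha hβ hZ
  have h6 : (((2 ^ R : ℕ) : ℝ)) * (1 / 2 ^ (R + 2)) = 1 / 4 := by
    push_cast
    rw [pow_add]
    field_simp
    norm_num
  rw [h6]
  have h7 : 1 / 128 * (∑ h ∈ Finset.range (2 ^ R), 1 / Z h ^ 3) + 1 / 4 < 1 := by linarith
  calc (T.card : ℝ) ^ 16 * (1 / 128 * (∑ h ∈ Finset.range (2 ^ R), 1 / Z h ^ 3) + 1 / 4)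
      < (T.card : ℝ) ^ 16 * 1 := mul_lt_mul_of_pos_left h7 hTc
    _ = (T.card : ℝ) ^ 16 := mul_one _

end HadB
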