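import Pool.Agent.Lib_MP_008adc_c3.B1
import Pool.Agent.Lib_MP_008adc_c3.Dir

/-!
# Piece B4: small `Z`, the sum over the odd cofactor vanishes
-/

set_option autoImplicit false

namespace HadNT

open HadLLL Finset

theorem eR_ne_one {x : ℝ} (hx : 0 < nd x) : eR x ≠ 1 := by
  intro h
  have h1 := norm_eR_sub_one x
  rw [h, sub_self, norm_zero] at h1
  linarith

/-- A complete sum over odd numbers. -/
theorem odd_range_sum (b0 : ℕ) (hb : 1 ≤ b0) (f : ℕ → ℂ) :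
    ∑ x ∈ (range (2 ^ b0)).filter Odd, f x = ∑ m ∈ range (2 ^ (b0 - 1)), f (2 * m + 1) := by
  symm
  refine Finset.sum_bij (fun m _ => 2 * m + 1) ?_ ?_ ?_ ?_
  · intro m hm
    rw [mem_range] at hm
    rw [mem_filter, mem_range]
    have h2 : 2 ^ b0 = 2 * 2 ^ (b0 - 1) := by
      rw [← pow_succ']
      congr 1
      omega
    exact ⟨by omega, ⟨m, rfl⟩⟩
  · intro m _ n _ h
    omega
  · intro x hx
    rw [mem_filter, mem_range] at hx
    obtain ⟨h1, m, rfl⟩ := hx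
    have h2 : 2 ^ b0 = 2 * 2 ^ (b0 - 1) := by
      rw [← pow_succ']
      congr 1
      omega
    exact ⟨m, mem_range.2 (by omega), rfl⟩
  · intro m _
    rfl

/-- The sum over odd `x < 2 ^ b0` at a frequency of order `2 ^ i`, `2 ≤ i ≤ b0`. -/
theorem odd_sum_zero (b0 i a w : ℕ) (h2 : 2 ≤ i) (hi : i ≤ b0) (ha : Odd a) (hw : Odd w) :
    ∑ x ∈ (range (2 ^ b0)).filter Odd, eR ((a : ℝ) / 2 ^ i * ((x : ℝ) * (w : ℝ))) = 0 := by
  rw [odd_range_sum b0 (by omega)]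
  set r : ℂ := eR ((a : ℝ) * w / 2 ^ (i - 1)) with hr
  have hi1 : (2 : ℝ) ^ i = 2 * 2 ^ (i - 1) := by
    rw [← pow_succ']
    congr 1
    omega
  have h1 : ∀ m : ℕ, eR ((a : ℝ) / 2 ^ i * (((2 * m + 1 : ℕ) : ℝ) * (w : ℝ))) =
      eR ((a : ℝ) / 2 ^ i * w) * r ^ m := by
    intro m
    rw [hr, ← eR_nat_mul, ← eR_add]
    congr 1
    rw [hi1]
    push_cast
    field_simp
    ring
  rw [Finset.sum_congr rfl fun m _ => h1 m, ← Finset.mul_sum]
  have hodd : Odd (a * w) := ha.mul hw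
  have hne : r ≠ 1 := by
    intro h
    rw [hr, eR, Complex.exp_eq_one_iff] at h
    obtain ⟨n, hn⟩ := h
    have h3 : (((a : ℝ) * w / 2 ^ (i - 1) : ℝ) : ℂ) = (n : ℂ) := by
      have h4 : (2 * (Real.pi : ℂ) * Complex.I) ≠ 0 := Complex.two_pi_I_ne_zero
      have h5 : (((a : ℝ) * w / 2 ^ (i - 1) : ℝ) : ℂ) * (2 * (Real.pi : ℂ) * Complex.I) =
          (n : ℂ) * (2 * (Real.pi : ℂ) * Complex.I) := by
        rw [← hn]
        ring
      exact mul_right_cancel₀ h4 h5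
    have h6 : (a : ℝ) * w / 2 ^ (i - 1) = (n : ℝ) := by exact_mod_cast h3
    rw [div_eq_iff (by positivity)] at h6
    have h7 : ((a * w : ℕ) : ℤ) = n * 2 ^ (i - 1) := by
      have : (((a * w : ℕ) : ℤ) : ℝ) = ((n * 2 ^ (i - 1) : ℤ) : ℝ) := by
        push_cast
        exact h6
      exact_mod_cast this
    have h8 : ((2 : ℤ) : ℤ) ∣ ((a * w : ℕ) : ℤ) := by
      rw [h7]
      exact Dvd.dvd.mul_left (dvd_pow_self _ (by omega)) _
    have h9 : 2 ∣ a * w := by exact_mod_cast h8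
    exact (Nat.not_even_iff_odd.2 hodd) (even_iff_two_dvd.2 h9)
  have hpow : r ^ (2 ^ (b0 - 1)) = 1 := by
    rw [hr, ← eR_nat_mul]
    have h3 : (a : ℝ) * w / 2 ^ (i - 1) * ((2 ^ (b0 - 1) : ℕ) : ℝ) =
        (((a * w * 2 ^ (b0 - i) : ℕ) : ℤ) : ℝ) := by
      have h4 : (2 : ℝ) ^ (b0 - 1) = 2 ^ (i - 1) * 2 ^ (b0 - i) := by
        rw [← pow_add]
        congr 1
        omega
      push_cast
      rw [h4]
      field_simp
    rw [h3]
    exact eR_int _
  have hgeom := geom_sum_eq hne (2 ^ (b0 - 1))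
  rw [hgeom, hpow, sub_self, zero_div, mul_zero]

/-- MAJOR ARC. If `Z = q (1 + |β| N) < 2 ^ c`, `c ≤ b0` and `2 ^ R 2 ^ c ≤ N`, then the sum over the
odd cofactor vanishes, for every frequency `h / 2 ^ R` except `0` and `1 / 2`. -/
theorem major_arc (R b0 c h a q : ℕ) (N β : ℝ) (hh : h < 2 ^ R) (h0 : h ≠ 0)
    (h1 : h ≠ 2 ^ (R - 1)) (hq : 1 ≤ q) (hco : Nat.Coprime a q)
    (hβ : (h : ℝ) / 2 ^ R = (a : ℝ) / (q : ℝ) + β) (hZ : (q : ℝ) * (1 + |β| * N) < 2 ^ c)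
    (hN : (2 : ℝ) ^ R * 2 ^ c ≤ N) (hc : c ≤ b0) (w : ℕ) (hw : Odd w) :
    ∑ x ∈ (range (2 ^ b0)).filter Odd, eR ((h : ℝ) / 2 ^ R * ((x : ℝ) * (w : ℝ))) = 0 := by
  have hqR : (1 : ℝ) ≤ (q : ℝ) := by exact_mod_cast hq
  have hNpos : 0 < N := lt_of_lt_of_le (by positivity) hN
  have hexact : (h : ℝ) / 2 ^ R = (a : ℝ) / (q : ℝ) := by
    by_contra hne
    have h2 := dir_gap R h a q hq hne
    have h3 : (h : ℝ) / 2 ^ R - (a : ℝ) / (q : ℝ) = β := by rw [hβ]; ring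
    rw [h3] at h2
    have h4 : (q : ℝ) * (|β| * N) < 2 ^ c := by nlinarith
    have h5 : (q : ℝ) * (|β| * (2 ^ R * 2 ^ c)) ≤ (q : ℝ) * (|β| * N) :=
      mul_le_mul_of_nonneg_left (mul_le_mul_of_nonneg_left hN (abs_nonneg _)) (by linarith)
    have h6 : (2 : ℝ) ^ c ≤ (q : ℝ) * (|β| * (2 ^ R * 2 ^ c)) := by
      calc (2 : ℝ) ^ c = 1 * 2 ^ c := by ring
        _ ≤ (|β| * (q : ℝ) * 2 ^ R) * 2 ^ c := mul_le_mul_of_nonneg_right h2 (by positivity)
        _ = _ := by ring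
    linarith
  obtain ⟨i, hiR, hqi, hha⟩ := dir_exact R h a q hq hco hexact
  have hqc : (q : ℝ) < 2 ^ c := by
    have : 0 ≤ (q : ℝ) * (|β| * N) := by positivity
    nlinarith
  have hic : i < c := by
    have h2 : q < 2 ^ c := by exact_mod_cast hqc
    rw [hqi] at h2
    exact (Nat.pow_lt_pow_iff_right (by norm_num)).1 h2
  have hi2 : 2 ≤ i := by
    by_contra hlt
    have h3 : i = 0 ∨ i = 1 := by omega
    rcases h3 with h3 | h3
    · subst h3
      rw [Nat.sub_zero] at hha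
      rcases Nat.eq_zero_or_pos a with h4 | h4
      · exact h0 (by rw [hha, h4, zero_mul])
      · have : 2 ^ R ≤ a * 2 ^ R := Nat.le_mul_of_pos_left _ h4
        omega
    · subst h3
      have h4 : a < 2 := by
        by_contra h5
        have h6 : 2 ^ R = 2 * 2 ^ (R - 1) := by
          rw [← pow_succ']
          congr 1
          omega
        have h7 : 2 * 2 ^ (R - 1) ≤ a * 2 ^ (R - 1) := Nat.mul_le_mul_right _ (by omega)
        omega
      have h5 : a = 0 ∨ a = 1 := by omega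
      rcases h5 with h5 | h5
      · exact h0 (by rw [hha, h5, zero_mul])
      · exact h1 (by rw [hha, h5, one_mul])
  have haodd : Odd a := by
    rw [← Nat.not_even_iff_odd]
    intro hev
    have h2 : 2 ∣ Nat.gcd a q := Nat.dvd_gcd (even_iff_two_dvd.1 hev) (by
      rw [hqi]
      exact dvd_pow_self _ (by omega))
    rw [Nat.Coprime.gcd_eq_one hco] at h2
    omega
  rw [hexact, hqi]
  have h3 : (((2 : ℕ) ^ i : ℕ) : ℝ) = (2 : ℝ) ^ i := by push_cast; ring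
  rw [h3]
  exact odd_sum_zero b0 i a w hi2 (by omega) haodd hw

end HadNT
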