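import Mathlib

/-!
MP_008adc_co: the min-sum lemma of the circle method (note 2926, B2).
-/

namespace MinSum

open Finset

/-- distance to the nearest integer -/
noncomputable def nd (x : ℝ) : ℝ := |x - round x|

lemma nd_nonneg (x : ℝ) : 0 ≤ nd x := abs_nonneg _

lemma nd_neg (x : ℝ) : nd (-x) = nd x := by
  unfold nd
  apply le_antisymm
  · have := round_le (-x) (-(round x))
    calc |(-x) - (round (-x) : ℝ)| ≤ |(-x) - ((-(round x) : ℤ) : ℝ)| := this
      _ = |x - round x| := by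
        push_cast
        rw [show -x - -(round x : ℝ) = -(x - round x) by ring, abs_neg]
  · have := round_le x (-(round (-x)))
    calc |x - (round x : ℝ)| ≤ |x - ((-(round (-x)) : ℤ) : ℝ)| := this
      _ = |-x - round (-x)| := by
        push_cast
        rw [show x - -(round (-x) : ℝ) = -(-x - round (-x)) by ring, abs_neg]

lemma nd_le (x : ℝ) (n : ℤ) : nd x ≤ |x - n| := round_le x n

lemma nd_add_int (x : ℝ) (n : ℤ) : nd (x + n) = nd x := by
  unfold nd
  rw [round_add_intCast]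
  push_cast
  congr 1
  ring

lemma nd_int_add (x : ℝ) (n : ℤ) : nd ((n : ℝ) + x) = nd x := by
  rw [add_comm, nd_add_int]

lemma nd_eq_abs {x : ℝ} (h : |x| < 1 / 2) : nd x = |x| := by
  have h1 := abs_lt.1 h
  have : round x = 0 := by
    rw [round_eq_zero_iff]
    constructor <;> linarith [h1.1, h1.2]
  unfold nd
  rw [this]
  simp

lemma nd_add_ge (x y : ℝ) : nd x - |y| ≤ nd (x + y) := by
  have h1 : nd x ≤ |x - round (x + y)| := nd_le x _
  have h2 : |x - round (x + y)| ≤ nd (x + y) + |y| := by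
    unfold nd
    calc |x - (round (x + y) : ℝ)| = |(x + y - round (x + y)) + (-y)| := by congr 1; ring
      _ ≤ |x + y - round (x + y)| + |-y| := abs_add_le _ _
      _ = |x + y - round (x + y)| + |y| := by rw [abs_neg]
  linarith

/-- the distance of a fraction -/
lemma nd_frac_ge (m : ℤ) (q : ℕ) (hq : 1 ≤ q) (h : m % q ≠ 0) :
    1 / (nd ((m : ℝ) / q)) ≤ (q : ℝ) * (1 / ((m % q : ℤ) : ℝ) + 1 / ((q : ℝ) - ((m % q : ℤ) : ℝ))) ∧
    1 / (q : ℝ) ≤ nd ((m : ℝ) / q) := by
  have hq0 : (0 : ℝ) < q := by exact_mod_cast hq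
  have hqz : (q : ℤ) ≠ 0 := by positivity
  have hc0 : 0 ≤ m % q := Int.emod_nonneg _ hqz
  have hc1 : m % q < q := Int.emod_lt_of_pos _ (by positivity)
  set c := m % q with hc
  have hcpos : 1 ≤ c := by omega
  have hcq : c + 1 ≤ q := by omega
  have hcR : (1 : ℝ) ≤ c := by exact_mod_cast hcpos
  have hcqR : (c : ℝ) + 1 ≤ q := by exact_mod_cast hcq
  set d := round ((m : ℝ) / q) with hd
  have e1 : nd ((m : ℝ) / q) = |((m - d * q : ℤ) : ℝ)| / q := by
    unfold nd
    rw [← hd]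
    rw [show (m : ℝ) / q - d = ((m - d * q : ℤ) : ℝ) / q by
      push_cast
      field_simp]
    rw [abs_div, abs_of_pos hq0]
  -- m - d q = c + q * k
  have e2 : m - d * q = c + q * (m / q - d) := by
    have := Int.emod_add_mul_ediv m q
    rw [← hc] at this
    linarith
  set k := m / (q : ℤ) - d with hk
  have e3 : min (c : ℝ) ((q : ℝ) - c) ≤ |((m - d * q : ℤ) : ℝ)| := by
    rw [e2]
    rcases le_or_gt 0 k with hk0 | hk0
    · have : (c : ℝ) ≤ ((c + q * k : ℤ) : ℝ) := by
        have : c ≤ c + q * k := by nlinarith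
        exact_mod_cast this
      exact (min_le_left _ _).trans (this.trans (le_abs_self _))
    · have : (q : ℝ) - c ≤ -((c + q * k : ℤ) : ℝ) := by
        have : (q : ℤ) - c ≤ -(c + q * k) := by nlinarith
        exact_mod_cast this
      exact (min_le_right _ _).trans (this.trans (neg_le_abs _))
  have hmin : (1 : ℝ) ≤ min (c : ℝ) ((q : ℝ) - c) := le_min hcR (by linarith)
  constructor
  · rw [e1, one_div_div]
    have h1 : (q : ℝ) / |((m - d * q : ℤ) : ℝ)| ≤ q / min (c : ℝ) ((q : ℝ) - c) := by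
      apply div_le_div_of_nonneg_left hq0.le (by linarith) e3
    refine h1.trans ?_
    rw [div_eq_mul_one_div]
    apply mul_le_mul_of_nonneg_left _ hq0.le
    rcases min_choice (c : ℝ) ((q : ℝ) - c) with h | h
    · rw [h]
      have : 0 ≤ 1 / ((q : ℝ) - c) := by
        apply div_nonneg zero_le_one
        linarith
      linarith
    · rw [h]
      have : 0 ≤ 1 / (c : ℝ) := by positivity
      linarith
  · rw [e1]
    apply div_le_div_of_nonneg_right _ hq0.le
    linarith

/-- two-sided sum as a one-sided sum -/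
lemma sum_Ioo (F : ℤ → ℝ) (X : ℕ) :
    ∑ r ∈ Ioo (-((X : ℤ) + 1)) ((X : ℤ) + 1), F r
      = F 0 + ∑ n ∈ range X, (F ((n : ℤ) + 1) + F (-((n : ℤ) + 1))) := by
  induction X with
  | zero =>
    have : Ioo (-(((0 : ℕ) : ℤ) + 1)) (((0 : ℕ) : ℤ) + 1) = {0} := by
      ext x
      simp only [mem_Ioo, mem_singleton]
      push_cast
      omega
    rw [this]
    simp
  | succ X ih =>
    have : Ioo (-(((X + 1 : ℕ) : ℤ) + 1)) (((X + 1 : ℕ) : ℤ) + 1)
        = insert ((X : ℤ) + 1) (insert (-((X : ℤ) + 1)) (Ioo (-((X : ℤ) + 1)) ((X : ℤ) + 1))) := by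
      ext x
      simp only [mem_Ioo, mem_insert]
      push_cast
      omega
    rw [this, sum_insert, sum_insert, ih, sum_range_succ]
    · ring
    · simp
    · simp only [mem_insert, mem_Ioo]
      omega

/-- harmonic sums -/
lemma harm_le (n : ℕ) : ∑ j ∈ range n, 1 / ((j : ℝ) + 1) ≤ 1 + Real.log n := by
  have h := harmonic_le_one_add_log n
  have : ((harmonic n : ℚ) : ℝ) = ∑ j ∈ range n, 1 / ((j : ℝ) + 1) := by
    unfold harmonic
    push_cast
    apply sum_congr rfl
    intro i _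
    rw [one_div]
  rw [← this]
  exact h

/-- at most `X / q + 1` indices in one class -/
lemma card_class (a : ℤ) (q : ℕ) (hq : 1 ≤ q) (hco : IsCoprime a (q : ℤ)) (X : ℕ) (c : ℕ) :
    ((range X).filter fun n : ℕ => ((a * ((n : ℤ) + 1)) % q).toNat = c).card ≤ X / q + 1 := by
  have hqz : (q : ℤ) ≠ 0 := by positivity
  have : ((range X).filter fun n : ℕ => ((a * ((n : ℤ) + 1)) % q).toNat = c).card
      ≤ (range (X / q + 1)).card := by
    apply card_le_card_of_injOn (fun n => n / q)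
    · intro n hn
      simp only [coe_filter, mem_range, Set.mem_setOf_eq] at hn
      simp only [coe_range, Set.mem_Iio]
      have : n / q ≤ X / q := Nat.div_le_div_right hn.1.le
      omega
    · intro n hn n' hn' h
      simp only [coe_filter, mem_range, Set.mem_setOf_eq] at hn hn'
      simp only at h
      have h1 : 0 ≤ (a * ((n : ℤ) + 1)) % q := Int.emod_nonneg _ hqz
      have h2 : 0 ≤ (a * ((n' : ℤ) + 1)) % q := Int.emod_nonneg _ hqz
      have h3 : (a * ((n : ℤ) + 1)) % q = (a * ((n' : ℤ) + 1)) % q := by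
        have := hn.2.trans hn'.2.symm
        omega
      have h4 : (q : ℤ) ∣ a * ((n' : ℤ) - n) := by
        have := Int.emod_emod_of_dvd
        have h5 : (q : ℤ) ∣ a * ((n' : ℤ) + 1) - a * ((n : ℤ) + 1) :=
          Int.ModEq.dvd h3
        have h6 : a * ((n' : ℤ) - n) = a * ((n' : ℤ) + 1) - a * ((n : ℤ) + 1) := by ring
        rw [h6]
        exact h5
      have h7 : (q : ℤ) ∣ (n' : ℤ) - n := (IsCoprime.symm hco).dvd_of_dvd_mul_left h4
      have h8 : n % q = n' % q := by
        have : (n : ℤ) ≡ n' [ZMOD q] := (Int.modEq_iff_dvd).2 h7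
        exact (Int.natCast_modEq_iff.1 this)
      have e1 := Nat.div_add_mod n q
      have e2 := Nat.div_add_mod n' q
      rw [h8, h] at e1
      exact e1.symm.trans e2
  simpa using this

lemma gsum_le (q : ℕ) (hq : 1 ≤ q) :
    ∑ c ∈ Ico 1 q, (1 / (c : ℝ) + 1 / ((q : ℝ) - c)) ≤ 2 * (1 + Real.log q) := by
  obtain ⟨m, rfl⟩ : ∃ m, q = m + 1 := ⟨q - 1, by omega⟩
  have hlog : Real.log (m : ℝ) ≤ Real.log ((m + 1 : ℕ) : ℝ) := by
    rcases Nat.eq_zero_or_pos m with h | h
    · subst h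
      simp
    · apply Real.log_le_log (by exact_mod_cast h)
      push_cast
      linarith
  have h1 : ∑ c ∈ Ico 1 (m + 1), 1 / (c : ℝ) ≤ 1 + Real.log m := by
    rw [sum_Ico_eq_sum_range]
    have := harm_le m
    simp only [Nat.add_sub_cancel]
    refine le_trans (le_of_eq ?_) this
    apply sum_congr rfl
    intro i _
    push_cast
    rw [add_comm]
  have h2 : ∑ c ∈ Ico 1 (m + 1), 1 / (((m + 1 : ℕ) : ℝ) - c) ≤ 1 + Real.log m := by
    refine le_trans (le_of_eq ?_) h1
    rw [sum_Ico_eq_sum_range, sum_Ico_eq_sum_range]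
    simp only [Nat.add_sub_cancel]
    rw [← sum_range_reflect]
    apply sum_congr rfl
    intro i hi
    rw [mem_range] at hi
    have : (((1 + (m - 1 - i) : ℕ)) : ℝ) = (m : ℝ) - i := by
      have h3 : 1 + (m - 1 - i) = m - i := by omega
      rw [h3, Nat.cast_sub hi.le]
    rw [this]
    push_cast
    congr 1
    ring
  rw [sum_add_distrib]
  linarith

/-- the part of the sum with `q ∤ r` -/
lemma part_nd (a : ℤ) (q : ℕ) (hq : 1 ≤ q) (hco : IsCoprime a (q : ℤ)) (X : ℕ) :
    ∑ n ∈ (range X).filter (fun n : ℕ => (a * ((n : ℤ) + 1)) % q ≠ 0),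
      (1 / (((a * ((n : ℤ) + 1)) % q : ℤ) : ℝ) + 1 / ((q : ℝ) - (((a * ((n : ℤ) + 1)) % q : ℤ) : ℝ)))
      ≤ ((X : ℝ) / q + 1) * (2 * (1 + Real.log q)) := by
  have hqz : (q : ℤ) ≠ 0 := by positivity
  have hq0 : (0 : ℝ) < q := by exact_mod_cast hq
  have hmaps : ∀ n ∈ (range X).filter (fun n : ℕ => (a * ((n : ℤ) + 1)) % q ≠ 0),
      ((a * ((n : ℤ) + 1)) % q).toNat ∈ Ico 1 q := by
    intro n hn
    rw [mem_filter] at hn
    have h1 : 0 ≤ (a * ((n : ℤ) + 1)) % q := Int.emod_nonneg _ hqz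
    have h2 : (a * ((n : ℤ) + 1)) % q < q := Int.emod_lt_of_pos _ (by positivity)
    rw [mem_Ico]
    omega
  rw [← sum_fiberwise_of_maps_to hmaps]
  have key : ∀ c ∈ Ico 1 q,
      ∑ n ∈ ((range X).filter (fun n : ℕ => (a * ((n : ℤ) + 1)) % q ≠ 0)).filter
        (fun n : ℕ => ((a * ((n : ℤ) + 1)) % q).toNat = c),
        (1 / (((a * ((n : ℤ) + 1)) % q : ℤ) : ℝ) + 1 / ((q : ℝ) - (((a * ((n : ℤ) + 1)) % q : ℤ) : ℝ)))
      ≤ ((X : ℝ) / q + 1) * (1 / (c : ℝ) + 1 / ((q : ℝ) - c)) := by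
    intro c hc
    rw [mem_Ico] at hc
    have hg : (0 : ℝ) ≤ 1 / (c : ℝ) + 1 / ((q : ℝ) - c) := by
      have : (c : ℝ) < q := by exact_mod_cast hc.2
      have h1 : 0 ≤ 1 / (c : ℝ) := by positivity
      have h2 : 0 ≤ 1 / ((q : ℝ) - c) := by
        apply div_nonneg zero_le_one
        linarith
      linarith
    have h1 : ∀ n ∈ ((range X).filter (fun n : ℕ => (a * ((n : ℤ) + 1)) % q ≠ 0)).filter
        (fun n : ℕ => ((a * ((n : ℤ) + 1)) % q).toNat = c),
        (1 / (((a * ((n : ℤ) + 1)) % q : ℤ) : ℝ) + 1 / ((q : ℝ) - (((a * ((n : ℤ) + 1)) % q : ℤ) : ℝ)))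
        = 1 / (c : ℝ) + 1 / ((q : ℝ) - c) := by
      intro n hn
      rw [mem_filter] at hn
      have h2 : 0 ≤ (a * ((n : ℤ) + 1)) % q := Int.emod_nonneg _ hqz
      have h3 : (a * ((n : ℤ) + 1)) % q = (c : ℤ) := by
        have := hn.2
        omega
      rw [h3]
      push_cast
      ring
    rw [sum_congr rfl h1, sum_const, nsmul_eq_mul]
    apply mul_le_mul_of_nonneg_right _ hg
    have h4 := card_class a q hq hco X c
    have h5 : (((range X).filter (fun n : ℕ => (a * ((n : ℤ) + 1)) % q ≠ 0)).filter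
        (fun n : ℕ => ((a * ((n : ℤ) + 1)) % q).toNat = c)).card ≤ X / q + 1 := by
      refine le_trans (card_le_card ?_) h4
      intro n hn
      rw [mem_filter, mem_filter] at hn
      rw [mem_filter]
      exact ⟨hn.1.1, hn.2⟩
    calc ((((range X).filter (fun n : ℕ => (a * ((n : ℤ) + 1)) % q ≠ 0)).filter
        (fun n : ℕ => ((a * ((n : ℤ) + 1)) % q).toNat = c)).card : ℝ) ≤ ((X / q + 1 : ℕ) : ℝ) := by
          exact_mod_cast h5
      _ ≤ (X : ℝ) / q + 1 := by
        push_cast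
        have := @Nat.cast_div_le ℝ _ _ _ X q
        linarith
  refine (sum_le_sum key).trans ?_
  rw [← mul_sum]
  apply mul_le_mul_of_nonneg_left (gsum_le q hq)
  positivity

/-- the part of the sum with `q ∣ r` -/
lemma part_d (q : ℕ) (hq : 1 ≤ q) (X : ℕ) (B : ℕ → ℝ) :
    ∑ n ∈ (range X).filter (fun n : ℕ => q ∣ n + 1), B (n + 1)
      = ∑ j ∈ range (X / q), B (q * (j + 1)) := by
  have hset : (range X).filter (fun n : ℕ => q ∣ n + 1)
      = (range (X / q)).image (fun j => q * (j + 1) - 1) := by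
    ext n
    simp only [mem_filter, mem_range, mem_image]
    constructor
    · rintro ⟨h1, k, hk⟩
      have hk0 : k ≠ 0 := by
        rintro rfl
        simp at hk
      refine ⟨k - 1, ?_, ?_⟩
      · have h2 : q * k ≤ X := by omega
        have h3 : k ≤ X / q := (Nat.le_div_iff_mul_le (by omega)).2 (by rw [mul_comm]; exact h2)
        omega
      · rw [Nat.sub_add_cancel (by omega)]
        omega
    · rintro ⟨j, hj, rfl⟩
      have h1 : (j + 1) * q ≤ X := (Nat.le_div_iff_mul_le (by omega)).1 hj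
      have h2 : 1 ≤ q * (j + 1) := Nat.mul_pos (by omega) (by omega)
      constructor
      · rw [mul_comm] at h1
        omega
      · rw [Nat.sub_add_cancel h2]
        exact dvd_mul_right _ _
  rw [hset, sum_image]
  · apply sum_congr rfl
    intro j _
    have h2 : 1 ≤ q * (j + 1) := Nat.mul_pos (by omega) (by omega)
    rw [Nat.sub_add_cancel h2]
  · intro j _ j' _ h
    simp only at h
    have h2 : 1 ≤ q * (j + 1) := Nat.mul_pos (by omega) (by omega)
    have h3 : 1 ≤ q * (j' + 1) := Nat.mul_pos (by omega) (by omega)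
    have h4 : q * (j + 1) = q * (j' + 1) := by omega
    have h5 : j + 1 = j' + 1 := Nat.eq_of_mul_eq_mul_left (by omega) h4
    omega

/-- MIN-SUM lemma. -/
theorem min_sum (γ θ X1 : ℝ) (a : ℤ) (q X2 : ℕ) (hq : 1 ≤ q) (hco : IsCoprime a (q : ℤ))
    (hγ : γ = a / q + θ) (hθ : |θ| * q * X2 ≤ 1 / 4) (hX1 : 0 ≤ X1) (F : ℤ → ℝ)
    (hF1 : ∀ r, F r ≤ X1) (hF2 : ∀ r, F r * (2 * nd (γ * r)) ≤ 1) :
    ∑ r ∈ Ioo (-(X2 : ℤ)) (X2 : ℤ), F r
      ≤ X1 + 4 * (1 + Real.log X2) * (X1 * X2 / (q * (1 + |θ| * X1 * X2)))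
        + 8 / 3 * (X2 + q) * (1 + Real.log q) := by
  have hq0 : (0 : ℝ) < q := by exact_mod_cast hq
  have hqz : (q : ℤ) ≠ 0 := by positivity
  have hθ0 := abs_nonneg θ
  have hlogq : 0 ≤ Real.log q := Real.log_nonneg (by exact_mod_cast hq)
  rcases Nat.eq_zero_or_pos X2 with h0 | hX2
  · subst h0
    simp only [Nat.cast_zero, neg_zero, Ioo_self, sum_empty, mul_zero, zero_div, zero_add,
      add_zero]
    positivity
  obtain ⟨X, rfl⟩ : ∃ X, X2 = X + 1 := ⟨X2 - 1, by omega⟩
  have hlogX : 0 ≤ Real.log ((X + 1 : ℕ) : ℝ) := Real.log_nonneg (by exact_mod_cast hX2)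
  have hcast : ((X + 1 : ℕ) : ℤ) = (X : ℤ) + 1 := by push_cast; ring
  rw [hcast, sum_Ioo]
  have hX1R : (X : ℝ) ≤ ((X + 1 : ℕ) : ℝ) := by push_cast; linarith
  -- split the sum
  rw [← sum_filter_add_sum_filter_not (range X) (fun n : ℕ => q ∣ n + 1)]
  -- bound for r
  have hsmall : ∀ n : ℕ, n < X → |θ * ((n : ℝ) + 1)| ≤ 1 / (4 * q) := by
    intro n hn
    rw [abs_mul, abs_of_nonneg (by positivity : (0 : ℝ) ≤ (n : ℝ) + 1)]
    have h1 : (n : ℝ) + 1 ≤ ((X + 1 : ℕ) : ℝ) := by
      have : n + 1 ≤ X + 1 := by omega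
      exact_mod_cast this
    rw [le_div_iff₀ (by positivity)]
    have h2 : |θ| * ((n : ℝ) + 1) ≤ |θ| * ((X + 1 : ℕ) : ℝ) := mul_le_mul_of_nonneg_left h1 hθ0
    nlinarith [hθ, h2, hq0]
  -- nd of gamma * r in terms of n
  have hnd : ∀ n : ℕ, n < X → (a * ((n : ℤ) + 1)) % q ≠ 0 →
      3 / 4 * nd (((a * ((n : ℤ) + 1) : ℤ) : ℝ) / q) ≤ nd (γ * (((n : ℤ) + 1 : ℤ) : ℝ)) := by
    intro n hn hne
    have h1 := (nd_frac_ge (a * ((n : ℤ) + 1)) q hq hne).2
    have h2 := hsmall n hn
    have h3 := nd_add_ge (((a * ((n : ℤ) + 1) : ℤ) : ℝ) / q) (θ * ((n : ℝ) + 1))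
    have h4 : ((a * ((n : ℤ) + 1) : ℤ) : ℝ) / q + θ * ((n : ℝ) + 1)
        = γ * (((n : ℤ) + 1 : ℤ) : ℝ) := by
      rw [hγ]
      push_cast
      field_simp
    rw [h4] at h3
    have h5 : 1 / (4 * (q : ℝ)) = (1 / q) / 4 := by field_simp
    linarith
  have hFb : ∀ r : ℤ, ∀ d : ℝ, 0 < d → d ≤ nd (γ * r) → F r ≤ 1 / (2 * d) := by
    intro r d hd hle
    rw [le_div_iff₀ (by positivity)]
    rcases le_or_gt (F r) 0 with h | h
    · nlinarith
    · have := hF2 r
      nlinarith
  have hsym : ∀ r : ℤ, nd (γ * ((-r : ℤ) : ℝ)) = nd (γ * (r : ℝ)) := by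
    intro r
    rw [← nd_neg]
    congr 1
    push_cast
    ring
  -- part 2
  have part2 : ∑ n ∈ (range X).filter (fun n : ℕ => ¬ q ∣ n + 1),
      (F ((n : ℤ) + 1) + F (-((n : ℤ) + 1))) ≤ 8 / 3 * (((X + 1 : ℕ) : ℝ) + q) * (1 + Real.log q) := by
    have hiff : ∀ n : ℕ, (¬ q ∣ n + 1) ↔ (a * ((n : ℤ) + 1)) % q ≠ 0 := by
      intro n
      rw [not_iff_not]
      rw [← Int.dvd_iff_emod_eq_zero]
      constructor
      · intro h
        apply Dvd.dvd.mul_left
        have : ((q : ℕ) : ℤ) ∣ ((n + 1 : ℕ) : ℤ) := Int.natCast_dvd_natCast.2 h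
        push_cast at this
        exact this
      · intro h
        have h1 : (q : ℤ) ∣ (n : ℤ) + 1 := (IsCoprime.symm hco).dvd_of_dvd_mul_left h
        have : ((q : ℕ) : ℤ) ∣ ((n + 1 : ℕ) : ℤ) := by
          push_cast
          exact h1
        exact Int.natCast_dvd_natCast.1 this
    have hset : (range X).filter (fun n : ℕ => ¬ q ∣ n + 1)
        = (range X).filter (fun n : ℕ => (a * ((n : ℤ) + 1)) % q ≠ 0) := by
      apply filter_congr
      intro n _
      exact hiff n
    rw [hset]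
    have hb : ∀ n ∈ (range X).filter (fun n : ℕ => (a * ((n : ℤ) + 1)) % q ≠ 0),
        F ((n : ℤ) + 1) + F (-((n : ℤ) + 1)) ≤ 4 / 3 * q *
          (1 / (((a * ((n : ℤ) + 1)) % q : ℤ) : ℝ)
            + 1 / ((q : ℝ) - (((a * ((n : ℤ) + 1)) % q : ℤ) : ℝ))) := by
      intro n hn
      rw [mem_filter, mem_range] at hn
      have h1 := nd_frac_ge (a * ((n : ℤ) + 1)) q hq hn.2
      have h2 := hnd n hn.1 hn.2
      have hpos : 0 < nd (((a * ((n : ℤ) + 1) : ℤ) : ℝ) / q) :=
        lt_of_lt_of_le (by positivity) h1.2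
      have h3 := hFb ((n : ℤ) + 1) (3 / 4 * nd (((a * ((n : ℤ) + 1) : ℤ) : ℝ) / q))
        (by positivity) h2
      have h4 := hFb (-((n : ℤ) + 1)) (3 / 4 * nd (((a * ((n : ℤ) + 1) : ℤ) : ℝ) / q))
        (by positivity) (by rw [hsym]; exact h2)
      have h5 : 1 / (2 * (3 / 4 * nd (((a * ((n : ℤ) + 1) : ℤ) : ℝ) / q)))
          = 2 / 3 * (1 / nd (((a * ((n : ℤ) + 1) : ℤ) : ℝ) / q)) := by
        field_simp
        norm_num
      rw [h5] at h3 h4
      have h6 := h1.1
      calc F ((n : ℤ) + 1) + F (-((n : ℤ) + 1))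
          ≤ 4 / 3 * (1 / nd (((a * ((n : ℤ) + 1) : ℤ) : ℝ) / q)) := by linarith
        _ ≤ 4 / 3 * (q * (1 / (((a * ((n : ℤ) + 1)) % q : ℤ) : ℝ)
            + 1 / ((q : ℝ) - (((a * ((n : ℤ) + 1)) % q : ℤ) : ℝ)))) := by
          linarith
        _ = _ := by ring
    refine (sum_le_sum hb).trans ?_
    rw [← mul_sum]
    have h7 := part_nd a q hq hco X
    have h8 : 4 / 3 * (q : ℝ) * (((X : ℝ) / q + 1) * (2 * (1 + Real.log q)))
        = 8 / 3 * ((X : ℝ) + q) * (1 + Real.log q) := by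
      field_simp
      ring
    calc _ ≤ 4 / 3 * (q : ℝ) * (((X : ℝ) / q + 1) * (2 * (1 + Real.log q))) :=
          mul_le_mul_of_nonneg_left h7 (by positivity)
      _ = 8 / 3 * ((X : ℝ) + q) * (1 + Real.log q) := h8
      _ ≤ _ := by
        apply mul_le_mul_of_nonneg_right _ (by linarith)
        linarith
  -- part 1
  have part1 : ∑ n ∈ (range X).filter (fun n : ℕ => q ∣ n + 1),
      (F ((n : ℤ) + 1) + F (-((n : ℤ) + 1)))
      ≤ 4 * (1 + Real.log ((X + 1 : ℕ) : ℝ)) *
        (X1 * ((X + 1 : ℕ) : ℝ) / (q * (1 + |θ| * X1 * ((X + 1 : ℕ) : ℝ)))) := by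
    set Y : ℝ := ((X + 1 : ℕ) : ℝ) with hY
    have hY1 : (1 : ℝ) ≤ Y := by
      rw [hY]
      exact_mod_cast hX2
    have hdivY : ((X / q : ℕ) : ℝ) ≤ Y / q := by
      have := @Nat.cast_div_le ℝ _ _ _ X q
      refine this.trans ?_
      apply div_le_div_of_nonneg_right _ hq0.le
      rw [hY]
      push_cast
      linarith
    rcases le_or_gt (|θ| * X1 * Y) 1 with hA | hA
    · -- trivial bound
      have h1 : ∑ n ∈ (range X).filter (fun n : ℕ => q ∣ n + 1),
          (F ((n : ℤ) + 1) + F (-((n : ℤ) + 1)))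
          ≤ ∑ n ∈ (range X).filter (fun n : ℕ => q ∣ n + 1), (fun _ : ℕ => 2 * X1) (n + 1) := by
        apply sum_le_sum
        intro n _
        have e1 := hF1 ((n : ℤ) + 1)
        have e2 := hF1 (-((n : ℤ) + 1))
        simp only
        linarith
      refine h1.trans ?_
      rw [part_d q hq X (fun _ : ℕ => 2 * X1)]
      rw [sum_const, card_range, nsmul_eq_mul]
      have h2 : ((X / q : ℕ) : ℝ) * (2 * X1) ≤ Y / q * (2 * X1) :=
        mul_le_mul_of_nonneg_right hdivY (by linarith)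
      refine h2.trans ?_
      have h3 : Y / q * (2 * X1) ≤ 4 * (X1 * Y / (q * (1 + |θ| * X1 * Y))) := by
        have hd : 0 < 1 + |θ| * X1 * Y := by positivity
        rw [show Y / q * (2 * X1) = 2 * (X1 * Y) / q by ring]
        rw [show 4 * (X1 * Y / (q * (1 + |θ| * X1 * Y)))
          = (4 * (X1 * Y)) / (q * (1 + |θ| * X1 * Y)) by ring]
        rw [div_le_div_iff₀ hq0 (by positivity)]
        have : 0 ≤ X1 * Y := by positivity
        have h5 : 2 * (X1 * Y) * (1 + |θ| * X1 * Y) ≤ 4 * (X1 * Y) := by nlinarith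
        nlinarith
      refine h3.trans ?_
      have h4 : 0 ≤ X1 * Y / (q * (1 + |θ| * X1 * Y)) := by positivity
      nlinarith
    · -- use the distance
      have hθpos : 0 < |θ| := by
        rcases hθ0.lt_or_eq with h | h
        · exact h
        · rw [← h] at hA
          norm_num at hA
      have hX1pos : 0 < X1 := by
        rcases hX1.lt_or_eq with h | h
        · exact h
        · rw [← h] at hA
          norm_num at hA
      have h1 : ∑ n ∈ (range X).filter (fun n : ℕ => q ∣ n + 1),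
          (F ((n : ℤ) + 1) + F (-((n : ℤ) + 1)))
          ≤ ∑ n ∈ (range X).filter (fun n : ℕ => q ∣ n + 1),
            (fun k : ℕ => 1 / (|θ| * (k : ℝ))) (n + 1) := by
        apply sum_le_sum
        intro n hn
        rw [mem_filter, mem_range] at hn
        obtain ⟨k, hk⟩ := hn.2
        have hs := hsmall n hn.1
        have hkR : (n : ℝ) + 1 = q * k := by exact_mod_cast hk
        have e0 : nd (γ * (((n : ℤ) + 1 : ℤ) : ℝ)) = |θ| * ((n : ℝ) + 1) := by
          have e1 : γ * (((n : ℤ) + 1 : ℤ) : ℝ)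
              = (((a * k : ℤ)) : ℝ) + θ * ((n : ℝ) + 1) := by
            rw [hγ]
            push_cast
            rw [hkR]
            field_simp
          rw [e1, nd_int_add, nd_eq_abs]
          · rw [abs_mul, abs_of_nonneg (by positivity : (0 : ℝ) ≤ (n : ℝ) + 1)]
          · refine lt_of_le_of_lt hs ?_
            rw [div_lt_div_iff₀ (by positivity) (by norm_num)]
            have : (1 : ℝ) ≤ q := by exact_mod_cast hq
            linarith
        have hpos : 0 < |θ| * ((n : ℝ) + 1) := by positivity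
        have e2 := hFb ((n : ℤ) + 1) (|θ| * ((n : ℝ) + 1)) hpos (le_of_eq e0.symm)
        have e3 := hFb (-((n : ℤ) + 1)) (|θ| * ((n : ℝ) + 1)) hpos
          (by rw [hsym]; exact (le_of_eq e0.symm))
        have e4 : 1 / (2 * (|θ| * ((n : ℝ) + 1))) = (1 / (|θ| * ((n : ℝ) + 1))) / 2 := by
          field_simp
        rw [e4] at e2 e3
        simp only
        push_cast
        linarith
      refine h1.trans ?_
      rw [part_d q hq X (fun k : ℕ => 1 / (|θ| * (k : ℝ)))]
      have h2 : ∑ j ∈ range (X / q), (fun k : ℕ => 1 / (|θ| * (k : ℝ))) (q * (j + 1))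
          = 1 / (|θ| * q) * ∑ j ∈ range (X / q), 1 / ((j : ℝ) + 1) := by
        rw [mul_sum]
        apply sum_congr rfl
        intro j _
        simp only
        push_cast
        field_simp
      rw [h2]
      have h3 := harm_le (X / q)
      have h4 : Real.log ((X / q : ℕ) : ℝ) ≤ Real.log Y := by
        rcases Nat.eq_zero_or_pos (X / q) with h | h
        · rw [h]
          simp only [Nat.cast_zero, Real.log_zero]
          exact hlogX
        · apply Real.log_le_log (by exact_mod_cast h)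
          refine hdivY.trans ?_
          apply div_le_self (by linarith)
          exact_mod_cast hq
      have h5 : 1 / (|θ| * q) * ∑ j ∈ range (X / q), 1 / ((j : ℝ) + 1)
          ≤ 1 / (|θ| * q) * (1 + Real.log Y) :=
        mul_le_mul_of_nonneg_left (h3.trans (by linarith)) (by positivity)
      refine h5.trans ?_
      have h6 : 1 / (|θ| * q) ≤ 4 * (X1 * Y / (q * (1 + |θ| * X1 * Y))) := by
        rw [show 4 * (X1 * Y / (q * (1 + |θ| * X1 * Y)))
          = (4 * (X1 * Y)) / (q * (1 + |θ| * X1 * Y)) by ring]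
        rw [div_le_div_iff₀ (by positivity) (by positivity)]
        have : 1 + |θ| * X1 * Y ≤ 4 * (|θ| * X1 * Y) := by linarith
        nlinarith
      have hl : 0 ≤ 1 + Real.log Y := by
        have := hlogX
        linarith
      calc 1 / (|θ| * q) * (1 + Real.log Y)
          ≤ (4 * (X1 * Y / (q * (1 + |θ| * X1 * Y)))) * (1 + Real.log Y) :=
            mul_le_mul_of_nonneg_right h6 hl
        _ = _ := by ring
  have hF0 := hF1 0
  linarith

end MinSum
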