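import Pool.Agent.Lib_MP_008adc_c3.B1
import Pool.Agent.Lib_MP_008adc_c3.MinSum
import Pool.Agent.Lib_MP_008adc_c3.GcdAv

/-!
# MASTER: bilinear sums, the min-sum and the gcd average together
-/

set_option autoImplicit false

open Finset

namespace Pool.Agent.HadNT

open HadLLL

theorem G_mul_nd_le {X x : ℝ} : G X x * (2 * MinSum.nd x) ≤ 1 := by
  have h0 : MinSum.nd x = nd x := rfl
  rw [h0]
  have hn := nd_nonneg x
  rcases eq_or_lt_of_le hn with h | h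
  · rw [← h]; simp
  · calc G X x * (2 * nd x) ≤ 1 / (2 * nd x) * (2 * nd x) :=
          mul_le_mul_of_nonneg_right (G_le' X x h) (by positivity)
      _ = 1 := by field_simp

/-- one `w` -/
theorem master_one {α β : ℝ} {a : ℤ} {q : ℕ} (hq : 1 ≤ q) (hco : IsCoprime a (q : ℤ))
    (hα : α = a / q + β) {U V : Finset ℕ} {X1 X2 w : ℕ} {N : ℝ}
    (hU : ∀ u ∈ U, u < X1) (hV : ∀ v ∈ V, v < X2) (hw : 0 < w)
    (hN1 : N / 4 ≤ (w : ℝ) * X1 * X2) (hN2 : (w : ℝ) * X1 * X2 ≤ N)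
    (hβ : 4 * (q * |β| * N) ≤ X1) (hX1 : 0 < X1) (hN : 0 ≤ N) :
    ‖∑ u ∈ U, ∑ v ∈ V, eR (α * w * u * v)‖ ^ 2 ≤ U.card * V.card *
      (X1 + 8 / 3 * (X2 + q) * (1 + Real.log q) +
        16 * (1 + Real.log X2) * (X1 * X2 / (q * (1 + |β| * N))) * (Nat.gcd q w : ℝ)) := by
  have hqpos : 0 < q := hq
  set g := Nat.gcd q w with hg
  have hgpos : 0 < g := Nat.gcd_pos_of_pos_left w hqpos
  obtain ⟨q', hq'⟩ : g ∣ q := Nat.gcd_dvd_left q w
  obtain ⟨w', hw'⟩ : g ∣ w := Nat.gcd_dvd_right q w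
  have hq'pos : 0 < q' := by
    rcases Nat.eq_zero_or_pos q' with h | h
    · rw [h, mul_zero] at hq'; omega
    · exact h
  have hcop : Nat.Coprime q' w' := by
    have h1 : g * 1 = g * Nat.gcd q' w' := by
      rw [← Nat.gcd_mul_left, ← hq', ← hw', mul_one]
    exact (Nat.eq_of_mul_eq_mul_left hgpos h1).symm
  have hco' : IsCoprime (a * (w' : ℤ)) (q' : ℤ) := by
    refine IsCoprime.mul_left ?_ ?_
    · refine IsCoprime.of_isCoprime_of_dvd_right hco ?_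
      exact ⟨(g : ℤ), by rw [hq']; push_cast; ring⟩
    · exact (Nat.isCoprime_iff_coprime.2 hcop).symm
  have hgR : (0 : ℝ) < g := by exact_mod_cast hgpos
  have hq'R : (0 : ℝ) < q' := by exact_mod_cast hq'pos
  have hqR : (q : ℝ) = g * q' := by exact_mod_cast hq'
  have hwR : (w : ℝ) = g * w' := by exact_mod_cast hw'
  have hX1R : (0 : ℝ) < X1 := by exact_mod_cast hX1
  have hX2R : (0 : ℝ) ≤ X2 := Nat.cast_nonneg _
  have hwR0 : (0 : ℝ) < w := by exact_mod_cast hw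
  have hβ0 := abs_nonneg β
  have hq0 : (0 : ℝ) < q := by exact_mod_cast hqpos
  have hγ : α * w = ((a * (w' : ℤ) : ℤ) : ℝ) / q' + β * w := by
    rw [hα, add_mul]
    congr 1
    push_cast
    rw [hqR, hwR]
    field_simp
  have hq'q : (q' : ℝ) ≤ q := by
    have : q' ≤ q := by rw [hq']; exact Nat.le_mul_of_pos_left q' hgpos
    exact_mod_cast this
  have hθ : |β * w| * q' * X2 ≤ 1 / 4 := by
    rw [abs_mul, abs_of_pos hwR0]
    have h1 : |β| * w * q' * X2 * X1 ≤ q * |β| * N := by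
      calc |β| * w * q' * X2 * X1 = |β| * q' * (w * X1 * X2) := by ring
        _ ≤ |β| * q * N := by
            refine mul_le_mul (mul_le_mul_of_nonneg_left hq'q hβ0) hN2 (by positivity)
              (by positivity)
        _ = q * |β| * N := by ring
    have h2 : |β| * w * q' * X2 * X1 ≤ 1 / 4 * X1 := by linarith
    exact le_of_mul_le_mul_right h2 hX1R
  have hms := MinSum.min_sum (α * w) (β * w) X1 (a * (w' : ℤ)) q' X2 hq'pos hco' hγ hθ hX1R.le
    (fun r => G X1 (α * w * r)) (fun r => G_le _ _) (fun r => G_mul_nd_le)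
  have hbl := bilinear (α * w) U V X1 X2 hU hV
  refine hbl.trans ?_
  refine mul_le_mul_of_nonneg_left (hms.trans ?_) (mul_nonneg (Nat.cast_nonneg _) (Nat.cast_nonneg _))
  have hlX2 : 0 ≤ 1 + Real.log X2 := by
    have := Real.log_natCast_nonneg X2
    linarith
  have hlq : Real.log q' ≤ Real.log q := Real.log_le_log hq'R hq'q
  have hlq0 : 0 ≤ Real.log q' := Real.log_natCast_nonneg q'
  have h3 : (8 : ℝ) / 3 * (X2 + q') * (1 + Real.log q') ≤ 8 / 3 * (X2 + q) * (1 + Real.log q) := by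
    refine mul_le_mul (mul_le_mul_of_nonneg_left (by linarith) (by norm_num)) (by linarith)
      (by linarith) (by positivity)
  have h4 : (X1 : ℝ) * X2 / (q' * (1 + |β * w| * X1 * X2)) ≤
      4 * (X1 * X2 / (q * (1 + |β| * N))) * g := by
    rw [abs_mul, abs_of_pos hwR0]
    have h5 : (1 + |β| * N) / 4 ≤ 1 + |β| * w * X1 * X2 := by
      have h6 : |β| * (N / 4) ≤ |β| * (w * X1 * X2) := mul_le_mul_of_nonneg_left hN1 hβ0
      nlinarith
    have h6 : 0 < 1 + |β| * N := by positivity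
    calc (X1 : ℝ) * X2 / (q' * (1 + |β| * w * X1 * X2)) ≤
          X1 * X2 / (q' * ((1 + |β| * N) / 4)) := by
          refine div_le_div_of_nonneg_left (by positivity) (by positivity) ?_
          exact mul_le_mul_of_nonneg_left h5 hq'R.le
      _ = 4 * (X1 * X2 / (q * (1 + |β| * N))) * g := by
          rw [hqR]
          field_simp
  have h7 : 4 * (1 + Real.log X2) * (X1 * X2 / (q' * (1 + |β * w| * X1 * X2))) ≤
      16 * (1 + Real.log X2) * (X1 * X2 / (q * (1 + |β| * N))) * g := by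
    calc 4 * (1 + Real.log X2) * (X1 * X2 / (q' * (1 + |β * w| * X1 * X2)))
        ≤ 4 * (1 + Real.log X2) * (4 * (X1 * X2 / (q * (1 + |β| * N))) * g) :=
          mul_le_mul_of_nonneg_left h4 (by positivity)
      _ = _ := by ring
  linarith

/-- MASTER 1 -/
theorem master1 {α β : ℝ} {a : ℤ} {q : ℕ} (hq : 1 ≤ q) (hco : IsCoprime a (q : ℤ))
    (hα : α = a / q + β) {U V W : Finset ℕ} {X1 X2 : ℕ} {N : ℝ}
    (hU : ∀ u ∈ U, u < X1) (hV : ∀ v ∈ V, v < X2) (hW : ∀ w ∈ W, 0 < w)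
    (hN1 : ∀ w ∈ W, N / 4 ≤ (w : ℝ) * X1 * X2) (hN2 : ∀ w ∈ W, (w : ℝ) * X1 * X2 ≤ N)
    (hβ : 4 * (q * |β| * N) ≤ X1) (hX1 : 0 < X1) (hN : 0 ≤ N) :
    ‖∑ w ∈ W, ∑ u ∈ U, ∑ v ∈ V, eR (α * w * u * v)‖ ^ 2 ≤ W.card * U.card * V.card *
      (W.card * (X1 + 8 / 3 * (X2 + q) * (1 + Real.log q)) +
        16 * (1 + Real.log X2) * (X1 * X2 / (q * (1 + |β| * N))) * ∑ w ∈ W, (Nat.gcd q w : ℝ)) := by
  calc ‖∑ w ∈ W, ∑ u ∈ U, ∑ v ∈ V, eR (α * w * u * v)‖ ^ 2
      ≤ (∑ w ∈ W, ‖∑ u ∈ U, ∑ v ∈ V, eR (α * w * u * v)‖) ^ 2 := by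
        gcongr
        exact norm_sum_le _ _
    _ ≤ W.card * ∑ w ∈ W, ‖∑ u ∈ U, ∑ v ∈ V, eR (α * w * u * v)‖ ^ 2 :=
        sq_sum_le_card_mul_sum_sq
    _ ≤ W.card * ∑ w ∈ W, U.card * V.card *
      (X1 + 8 / 3 * (X2 + q) * (1 + Real.log q) +
        16 * (1 + Real.log X2) * (X1 * X2 / (q * (1 + |β| * N))) * (Nat.gcd q w : ℝ)) := by
        refine mul_le_mul_of_nonneg_left (sum_le_sum fun w hw => ?_) (Nat.cast_nonneg _)
        exact master_one hq hco hα hU hV (hW w hw) (hN1 w hw) (hN2 w hw) hβ hX1 hN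
    _ = _ := by
        rw [← mul_sum, sum_add_distrib, sum_const, ← mul_sum, nsmul_eq_mul]
        ring

end Pool.Agent.HadNT
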