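import Pool.Agent.Lib_MP_008adc_c3.B1

/-!
# `MP_008adc_co`, piece B2: the sum of `min (X₁, 1/(2‖γ r‖))`
-/

set_option autoImplicit false

open scoped BigOperators

noncomputable section

namespace Pool.Agent.HadC3

/-- distance to the nearest integer -/
def nrm (x : ℝ) : ℝ := |x - round x|

/-- `min (X, 1/(2‖x‖))` -/
def mn (X x : ℝ) : ℝ := if 2 * nrm x * X ≤ 1 then X else 1 / (2 * nrm x)

theorem nrm_nonneg (x : ℝ) : 0 ≤ nrm x := abs_nonneg _

theorem nrm_le_int (x : ℝ) (n : ℤ) : nrm x ≤ |x - n| := round_le x n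

theorem nrm_le_half (x : ℝ) : nrm x ≤ 1 / 2 := abs_sub_round x

theorem nrm_le_add (x y : ℝ) : nrm x ≤ nrm (x + y) + |y| := by
  refine (nrm_le_int x (round (x + y))).trans ?_
  have h : x - (round (x + y) : ℝ) = (x + y - round (x + y)) - y := by ring
  rw [h]
  exact (abs_sub _ _)

theorem nrm_neg (x : ℝ) : nrm (-x) = nrm x := by
  refine le_antisymm ?_ ?_
  · refine (nrm_le_int (-x) (-round x)).trans ?_
    rw [← abs_neg]
    refine le_of_eq ?_
    unfold nrm
    congr 1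
    push_cast
    ring
  · refine (nrm_le_int x (-round (-x))).trans ?_
    rw [← abs_neg]
    refine le_of_eq ?_
    unfold nrm
    congr 1
    push_cast
    ring

theorem nrm_add_int (x : ℝ) (n : ℤ) : nrm (x + n) = nrm x := by
  unfold nrm
  rw [round_add_intCast]
  congr 1
  push_cast
  ring

theorem nrm_small {x : ℝ} (h : |x| ≤ 1 / 2) : nrm x = |x| := by
  refine le_antisymm ?_ ?_
  · simpa using nrm_le_int x 0
  · unfold nrm
    by_cases hn : round x = 0
    · rw [hn]; simp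
    · have h1 : (1 : ℝ) ≤ |((round x : ℤ) : ℝ)| := by
        rw [← Int.cast_abs]
        exact_mod_cast Int.one_le_abs hn
      have h2 : |((round x : ℤ) : ℝ)| ≤ |x - round x| + |x| := by
        have : ((round x : ℤ) : ℝ) = -(x - round x) + x := by ring
        calc |((round x : ℤ) : ℝ)| = |-(x - round x) + x| := by rw [← this]
          _ ≤ |-(x - round x)| + |x| := abs_add_le _ _
          _ = |x - round x| + |x| := by rw [abs_neg]
      linarith

theorem nrm_frac_ge {q : ℕ} (hq : 0 < q) {m : ℤ} (h : ¬ (q : ℤ) ∣ m) :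
    1 / (q : ℝ) ≤ nrm ((m : ℝ) / q) := by
  have hq' : (0 : ℝ) < q := by exact_mod_cast hq
  unfold nrm
  set n := round ((m : ℝ) / q)
  have h1 : m - n * q ≠ 0 := fun h0 => h ⟨n, by linarith⟩
  have h2 : (1 : ℝ) ≤ |((m - n * q : ℤ) : ℝ)| := by
    rw [← Int.cast_abs]
    exact_mod_cast Int.one_le_abs h1
  have h3 : (m : ℝ) / q - n = ((m - n * q : ℤ) : ℝ) / q := by
    push_cast
    field_simp
  rw [h3, abs_div, abs_of_pos hq']
  exact div_le_div_of_nonneg_right h2 hq'.le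

/-- the distance of `c / q` to the integers, `0 < c < q` -/
theorem inv_nrm_frac_le {q c : ℕ} (hc : 0 < c) (hcq : c < q) :
    1 / nrm ((c : ℝ) / q) ≤ q / c + q / ((q : ℝ) - c) := by
  have hq' : (0 : ℝ) < q := by exact_mod_cast hc.trans hcq
  have hc' : (0 : ℝ) < c := by exact_mod_cast hc
  have hcq' : (0 : ℝ) < (q : ℝ) - c := by
    have : (c : ℝ) < q := by exact_mod_cast hcq
    linarith
  have hx0 : 0 < (c : ℝ) / q := by positivity
  have hx1 : (c : ℝ) / q < 1 := by rw [div_lt_one hq']; linarith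
  rcases le_total ((c : ℝ) / q) (1 / 2) with h | h
  · have : nrm ((c : ℝ) / q) = c / q := by
      rw [nrm_small (by rw [abs_of_pos hx0]; exact h), abs_of_pos hx0]
    rw [this, one_div_div]
    have : 0 ≤ (q : ℝ) / (q - c) := by positivity
    linarith
  · have h4 : nrm ((c : ℝ) / q) = (q - c) / q := by
      have h5 : (c : ℝ) / q = ((c : ℝ) / q - 1) + (1 : ℤ) := by push_cast; ring
      rw [h5, nrm_add_int, nrm_small (by rw [abs_le]; constructor <;> linarith),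
        abs_of_neg (by linarith)]
      field_simp
      ring
    rw [h4, one_div_div]
    have : 0 ≤ (q : ℝ) / c := by positivity
    linarith

theorem mn_nonneg {X x : ℝ} (hX : 0 ≤ X) : 0 ≤ mn X x := by
  unfold mn
  have := nrm_nonneg x
  split_ifs
  · exact hX
  · positivity

theorem mn_le (X x : ℝ) : mn X x ≤ X := by
  unfold mn
  split_ifs with h
  · exact le_rfl
  · rw [not_le] at h
    have hn : 0 < nrm x := by
      rcases (nrm_nonneg x).eq_or_lt with h0 | h0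
      · rw [← h0] at h; norm_num at h
      · exact h0
    rw [div_le_iff₀ (by positivity)]
    nlinarith

theorem mn_le_inv {X x t : ℝ} (ht : 0 < t) (h : t ≤ nrm x) : mn X x ≤ 1 / (2 * t) := by
  have hn : 0 < nrm x := ht.trans_le h
  have h1 : 1 / (2 * nrm x) ≤ 1 / (2 * t) := by
    apply one_div_le_one_div_of_le <;> linarith
  unfold mn
  split_ifs with h2
  · refine le_trans ?_ h1
    rw [le_div_iff₀ (by positivity)]
    linarith
  · exact h1

theorem mn_neg (X x : ℝ) : mn X (-x) = mn X x := by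
  unfold mn
  rw [nrm_neg]

theorem sum_inv_le (n : ℕ) : ∑ j ∈ Finset.Icc 1 n, 1 / (j : ℝ) ≤ 1 + Real.log n := by
  have h := harmonic_le_one_add_log n
  have h2 : ((harmonic n : ℚ) : ℝ) = ∑ j ∈ Finset.Icc 1 n, 1 / (j : ℝ) := by
    rw [harmonic_eq_sum_Icc]
    push_cast
    refine Finset.sum_congr rfl fun j _ => ?_
    rw [one_div]
  rw [← h2]
  exact h

/-- one block of `q` consecutive integers, without the multiples of `q` -/
theorem block {q : ℕ} (hq : 0 < q) {a : ℤ} (ha : IsCoprime a (q : ℤ)) (s : ℕ) :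
    ∑ j ∈ Finset.range q, (if q ∣ s + j then 0 else 1 / nrm ((a * (s + j : ℕ) : ℝ) / q)) ≤
      2 * q * (1 + Real.log q) := by
  classical
  have hq' : (0 : ℝ) < q := by exact_mod_cast hq
  set c : ℕ → ℕ := fun j => ((a * (s + j : ℕ)) % q).toNat with hcdef
  have hqz : (0 : ℤ) < q := by exact_mod_cast hq
  have hc : ∀ j, ((c j : ℕ) : ℤ) = (a * (s + j : ℕ)) % q := fun j =>
    Int.toNat_of_nonneg (Int.emod_nonneg _ hqz.ne')
  have hclt : ∀ j, c j < q := fun j => by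
    have := Int.emod_lt_of_pos (a * (s + j : ℕ)) hqz
    rw [← hc j] at this
    exact_mod_cast this
  have hdvd : ∀ j, (q : ℤ) ∣ a * (s + j : ℕ) ↔ q ∣ s + j := fun j => by
    constructor
    · intro h
      exact_mod_cast ha.symm.dvd_of_dvd_mul_left h
    · intro h
      exact Dvd.dvd.mul_left (by exact_mod_cast h) _
  set S := (Finset.range q).filter fun j => ¬ q ∣ s + j with hS
  have hcpos : ∀ j ∈ S, 0 < c j := fun j hj => by
    rw [hS, Finset.mem_filter] at hj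
    rcases Nat.eq_zero_or_pos (c j) with h0 | h0
    · exfalso
      apply hj.2
      rw [← hdvd j]
      apply Int.dvd_of_emod_eq_zero
      rw [← hc j, h0]
      rfl
    · exact h0
  have hinj : Set.InjOn c (S : Set ℕ) := by
    intro i hi j hj hij
    have hi' : i < q := Finset.mem_range.1 (Finset.mem_filter.1 hi).1
    have hj' : j < q := Finset.mem_range.1 (Finset.mem_filter.1 hj).1
    have h1 : (a * (s + i : ℕ)) % q = (a * (s + j : ℕ)) % q := by
      rw [← hc i, ← hc j, hij]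
    have h2 : (q : ℤ) ∣ a * ((s + i : ℕ) - (s + j : ℕ) : ℤ) := by
      rw [mul_sub]
      exact Int.ModEq.dvd (show Int.ModEq q (a * (s + j : ℕ)) (a * (s + i : ℕ)) from h1.symm)
    have h3 : (q : ℤ) ∣ ((s + i : ℕ) - (s + j : ℕ) : ℤ) := ha.symm.dvd_of_dvd_mul_left h2
    have h4 : ((s + i : ℕ) - (s + j : ℕ) : ℤ) = (i : ℤ) - j := by push_cast; ring
    rw [h4] at h3
    have h5 : (i : ℤ) - j = 0 := by
      apply Int.eq_zero_of_abs_lt_dvd h3
      rw [abs_lt]
      constructor <;> omega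
    omega
  have hterm : ∀ j ∈ S, 1 / nrm ((a * (s + j : ℕ) : ℝ) / q) ≤
      q / (c j : ℝ) + q / ((q : ℝ) - c j) := by
    intro j hj
    have h6 : ((a * (s + j : ℕ) : ℝ) / q) = ((c j : ℝ) / q) +
        (((a * (s + j : ℕ)) / q : ℤ) : ℝ) := by
      have h7 := Int.emod_add_mul_ediv (a * (s + j : ℕ)) q
      rw [← hc j] at h7
      have h8 : ((a * (s + j : ℕ) : ℤ) : ℝ) =
          (c j : ℝ) + q * (((a * (s + j : ℕ)) / q : ℤ) : ℝ) := by
        exact_mod_cast h7.symm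
      have h9 : ((a * (s + j : ℕ) : ℤ) : ℝ) = (a * (s + j : ℕ) : ℝ) := by push_cast; ring
      rw [← h9, h8]
      field_simp
    rw [h6, nrm_add_int]
    exact inv_nrm_frac_le (hcpos j hj) (hclt j)
  have hsum : ∑ j ∈ Finset.range q, (if q ∣ s + j then 0 else 1 / nrm ((a * (s + j : ℕ) : ℝ) / q)) =
      ∑ j ∈ S, 1 / nrm ((a * (s + j : ℕ) : ℝ) / q) := by
    rw [hS, Finset.sum_filter]
    refine Finset.sum_congr rfl fun j _ => ?_
    split_ifs <;> simp_all
  rw [hsum]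
  refine (Finset.sum_le_sum hterm).trans ?_
  have himg : S.image c ⊆ Finset.Icc 1 (q - 1) := by
    intro x hx
    rw [Finset.mem_image] at hx
    obtain ⟨j, hj, rfl⟩ := hx
    rw [Finset.mem_Icc]
    have := hcpos j hj
    have := hclt j
    omega
  have h10 : ∑ j ∈ S, ((q : ℝ) / (c j : ℝ) + q / ((q : ℝ) - c j)) =
      ∑ x ∈ S.image c, ((q : ℝ) / (x : ℝ) + q / ((q : ℝ) - x)) := by
    rw [Finset.sum_image hinj]
  rw [h10]
  have h11 : ∑ x ∈ S.image c, ((q : ℝ) / (x : ℝ) + q / ((q : ℝ) - x)) ≤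
      ∑ x ∈ Finset.Icc 1 (q - 1), ((q : ℝ) / (x : ℝ) + q / ((q : ℝ) - x)) := by
    refine Finset.sum_le_sum_of_subset_of_nonneg himg fun x hx _ => ?_
    rw [Finset.mem_Icc] at hx
    have h12 : (x : ℝ) ≤ q := by exact_mod_cast (by omega : x ≤ q)
    have : 0 ≤ (q : ℝ) - x := by linarith
    positivity
  refine h11.trans ?_
  rw [Finset.sum_add_distrib]
  have h13 : ∑ x ∈ Finset.Icc 1 (q - 1), (q : ℝ) / ((q : ℝ) - x) =
      ∑ x ∈ Finset.Icc 1 (q - 1), (q : ℝ) / (x : ℝ) := by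
    refine Finset.sum_nbij' (fun x => q - x) (fun x => q - x) ?_ ?_ ?_ ?_ ?_
    · intro x hx
      simp only [Finset.mem_Icc] at hx ⊢
      omega
    · intro x hx
      simp only [Finset.mem_Icc] at hx ⊢
      omega
    · intro x hx
      simp only [Finset.mem_Icc] at hx
      omega
    · intro x hx
      simp only [Finset.mem_Icc] at hx
      omega
    · intro x hx
      simp only [Finset.mem_Icc] at hx
      rw [Nat.cast_sub (by omega)]
  rw [h13]
  have h14 : ∑ x ∈ Finset.Icc 1 (q - 1), (q : ℝ) / (x : ℝ) ≤ q * (1 + Real.log q) := by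
    have h15 : ∑ x ∈ Finset.Icc 1 (q - 1), (q : ℝ) / (x : ℝ) =
        q * ∑ x ∈ Finset.Icc 1 (q - 1), 1 / (x : ℝ) := by
      rw [Finset.mul_sum]
      refine Finset.sum_congr rfl fun x _ => ?_
      rw [mul_one_div]
    rw [h15]
    refine mul_le_mul_of_nonneg_left ?_ hq'.le
    refine le_trans (Finset.sum_le_sum_of_subset_of_nonneg
      (Finset.Icc_subset_Icc le_rfl (Nat.sub_le q 1)) fun x _ _ => by positivity) (sum_inv_le q)
  linarith


/-- the terms which are not multiples of `q` -/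
theorem blocks {q : ℕ} (hq : 0 < q) {a : ℤ} (ha : IsCoprime a (q : ℤ)) (K : ℕ) :
    ∑ r ∈ Finset.range (K * q), (if q ∣ r then 0 else 1 / nrm ((a * (r : ℕ) : ℝ) / q)) ≤
      K * (2 * q * (1 + Real.log q)) := by
  induction K with
  | zero => simp
  | succ K ih =>
    rw [Nat.succ_mul, Finset.sum_range_add]
    have h := block hq ha (K * q)
    have h2 : ∑ x ∈ Finset.range q, (if q ∣ K * q + x then 0 else
        1 / nrm ((a * ((K * q + x : ℕ) : ℝ) : ℝ) / q)) ≤ 2 * q * (1 + Real.log q) := by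
      refine le_trans (le_of_eq ?_) h
      refine Finset.sum_congr rfl fun x _ => ?_
      push_cast
      rfl
    push_cast at h2 ih ⊢
    linarith

theorem nonmult {X₂ q : ℕ} {a : ℤ} {γ θ X₁ : ℝ} (hq : 0 < q) (ha : IsCoprime a (q : ℤ))
    (hγ : γ = a / q + θ) (hθ : |θ| * q * X₂ ≤ 1 / 4) :
    ∑ r ∈ Finset.range X₂, (if q ∣ r then 0 else mn X₁ (γ * r)) ≤
      4 / 3 * ((X₂ : ℝ) + q) * (1 + Real.log q) := by
  have hq' : (0 : ℝ) < q := by exact_mod_cast hq
  have hlog : 0 ≤ Real.log q := Real.log_nonneg (by exact_mod_cast hq)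
  have h1 : ∀ r ∈ Finset.range X₂, (if q ∣ r then 0 else mn X₁ (γ * r)) ≤
      2 / 3 * (if q ∣ r then 0 else 1 / nrm ((a * (r : ℕ) : ℝ) / q)) := by
    intro r hr
    rw [Finset.mem_range] at hr
    split_ifs with hd
    · simp
    · have h2 : ¬ (q : ℤ) ∣ a * r := fun h => hd (by exact_mod_cast ha.symm.dvd_of_dvd_mul_left h)
      have h3 := nrm_frac_ge hq h2
      have h4 : (((a * r : ℤ) : ℝ)) / q = (a * (r : ℕ) : ℝ) / q := by push_cast; ring
      rw [h4] at h3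
      set t := nrm ((a * (r : ℕ) : ℝ) / q) with ht
      have h5 : |θ * r| ≤ 1 / 4 * (1 / q) := by
        rw [abs_mul, Nat.abs_cast]
        have h6 : (r : ℝ) ≤ X₂ := by exact_mod_cast hr.le
        have h7 : |θ| * r ≤ |θ| * X₂ := mul_le_mul_of_nonneg_left h6 (abs_nonneg _)
        have h8 : |θ| * X₂ ≤ 1 / 4 * (1 / q) := by
          rw [mul_one_div, le_div_iff₀ hq']
          linarith
        linarith
      have h9 : t ≤ nrm (γ * r) + |θ * r| := by
        have h10 := nrm_le_add ((a * (r : ℕ) : ℝ) / q) (θ * r)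
        have h11 : (a * (r : ℕ) : ℝ) / q + θ * r = γ * r := by rw [hγ]; ring
        rw [h11] at h10
        exact h10
      have h12 : 0 < t := lt_of_lt_of_le (by positivity) h3
      have h13 : 3 / 4 * t ≤ nrm (γ * r) := by linarith
      refine (mn_le_inv (by positivity) h13).trans (le_of_eq ?_)
      field_simp
      norm_num
  refine (Finset.sum_le_sum h1).trans ?_
  rw [← Finset.mul_sum]
  have h14 : ∑ r ∈ Finset.range X₂, (if q ∣ r then 0 else 1 / nrm ((a * (r : ℕ) : ℝ) / q)) ≤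
      ∑ r ∈ Finset.range ((X₂ / q + 1) * q),
        (if q ∣ r then 0 else 1 / nrm ((a * (r : ℕ) : ℝ) / q)) := by
    refine Finset.sum_le_sum_of_subset_of_nonneg ?_ fun r _ _ => ?_
    · intro r hr
      rw [Finset.mem_range] at hr ⊢
      have := Nat.lt_div_mul_add (a := X₂) hq
      rw [add_mul, one_mul]
      omega
    · have := nrm_nonneg ((a * (r : ℕ) : ℝ) / q)
      split_ifs
      · exact le_rfl
      · positivity
  have h15 := blocks hq ha (X₂ / q + 1)
  have h16 : (((X₂ / q + 1 : ℕ) : ℝ)) * q ≤ X₂ + q := by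
    have h17 : (X₂ / q + 1) * q ≤ X₂ + q := by
      rw [add_mul, one_mul]
      have := Nat.div_mul_le_self X₂ q
      omega
    exact_mod_cast h17
  have h18 : (((X₂ / q + 1 : ℕ) : ℝ)) * (2 * q * (1 + Real.log q)) ≤
      2 * (X₂ + q) * (1 + Real.log q) := by
    have h19 : 0 ≤ 2 * (1 + Real.log q) := by positivity
    calc (((X₂ / q + 1 : ℕ) : ℝ)) * (2 * q * (1 + Real.log q)) =
        (((X₂ / q + 1 : ℕ) : ℝ) * q) * (2 * (1 + Real.log q)) := by ring
      _ ≤ (X₂ + q) * (2 * (1 + Real.log q)) := mul_le_mul_of_nonneg_right h16 h19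
      _ = 2 * (X₂ + q) * (1 + Real.log q) := by ring
  linarith

theorem mult {X₂ q : ℕ} {a : ℤ} {γ θ X₁ : ℝ} (hX₁ : 0 ≤ X₁) (hX₂ : 0 < X₂) (hq : 0 < q)
    (hγ : γ = a / q + θ) (hθ : |θ| * q * X₂ ≤ 1 / 4) :
    ∑ j ∈ Finset.Icc 1 (X₂ / q), mn X₁ (γ * (q * j : ℕ)) ≤
      2 * (1 + Real.log X₂) * (X₁ * X₂ / (q * (1 + |θ| * X₁ * X₂))) := by
  have hq' : (0 : ℝ) < q := by exact_mod_cast hq
  have hX₂' : (0 : ℝ) < X₂ := by exact_mod_cast hX₂
  have hlog : 0 ≤ Real.log X₂ := Real.log_nonneg (by exact_mod_cast hX₂)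
  have hY : 0 ≤ |θ| * X₁ * X₂ := by positivity
  have hden : 0 < q * (1 + |θ| * X₁ * X₂) := by positivity
  rcases le_or_gt (|θ| * X₁ * X₂) 1 with h | h
  · have h1 : ∑ j ∈ Finset.Icc 1 (X₂ / q), mn X₁ (γ * (q * j : ℕ)) ≤
        ∑ j ∈ Finset.Icc 1 (X₂ / q), X₁ := Finset.sum_le_sum fun j _ => mn_le _ _
    refine h1.trans ?_
    rw [Finset.sum_const, Nat.card_Icc, nsmul_eq_mul, Nat.add_sub_cancel]
    have h2 : ((X₂ / q : ℕ) : ℝ) ≤ X₂ / q := Nat.cast_div_le
    have h3 : X₁ * X₂ / (2 * q) ≤ X₁ * X₂ / (q * (1 + |θ| * X₁ * X₂)) := by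
      apply div_le_div_of_nonneg_left (by positivity) hden
      nlinarith
    have h4 : ((X₂ / q : ℕ) : ℝ) * X₁ ≤ 2 * (X₁ * X₂ / (2 * q)) := by
      calc ((X₂ / q : ℕ) : ℝ) * X₁ ≤ X₂ / q * X₁ := mul_le_mul_of_nonneg_right h2 hX₁
        _ = 2 * (X₁ * X₂ / (2 * q)) := by field_simp
    have h5 : 0 ≤ X₁ * X₂ / (q * (1 + |θ| * X₁ * X₂)) := by positivity
    nlinarith [mul_nonneg hlog h5]
  · have hθ0 : 0 < |θ| := by
      rcases (abs_nonneg θ).eq_or_lt with h0 | h0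
      · rw [← h0] at h; norm_num at h
      · exact h0
    have h1 : ∀ j ∈ Finset.Icc 1 (X₂ / q), mn X₁ (γ * (q * j : ℕ)) ≤
        1 / (2 * (|θ| * q)) * (1 / j) := by
      intro j hj
      rw [Finset.mem_Icc] at hj
      have hj' : (0 : ℝ) < j := by exact_mod_cast hj.1
      have h2 : γ * (q * j : ℕ) = θ * (q * j) + ((a * j : ℤ) : ℝ) := by
        rw [hγ]
        push_cast
        field_simp
        ring
      have h3 : |θ * (q * j)| = |θ| * (q * j) := by
        rw [abs_mul, abs_of_pos (by positivity : (0 : ℝ) < q * j)]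
      have h4 : |θ| * (q * j) ≤ 1 / 2 := by
        have h5 : q * j ≤ X₂ := (Nat.mul_le_mul_left q hj.2).trans (Nat.mul_div_le X₂ q)
        have h6 : ((q : ℝ) * j) ≤ q * X₂ := by
          have h7 : (q * j : ℕ) ≤ q * X₂ := h5.trans (Nat.le_mul_of_pos_left X₂ hq)
          exact_mod_cast h7
        have := mul_le_mul_of_nonneg_left h6 hθ0.le
        linarith
      have h5 : nrm (γ * (q * j : ℕ)) = |θ| * (q * j) := by
        rw [h2, nrm_add_int, nrm_small (by rw [h3]; exact h4), h3]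
      have h6 : 0 < |θ| * (q * j) := by positivity
      refine (mn_le_inv h6 h5.ge).trans (le_of_eq ?_)
      field_simp
    refine (Finset.sum_le_sum h1).trans ?_
    rw [← Finset.mul_sum]
    have h7 := sum_inv_le (X₂ / q)
    have h8 : Real.log ((X₂ / q : ℕ) : ℝ) ≤ Real.log X₂ := by
      rcases Nat.eq_zero_or_pos (X₂ / q) with h0 | h0
      · rw [h0]; simpa using hlog
      · exact Real.log_le_log (by exact_mod_cast h0) (by exact_mod_cast Nat.div_le_self X₂ q)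
    have h9 : 1 / (2 * (|θ| * q)) ≤ X₁ * X₂ / (q * (1 + |θ| * X₁ * X₂)) := by
      rw [div_le_div_iff₀ (by positivity) hden]
      have : 1 + |θ| * X₁ * X₂ ≤ 2 * (|θ| * X₁ * X₂) := by linarith
      nlinarith
    have h10 : 0 ≤ X₁ * X₂ / (q * (1 + |θ| * X₁ * X₂)) := by positivity
    calc 1 / (2 * (|θ| * q)) * ∑ j ∈ Finset.Icc 1 (X₂ / q), 1 / (j : ℝ)
        ≤ 1 / (2 * (|θ| * q)) * (1 + Real.log X₂) :=
          mul_le_mul_of_nonneg_left (by linarith) (by positivity)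
      _ ≤ X₁ * X₂ / (q * (1 + |θ| * X₁ * X₂)) * (1 + Real.log X₂) :=
          mul_le_mul_of_nonneg_right h9 (by linarith)
      _ ≤ 2 * (1 + Real.log X₂) * (X₁ * X₂ / (q * (1 + |θ| * X₁ * X₂))) := by
          nlinarith [mul_nonneg h10 (by linarith : (0 : ℝ) ≤ 1 + Real.log X₂)]

theorem sum_multiples_le {q : ℕ} (hq : 0 < q) (X₂ : ℕ) {f : ℕ → ℝ} (hf : ∀ r, 0 ≤ f r) :
    ∑ r ∈ Finset.Ico 1 X₂, (if q ∣ r then f r else 0) ≤
      ∑ j ∈ Finset.Icc 1 (X₂ / q), f (q * j) := by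
  classical
  rw [← Finset.sum_filter]
  have h1 : (Finset.Ico 1 X₂).filter (fun r => q ∣ r) ⊆
      (Finset.Icc 1 (X₂ / q)).image (fun j => q * j) := by
    intro r hr
    rw [Finset.mem_filter, Finset.mem_Ico] at hr
    obtain ⟨⟨h2, h3⟩, j, rfl⟩ := hr
    rw [Finset.mem_image]
    refine ⟨j, ?_, rfl⟩
    rw [Finset.mem_Icc]
    constructor
    · rcases Nat.eq_zero_or_pos j with h0 | h0
      · rw [h0] at h2; omega
      · exact h0
    · rw [Nat.le_div_iff_mul_le hq, mul_comm]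
      exact h3.le
  have h2 : ∑ r ∈ (Finset.Icc 1 (X₂ / q)).image (fun j => q * j), f r =
      ∑ j ∈ Finset.Icc 1 (X₂ / q), f (q * j) := by
    rw [Finset.sum_image]
    intro i _ j _ hij
    exact Nat.eq_of_mul_eq_mul_left hq hij
  rw [← h2]
  exact Finset.sum_le_sum_of_subset_of_nonneg h1 fun r _ _ => hf r

/-- a symmetric sum over `(-X, X)` -/
theorem sum_Ioo_symm {X : ℕ} (hX : 0 < X) {f : ℤ → ℝ} (hf : ∀ r, f (-r) = f r) :
    ∑ r ∈ Finset.Ioo (-(X : ℤ)) X, f r = f 0 + 2 * ∑ r ∈ Finset.Ico 1 X, f (r : ℕ) := by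
  classical
  have h1 : Finset.Ioo (-(X : ℤ)) X =
      insert 0 ((Finset.Ico 1 X).image (fun r : ℕ => (r : ℤ)) ∪
        (Finset.Ico 1 X).image (fun r : ℕ => -(r : ℤ))) := by
    ext r
    simp only [Finset.mem_Ioo, Finset.mem_insert, Finset.mem_union, Finset.mem_image,
      Finset.mem_Ico]
    constructor
    · intro h
      rcases lt_trichotomy r 0 with h0 | h0 | h0
      · right; right
        exact ⟨r.natAbs, by omega, by omega⟩
      · left; exact h0
      · right; left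
        exact ⟨r.natAbs, by omega, by omega⟩
    · rintro (h | ⟨x, hx, rfl⟩ | ⟨x, hx, rfl⟩)
      · omega
      · omega
      · omega
  rw [h1, Finset.sum_insert, Finset.sum_union, Finset.sum_image, Finset.sum_image]
  · have : ∑ x ∈ Finset.Ico 1 X, f (-(x : ℤ)) = ∑ x ∈ Finset.Ico 1 X, f (x : ℤ) :=
      Finset.sum_congr rfl fun x _ => hf _
    rw [this]
    ring
  · intro x _ y _ hxy
    simpa using hxy
  · intro x _ y _ hxy
    simpa using hxy
  · rw [Finset.disjoint_left]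
    intro r hr hr'
    rw [Finset.mem_image] at hr hr'
    obtain ⟨x, hx, rfl⟩ := hr
    obtain ⟨y, hy, h⟩ := hr'
    rw [Finset.mem_Ico] at hx hy
    omega
  · rw [Finset.mem_union, Finset.mem_image, Finset.mem_image]
    rintro (⟨x, hx, h⟩ | ⟨x, hx, h⟩)
    · rw [Finset.mem_Ico] at hx; omega
    · rw [Finset.mem_Ico] at hx; omega

/-- MIN-SUM: `γ = a/q + θ` with `|θ| q X₂ ≤ 1/4` -/
theorem min_sum {X₂ q : ℕ} {a : ℤ} {γ θ X₁ : ℝ} (hX₁ : 0 ≤ X₁) (hX₂ : 0 < X₂) (hq : 0 < q)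
    (ha : IsCoprime a (q : ℤ)) (hγ : γ = a / q + θ) (hθ : |θ| * q * X₂ ≤ 1 / 4) :
    ∑ r ∈ Finset.Ioo (-(X₂ : ℤ)) X₂, mn X₁ (γ * r) ≤
      X₁ + 4 * (1 + Real.log q + Real.log X₂) *
        (X₂ + q + X₁ * X₂ / (q * (1 + |θ| * X₁ * X₂))) := by
  have hq' : (0 : ℝ) < q := by exact_mod_cast hq
  have hX₂' : (0 : ℝ) < X₂ := by exact_mod_cast hX₂
  have hlog : 0 ≤ Real.log q := Real.log_nonneg (by exact_mod_cast hq)
  have hlog2 : 0 ≤ Real.log X₂ := Real.log_nonneg (by exact_mod_cast hX₂)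
  have h1 := sum_Ioo_symm hX₂ (f := fun r : ℤ => mn X₁ (γ * r)) (by
    intro r
    show mn X₁ (γ * ((-r : ℤ) : ℝ)) = mn X₁ (γ * r)
    rw [← mn_neg]
    congr 1
    push_cast
    ring)
  beta_reduce at h1
  rw [h1]
  have h2 : mn X₁ (γ * ((0 : ℤ) : ℝ)) ≤ X₁ := mn_le _ _
  have h3 : ∑ r ∈ Finset.Ico 1 X₂, mn X₁ (γ * (((r : ℕ) : ℤ) : ℝ)) =
      ∑ r ∈ Finset.Ico 1 X₂, (if q ∣ r then 0 else mn X₁ (γ * r)) +
        ∑ r ∈ Finset.Ico 1 X₂, (if q ∣ r then mn X₁ (γ * r) else 0) := by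
    rw [← Finset.sum_add_distrib]
    refine Finset.sum_congr rfl fun r _ => ?_
    split_ifs <;> simp
  have h4 : ∑ r ∈ Finset.Ico 1 X₂, (if q ∣ r then 0 else mn X₁ (γ * r)) ≤
      4 / 3 * ((X₂ : ℝ) + q) * (1 + Real.log q) := by
    refine le_trans ?_ (nonmult hq ha hγ hθ (X₁ := X₁))
    refine Finset.sum_le_sum_of_subset_of_nonneg ?_ fun r _ _ => ?_
    · intro r hr
      rw [Finset.mem_Ico] at hr
      rw [Finset.mem_range]
      exact hr.2
    · split_ifs
      · exact le_rfl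
      · exact mn_nonneg hX₁
  have h5 : ∑ r ∈ Finset.Ico 1 X₂, (if q ∣ r then mn X₁ (γ * r) else 0) ≤
      2 * (1 + Real.log X₂) * (X₁ * X₂ / (q * (1 + |θ| * X₁ * X₂))) :=
    (sum_multiples_le hq X₂ (f := fun r => mn X₁ (γ * r)) fun r => mn_nonneg hX₁).trans
      (mult hX₁ hX₂ hq hγ hθ)
  rw [h3]
  have h6 : 0 ≤ X₁ * X₂ / (q * (1 + |θ| * X₁ * X₂)) := by positivity
  set W := X₁ * X₂ / (q * (1 + |θ| * X₁ * X₂))
  nlinarith [mul_nonneg (add_nonneg hX₂'.le hq'.le) hlog2, mul_nonneg (add_nonneg hX₂'.le hq'.le) hlog,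
    mul_nonneg h6 hlog, mul_nonneg h6 hlog2, mul_nonneg hX₂'.le hlog, mul_nonneg hq'.le hlog]

end Pool.Agent.HadC3

namespace HadLLL

theorem G_eq_mn (X x : ℝ) : G X x = Pool.Agent.HadC3.mn X x := by
  have h : nd x = Pool.Agent.HadC3.nrm x := rfl
  have h2 : nd x * (2 * X) = 2 * Pool.Agent.HadC3.nrm x * X := by rw [h]; ring
  unfold G Pool.Agent.HadC3.mn
  rw [h2, h]

/-- MIN-SUM: `γ = a/q + θ` with `|θ| q X₂ ≤ 1/4` (the `G` of `bilinear`) -/
theorem min_sum {X₁ X₂ q : ℕ} {a : ℤ} {γ θ : ℝ} (hX₂ : 0 < X₂) (hq : 0 < q)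
    (ha : IsCoprime a (q : ℤ)) (hγ : γ = a / q + θ) (hθ : |θ| * q * X₂ ≤ 1 / 4) :
    ∑ r ∈ Finset.Ioo (-(X₂ : ℤ)) X₂, G X₁ (γ * r) ≤
      X₁ + 4 * (1 + Real.log q + Real.log X₂) *
        (X₂ + q + X₁ * X₂ / (q * (1 + |θ| * X₁ * X₂))) := by
  have h := Pool.Agent.HadC3.min_sum (X₁ := (X₁ : ℝ)) (Nat.cast_nonneg X₁) hX₂ hq ha hγ hθ
  refine le_trans (le_of_eq ?_) h
  exact Finset.sum_congr rfl fun r _ => G_eq_mn _ _

end HadLLL
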