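import Pool.Agent.Lib_MP_008adc_c3.Bilin

/-!
MP_008adc_co: the sum over odd `x < 2 ^ b0` vanishes (note 2926, B4).
-/

namespace MinSum

open Finset Complex

/-- the odd numbers below `2 ^ b` -/
def oddX (b : ℕ) : Finset ℕ := (range (2 ^ b)).filter fun x => x % 2 = 1

lemma mem_oddX {b x : ℕ} : x ∈ oddX b ↔ x < 2 ^ b ∧ x % 2 = 1 := by
  simp [oddX]

lemma oddX_eq (b : ℕ) (hb : 1 ≤ b) :
    oddX b = (range (2 ^ (b - 1))).image fun m => 2 * m + 1 := by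
  obtain ⟨c, rfl⟩ : ∃ c, b = c + 1 := ⟨b - 1, by omega⟩
  have e : 2 ^ (c + 1) = 2 * 2 ^ c := by ring
  ext x
  simp only [mem_oddX, mem_image, mem_range, Nat.add_sub_cancel, e]
  constructor
  · rintro ⟨h1, h2⟩
    exact ⟨x / 2, by omega, by omega⟩
  · rintro ⟨m, h1, h2⟩
    omega

lemma card_oddX (b : ℕ) (hb : 1 ≤ b) : (oddX b).card = 2 ^ (b - 1) := by
  rw [oddX_eq b hb, card_image_of_injective _ (fun m n h => by simpa using h), card_range]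

lemma eR_eq_one_iff (x : ℝ) : eR x = 1 ↔ ∃ n : ℤ, x = n := by
  unfold eR
  rw [Complex.exp_eq_one_iff]
  constructor
  · rintro ⟨n, hn⟩
    refine ⟨n, ?_⟩
    have h2 : (2 * (Real.pi : ℂ) * Complex.I) ≠ 0 := by
      simp [Real.pi_ne_zero]
    have h3 : (2 * (Real.pi : ℂ) * Complex.I) * (x : ℂ) = (2 * (Real.pi : ℂ) * Complex.I) * (n : ℂ) := by
      rw [hn]
      ring
    have h4 := mul_left_cancel₀ h2 h3
    exact_mod_cast h4
  · rintro ⟨n, rfl⟩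
    refine ⟨n, ?_⟩
    push_cast
    ring

/-- PIECE B4. -/
theorem oddX_sum (b i : ℕ) (hi : 2 ≤ i) (hib : i ≤ b) (a : ℤ) (ha : ¬ (2 : ℤ) ∣ a) (P : ℕ)
    (hP : P % 2 = 1) :
    ∑ x ∈ oddX b, eR ((a : ℝ) / 2 ^ i * ((x : ℝ) * (P : ℝ))) = 0 := by
  obtain ⟨j, rfl⟩ : ∃ j, i = j + 1 := ⟨i - 1, by omega⟩
  obtain ⟨c, rfl⟩ : ∃ c, b = c + 1 := ⟨b - 1, by omega⟩
  have hj : 1 ≤ j := by omega
  have hjc : j ≤ c := by omega
  rw [oddX_eq (c + 1) (by omega), sum_image (fun m _ n _ h => by simpa using h),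
    Nat.add_sub_cancel]
  set ζ : ℂ := eR ((a : ℝ) * P / 2 ^ j) with hζ
  have h2 : (2 : ℝ) ^ j ≠ 0 := by positivity
  have hterm : ∀ m ∈ range (2 ^ c), eR ((a : ℝ) / 2 ^ (j + 1) * (((2 * m + 1 : ℕ) : ℝ) * (P : ℝ)))
      = eR ((a : ℝ) / 2 ^ (j + 1) * P) * ζ ^ m := by
    intro m _
    rw [hζ, ← eR_mul_nat, ← eR_add]
    congr 1
    push_cast
    rw [pow_succ]
    field_simp
    ring
  rw [sum_congr rfl hterm, ← mul_sum]
  have hne : ζ ≠ 1 := by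
    rw [hζ, Ne, eR_eq_one_iff]
    rintro ⟨n, hn⟩
    have h3 : (a : ℝ) * P = n * 2 ^ j := by
      field_simp at hn
      linarith
    have h4 : a * (P : ℤ) = n * 2 ^ j := by exact_mod_cast h3
    have h5 : (2 : ℤ) ∣ a * (P : ℤ) := by
      rw [h4]
      exact Dvd.dvd.mul_left (dvd_pow_self 2 (by omega)) n
    rcases Int.Prime.dvd_mul' Nat.prime_two h5 with h6 | h6
    · exact ha (by exact_mod_cast h6)
    · have h7 : (2 : ℤ) ∣ (P : ℤ) := by exact_mod_cast h6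
      omega
  have hone : ζ ^ (2 ^ c) = 1 := by
    rw [hζ, ← eR_mul_nat, eR_eq_one_iff]
    refine ⟨a * P * 2 ^ (c - j), ?_⟩
    push_cast
    have h8 : (2 : ℝ) ^ c = 2 ^ (c - j) * 2 ^ j := by
      rw [← pow_add]
      congr 1
      omega
    rw [h8]
    field_simp
  have hg : (ζ - 1) * ∑ m ∈ range (2 ^ c), ζ ^ m = 0 := by
    rw [mul_comm, geom_sum_mul, hone, sub_self]
  rcases mul_eq_zero.mp hg with h9 | h9
  · exact absurd (sub_eq_zero.mp h9) hne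
  · rw [h9, mul_zero]

end MinSum
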