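import Pool.Agent.Lib_MP_008adc_co.NPi

/-!
# Piece B0: many disjoint sets of primes in a short window
-/

set_option autoImplicit false

namespace HadNT

/-- `K` disjoint subsets of size `n` of a set with at least `K n` elements. -/
theorem exists_disjoint_subsets (n : ℕ) : ∀ (K : ℕ) (F : Finset ℕ), K * n ≤ F.card →
    ∃ P : ℕ → Finset ℕ, (∀ i j, i ≠ j → Disjoint (P i) (P j)) ∧ (∀ j, P j ⊆ F) ∧
      ∀ j < K, (P j).card = n := by
  intro K
  induction K with
  | zero =>
    intro F _
    exact ⟨fun _ => ∅, fun i j _ => by simp, fun j => by simp, fun j hj => by omega⟩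
  | succ K ih =>
    intro F hF
    obtain ⟨F1, hF1, hc⟩ := Finset.exists_subset_card_eq (s := F) (n := n) (by nlinarith)
    obtain ⟨P, hP1, hP2, hP3⟩ := ih (F \ F1) (by
      rw [Finset.card_sdiff_of_subset hF1, hc]
      have : (K + 1) * n = K * n + n := by ring
      omega)
    refine ⟨Function.update P K F1, ?_, ?_, ?_⟩
    · intro i j hij
      by_cases hi : i = K
      · subst hi
        rw [Function.update_self, Function.update_of_ne (Ne.symm hij)]
        exact Finset.disjoint_of_subset_right (hP2 j) Finset.disjoint_sdiff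
      · by_cases hj : j = K
        · subst hj
          rw [Function.update_self, Function.update_of_ne hij]
          exact Finset.disjoint_of_subset_left (hP2 i) Finset.sdiff_disjoint
        · rw [Function.update_of_ne hi, Function.update_of_ne hj]
          exact hP1 i j hij
    · intro j
      by_cases hj : j = K
      · subst hj
        rw [Function.update_self]
        exact hF1
      · rw [Function.update_of_ne hj]
        exact (hP2 j).trans Finset.sdiff_subset
    · intro j hj
      by_cases hj' : j = K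
      · subst hj'
        rw [Function.update_self]
        exact hc
      · rw [Function.update_of_ne hj']
        exact hP3 j (by omega)

/-- PRIME SETS. `K` pairwise disjoint sets of exactly `2 ^ (b - 2 g)` primes each, all of them in
one window `[y - w, y)`, where `y ≤ 2 ^ b`, `w = 2 ^ (b - g)` and `(K + 1) w ≤ y`. -/
theorem prime_sets (b K g : ℕ) (hb : 2 ≤ b) (hK : 1 ≤ K) (hg : 4 * b * K ≤ 2 ^ g)
    (hgb : 2 * g ≤ b) :
    ∃ y : ℕ, y ≤ 2 ^ b ∧ (K + 1) * 2 ^ (b - g) ≤ y ∧ ∃ P : ℕ → Finset ℕ,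
      (∀ i j, i ≠ j → Disjoint (P i) (P j)) ∧
      (∀ j, ∀ p ∈ P j, p.Prime ∧ y ≤ p + 2 ^ (b - g) ∧ p < y ∧ 2 ^ (b - g) ≤ p) ∧
      ∀ j < K, (P j).card = 2 ^ (b - 2 * g) := by
  set w : ℕ := 2 ^ (b - g) with hw
  have hw0 : 0 < w := by positivity
  have hgw : 2 ^ g * w = 2 ^ b := by
    rw [hw, ← pow_add]
    congr 1
    omega
  have hn0 : 2 ^ g * 2 ^ (b - 2 * g) = w := by
    rw [hw, ← pow_add]
    congr 1
    omega
  have hKw : 4 * b * K * w ≤ 2 ^ b := by
    rw [← hgw]
    exact Nat.mul_le_mul_right _ hg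
  have hpi := pi_two_pow b (by omega)
  have hnp : ¬ Nat.Prime (2 ^ b) := Nat.Prime.not_prime_pow (by omega)
  have hS : Nat.primeCounting (2 ^ b) = ((Finset.range (2 ^ b)).filter Nat.Prime).card := by
    rw [Nat.primeCounting, Nat.primeCounting', Nat.count_eq_card_filter_range,
      Finset.range_add_one, Finset.filter_insert, if_neg hnp]
  rw [hS] at hpi
  set S := (Finset.range (2 ^ b)).filter Nat.Prime with hSd
  set S' := S.filter (fun p => K * w ≤ p) with hS'
  have hSS : S.card ≤ K * w + S'.card := by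
    have h1 : S ⊆ Finset.range (K * w) ∪ S' := by
      intro p hp
      rw [Finset.mem_union, Finset.mem_range, hS', Finset.mem_filter]
      by_cases h : p < K * w
      · exact Or.inl h
      · exact Or.inr ⟨hp, by omega⟩
    calc S.card ≤ (Finset.range (K * w) ∪ S').card := Finset.card_le_card h1
      _ ≤ (Finset.range (K * w)).card + S'.card := Finset.card_union_le _ _
      _ = K * w + S'.card := by rw [Finset.card_range]
  have h4 : 2 ^ b ≤ 4 * b * S'.card := by
    have h5 : 4 * b * S.card ≤ 4 * b * K * w + 4 * b * S'.card := by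
      calc 4 * b * S.card ≤ 4 * b * (K * w + S'.card) := Nat.mul_le_mul_left _ hSS
        _ = _ := by ring
    have h6 : 2 * (2 * b * S.card) = 4 * b * S.card := by ring
    omega
  have hS'c : K * w ≤ S'.card := by
    have h7 : 4 * b * (K * w) ≤ 4 * b * S'.card := by
      calc 4 * b * (K * w) = 4 * b * K * w := by ring
        _ ≤ 2 ^ b := hKw
        _ ≤ _ := h4
    exact Nat.le_of_mul_le_mul_left h7 (by omega)
  have hKg : K < 2 ^ g := by
    have : 1 * K < 4 * b * K := Nat.mul_lt_mul_of_pos_right (by omega) (by omega)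
    omega
  obtain ⟨i, hi, hcard⟩ := Finset.exists_le_card_fiber_of_mul_le_card_of_maps_to
    (s := S') (t := Finset.Ico K (2 ^ g)) (f := fun p => p / w) (n := K * 2 ^ (b - 2 * g))
    (by
      intro p hp
      rw [hS', Finset.mem_filter, hSd, Finset.mem_filter, Finset.mem_range] at hp
      rw [Finset.mem_Ico]
      refine ⟨(Nat.le_div_iff_mul_le hw0).2 hp.2, (Nat.div_lt_iff_lt_mul hw0).2 ?_⟩
      rw [hgw]
      exact hp.1.1)
    ⟨K, Finset.mem_Ico.2 ⟨le_refl _, hKg⟩⟩
    (by
      rw [Nat.card_Ico]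
      calc (2 ^ g - K) * (K * 2 ^ (b - 2 * g)) ≤ 2 ^ g * (K * 2 ^ (b - 2 * g)) :=
            Nat.mul_le_mul_right _ (Nat.sub_le _ _)
        _ = K * (2 ^ g * 2 ^ (b - 2 * g)) := by ring
        _ = K * w := by rw [hn0]
        _ ≤ _ := hS'c)
  obtain ⟨P, hP1, hP2, hP3⟩ := exists_disjoint_subsets (2 ^ (b - 2 * g)) K _ hcard
  rw [Finset.mem_Ico] at hi
  refine ⟨(i + 1) * w, ?_, ?_, P, hP1, ?_, hP3⟩
  · rw [← hgw]
    exact Nat.mul_le_mul_right _ hi.2
  · exact Nat.mul_le_mul_right _ (by omega)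
  · intro j p hp
    have h := hP2 j hp
    rw [Finset.mem_filter, hS', Finset.mem_filter, hSd, Finset.mem_filter, Finset.mem_range] at h
    obtain ⟨⟨⟨h1, h2⟩, h3⟩, h4⟩ := h
    have h5 := Nat.div_add_mod p w
    have h6 := Nat.mod_lt p hw0
    have h7 : p / w = i := h4
    rw [h7] at h5
    have h8 : (i + 1) * w = w * i + w := by ring
    have h9 : w ≤ K * w := Nat.le_mul_of_pos_left w (by omega)
    refine ⟨h2, ?_, ?_, ?_⟩
    · rw [h8]
      omega
    · rw [h8]
      omega
    · omega

/-- Products of numbers in the window. -/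
theorem prod_window {ι : Type*} (K y w : ℕ) (hK : 1 ≤ K) (hw : (K + 1) * w ≤ y) (s : Finset ι)
    (hs : s.card ≤ K) (f : ι → ℕ) (hf : ∀ j ∈ s, y ≤ f j + w) :
    y ^ s.card ≤ 3 * ∏ j ∈ s, f j := by
  have hK' : (0 : ℝ) < K := by exact_mod_cast hK
  have h1 : ∀ j ∈ s, (y : ℝ) ≤ (1 + 1 / K) * f j := by
    intro j hj
    have h2 : (y : ℝ) ≤ f j + w := by exact_mod_cast hf j hj
    have h3 : ((K : ℝ) + 1) * w ≤ y := by exact_mod_cast hw
    have h4 : (K : ℝ) * y ≤ (K + 1) * f j := by nlinarith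
    have h5 : (1 + 1 / (K : ℝ)) * f j = (K + 1) * f j / K := by
      field_simp
    rw [h5, le_div_iff₀ hK']
    linarith
  have h6 : (y : ℝ) ^ s.card ≤ (1 + 1 / K) ^ s.card * ∏ j ∈ s, (f j : ℝ) := by
    calc (y : ℝ) ^ s.card = ∏ _j ∈ s, (y : ℝ) := by rw [Finset.prod_const]
      _ ≤ ∏ j ∈ s, ((1 + 1 / (K : ℝ)) * f j) :=
          Finset.prod_le_prod (fun j _ => by positivity) h1
      _ = _ := by rw [Finset.prod_mul_distrib, Finset.prod_const]
  have h7 : (1 + 1 / (K : ℝ)) ^ s.card ≤ 3 := by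
    calc (1 + 1 / (K : ℝ)) ^ s.card ≤ (1 + 1 / (K : ℝ)) ^ K :=
          pow_le_pow_right₀ (by
            have : (0 : ℝ) ≤ 1 / K := by positivity
            linarith) hs
      _ ≤ (Real.exp (1 / K)) ^ K := by
          refine pow_le_pow_left₀ (by positivity) ?_ K
          have := Real.add_one_le_exp (1 / (K : ℝ))
          linarith
      _ = Real.exp 1 := by
          rw [← Real.exp_nat_mul]
          congr 1
          field_simp
      _ ≤ 3 := by
          have := Real.exp_one_lt_d9
          linarith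
  have h8 : (y : ℝ) ^ s.card ≤ 3 * ∏ j ∈ s, (f j : ℝ) :=
    h6.trans (mul_le_mul_of_nonneg_right h7 (Finset.prod_nonneg fun j _ => by positivity))
  exact_mod_cast h8

theorem prod_window_le {ι : Type*} (y : ℕ) (s : Finset ι) (f : ι → ℕ) (hf : ∀ j ∈ s, f j < y) :
    ∏ j ∈ s, f j ≤ y ^ s.card :=
  Finset.prod_le_pow_card _ _ _ fun j hj => (hf j hj).le

end HadNT
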