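import Mathlib

/-!
# Piece B9: from classes modulo `2 ^ R` to a representation of `z`
-/

set_option autoImplicit false

namespace HadB

/-- PIECE B9. -/
theorem repZ (b b0 y K0 z : ℕ) (hy2 : 2 ≤ y) (hyb : y ≤ 2 ^ b) (P : ℕ → ℕ → Prop)
    (hK0 : 2 ^ b ≤ 2 ^ b0 * y ^ K0) (hz : 16 * (2 ^ b0 * y ^ K0) ≤ z)
    (HB : ∀ K R : ℕ, K0 ≤ K → 2 ^ (R + b) ≤ 2 ^ b0 * y ^ K → 2 ^ b0 * y ^ K < 2 ^ (R + 1 + b) →
      16 * (2 ^ b0 * y ^ K) ≤ z → ∀ c : ℕ, c % 2 = 0 → ∃ X : Fin 16 → ℕ,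
        (∀ i, X i < 2 ^ b0 * y ^ K) ∧ (∀ i, P K (X i)) ∧ (∑ i, X i) ≡ c [MOD 2 ^ R]) :
    ∃ K R : ℕ, ∃ X : Fin 16 → ℕ, ∃ eps w : ℕ, K0 ≤ K ∧ 16 * (2 ^ b0 * y ^ K) ≤ z ∧
      2 ^ (R + b) ≤ 2 ^ b0 * y ^ K ∧ z < 2 ^ (R + (2 * b + 5)) ∧ eps ≤ 1 ∧ (∀ i, P K (X i)) ∧
      z = eps + (∑ i, X i) + 2 ^ R * w ∧ w < 2 ^ (2 * b + 5) := by
  classical
  -- the largest `K`
  have hex : ∃ K, K0 ≤ K ∧ 16 * (2 ^ b0 * y ^ K) ≤ z ∧ z < 16 * (2 ^ b0 * y ^ (K + 1)) := by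
    have hub : ∀ K, 16 * (2 ^ b0 * y ^ K) ≤ z → K ≤ z := by
      intro K hK
      have h1 : K < 2 ^ K := Nat.lt_two_pow_self
      have h2 : 2 ^ K ≤ y ^ K := Nat.pow_le_pow_left hy2 K
      have h3 : 1 ≤ 2 ^ b0 := Nat.one_le_two_pow
      nlinarith
    let K := Nat.findGreatest (fun K => 16 * (2 ^ b0 * y ^ K) ≤ z) z
    have h1 : K0 ≤ K := Nat.le_findGreatest (hub K0 hz) hz
    have h2 : 16 * (2 ^ b0 * y ^ K) ≤ z :=
      Nat.findGreatest_spec (P := fun K => 16 * (2 ^ b0 * y ^ K) ≤ z) (hub K0 hz) hz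
    refine ⟨K, h1, h2, ?_⟩
    by_contra h3
    push Not at h3
    have h4 : K + 1 ≤ K :=
      Nat.le_findGreatest (P := fun K => 16 * (2 ^ b0 * y ^ K) ≤ z) (hub (K + 1) h3) h3
    omega
  obtain ⟨K, hK, hKz, hKz2⟩ := hex
  have hN : 2 ^ b ≤ 2 ^ b0 * y ^ K :=
    hK0.trans (Nat.mul_le_mul_left _ (Nat.pow_le_pow_right (by omega) hK))
  have hN0 : 2 ^ b0 * y ^ K ≠ 0 := by
    have : 0 < 2 ^ b := by positivity
    omega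
  have hlb : b ≤ Nat.log 2 (2 ^ b0 * y ^ K) := Nat.le_log_of_pow_le (by norm_num) hN
  obtain ⟨R, e1⟩ : ∃ R : ℕ, R + b = Nat.log 2 (2 ^ b0 * y ^ K) :=
    ⟨Nat.log 2 (2 ^ b0 * y ^ K) - b, Nat.sub_add_cancel hlb⟩
  have hR1 : 2 ^ (R + b) ≤ 2 ^ b0 * y ^ K := by
    rw [e1]
    exact Nat.pow_log_le_self 2 hN0
  have hR2 : 2 ^ b0 * y ^ K < 2 ^ (R + 1 + b) := by
    have : R + 1 + b = Nat.log 2 (2 ^ b0 * y ^ K) + 1 := by omega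
    rw [this]
    exact Nat.lt_pow_succ_log_self (by norm_num) _
  have hc : (z - z % 2) % 2 = 0 := by
    have := Nat.sub_mod_eq_zero_of_mod_eq (m := z) (n := z % 2) (k := 2) (by simp)
    exact this
  obtain ⟨X, hX1, hX2, hX3⟩ := HB K R hK hR1 hR2 hKz (z - z % 2) hc
  have hsum : ∑ i, X i ≤ z - z % 2 := by
    have h1 : ∑ i, X i ≤ ∑ _i : Fin 16, (2 ^ b0 * y ^ K - 1) :=
      Finset.sum_le_sum fun i _ => by have := hX1 i; omega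
    rw [Finset.sum_const, Finset.card_univ, Fintype.card_fin, smul_eq_mul] at h1
    generalize 2 ^ b0 * y ^ K = N at *
    omega
  obtain ⟨w, hw⟩ := (Nat.modEq_iff_dvd' hsum).1 hX3
  have hz3 : z < 2 ^ (R + (2 * b + 5)) := by
    have h1 : 2 ^ b0 * y ^ (K + 1) ≤ 2 ^ b0 * y ^ K * 2 ^ b := by
      rw [pow_succ, ← mul_assoc]
      exact Nat.mul_le_mul_left _ hyb
    have h2 : 2 ^ (R + (2 * b + 5)) = 16 * (2 ^ (R + 1 + b) * 2 ^ b) := by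
      have e3 : R + (2 * b + 5) = (R + 1 + b) + b + 4 := by omega
      rw [e3, pow_add _ _ 4, pow_add _ _ b]
      generalize 2 ^ (R + 1 + b) * 2 ^ b = A
      omega
    rw [h2]
    have h3 : 2 ^ b0 * y ^ K * 2 ^ b ≤ 2 ^ (R + 1 + b) * 2 ^ b := Nat.mul_le_mul_right _ hR2.le
    exact hKz2.trans_le (Nat.mul_le_mul_left 16 (h1.trans h3))
  have hzw : z = z % 2 + (∑ i, X i) + 2 ^ R * w := by
    have h0 : z % 2 ≤ z := Nat.mod_le _ _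
    generalize z % 2 = r at *
    generalize ∑ i, X i = S at *
    generalize 2 ^ R * w = W at *
    omega
  refine ⟨K, R, X, z % 2, w, hK, hKz, hR1, hz3, by omega, hX2, hzw, ?_⟩
  have h1 : 2 ^ R * w < 2 ^ R * 2 ^ (2 * b + 5) := by
    rw [← pow_add]
    exact lt_of_le_of_lt (by rw [hzw]; exact Nat.le_add_left _ _) hz3
  exact Nat.lt_of_mul_lt_mul_left h1

theorem K_le_log (b b0 y K z : ℕ) (hy : 2 ^ (b / 2) ≤ y) (hz : 16 * (2 ^ b0 * y ^ K) ≤ z) :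
    K * (b / 2) ≤ Nat.log 2 z := by
  have h1 : 2 ^ (K * (b / 2)) ≤ z := by
    have h2 : 2 ^ (K * (b / 2)) ≤ y ^ K := by
      rw [mul_comm, pow_mul]
      exact Nat.pow_le_pow_left hy K
    have h3 : 1 ≤ 2 ^ b0 := Nat.one_le_two_pow
    nlinarith
  exact Nat.le_log_of_pow_le (by norm_num) h1

end HadB
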